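import Mathlib
import Pool.Agent.FB.Defs

/-!
# FB/U5: closed 4-braids away from the unit circle, statements of the modules

`q = -A⁻⁴` is a complex number, `Q = (A² + A⁻²)² = 2 - q - q⁻¹` is small, the weight of `σ^a` is `q ^ a`.
A block is `t = (x, y, z)` (weights of `σ₁^a`, `σ₃^c`, `σ₂^b`).  State `p = (α, β)`: the function on the
colours with value `1 + α` at the hub 0, `1 + β` at the hub 4, `1` elsewhere.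
-/

set_option autoImplicit false

open Matrix LaurentPolynomial Pool.RU

namespace Pool.Agent.FB.U5

/-- the block with different colours at the two hubs -/
noncomputable def T3 (Q : ℂ) (t : ℂ × ℂ × ℂ) : Matrix (Fin 3) (Fin 3) ℂ :=
  (1 + ((t.2.2 - 1) / Q) • !![1, 1, Q - 2; 1, 1, Q - 2; 1, 1, Q - 2]) *
    Matrix.diagonal ![t.1, t.2.1, 1]

/-- the block with the same colour at the two hubs -/
noncomputable def T2 (Q : ℂ) (t : ℂ × ℂ × ℂ) : Matrix (Fin 2) (Fin 2) ℂ :=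
  (1 + ((t.2.2 - 1) / Q) • !![1, Q - 1; 1, Q - 1]) * Matrix.diagonal ![t.1 * t.2.1, 1]

/-- the bracket of the closed braid times `A² + A⁻²`, up to a unit -/
noncomputable def EE (Q : ℂ) (L : List (ℂ × ℂ × ℂ)) : ℂ :=
  (Q ^ 2 - 3 * Q + 1) - (1 - Q) * (L.map (T3 Q)).prod.trace + (L.map (T2 Q)).prod.trace

/-- `v = Q / (z - 1)` -/
noncomputable def v (Q : ℂ) (t : ℂ × ℂ × ℂ) : ℂ := Q / (t.2.2 - 1)

/-- `X = x (1 + α) - 1` -/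
noncomputable def X (t : ℂ × ℂ × ℂ) (p : ℂ × ℂ) : ℂ := t.1 * (1 + p.1) - 1

/-- `Y = y (1 + β) - 1` -/
noncomputable def Y (t : ℂ × ℂ × ℂ) (p : ℂ × ℂ) : ℂ := t.2.1 * (1 + p.2) - 1

/-- `N = v + Q + X + Y` -/
noncomputable def N (Q : ℂ) (t : ℂ × ℂ × ℂ) (p : ℂ × ℂ) : ℂ := v Q t + Q + X t p + Y t p

/-- the new state -/
noncomputable def step (Q : ℂ) (t : ℂ × ℂ × ℂ) (p : ℂ × ℂ) : ℂ × ℂ :=
  (v Q t * X t p / N Q t p, v Q t * Y t p / N Q t p)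

/-- the comparison matrix of one block (hubs equal against hubs different) -/
noncomputable def K (Q : ℂ) (t : ℂ × ℂ × ℂ) (p : ℂ × ℂ) : Matrix (Fin 2) (Fin 2) ℂ :=
  !![1 + X t p * Y t p / N Q t p, t.1 * t.2.1 / N Q t p;
    v Q t / N Q t p ^ 2 * (X t p * Y t p * (Q - v Q t * (X t p * Y t p) / N Q t p)),
    v Q t / N Q t p ^ 2 * (t.1 * t.2.1 * (v Q t + Q - v Q t * (X t p * Y t p) / N Q t p))]

/-- the matrix of the other two directions of one block -/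
noncomputable def Dm (Q : ℂ) (t : ℂ × ℂ × ℂ) (p : ℂ × ℂ) : Matrix (Fin 2) (Fin 2) ℂ :=
  !![t.1 * (v Q t - (step Q t p).1) / N Q t p, -(t.2.1 * (step Q t p).1) / N Q t p;
    -(t.1 * (step Q t p).2) / N Q t p, t.2.1 * (v Q t - (step Q t p).2) / N Q t p]

/-- the state after a list of blocks (the last block acts first) -/
noncomputable def orb (Q : ℂ) (L : List (ℂ × ℂ × ℂ)) (p : ℂ × ℂ) : ℂ × ℂ := L.foldr (step Q) p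

/-- the growth factor -/
noncomputable def lam (Q : ℂ) : List (ℂ × ℂ × ℂ) → ℂ × ℂ → ℂ
  | [], _ => 1
  | t :: L, p => N Q t (orb Q L p) / v Q t * lam Q L p

/-- the comparison matrix of a list of blocks -/
noncomputable def KK (Q : ℂ) : List (ℂ × ℂ × ℂ) → ℂ × ℂ → Matrix (Fin 2) (Fin 2) ℂ
  | [], _ => 1
  | t :: L, p => K Q t (orb Q L p) * KK Q L p

/-- the matrix of the other two directions of a list of blocks -/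
noncomputable def DD (Q : ℂ) : List (ℂ × ℂ × ℂ) → ℂ × ℂ → Matrix (Fin 2) (Fin 2) ℂ
  | [], _ => 1
  | t :: L, p => Dm Q t (orb Q L p) * DD Q L p

/-- an admissible block -/
def Adm (η : ℝ) (t : ℂ × ℂ × ℂ) : Prop :=
  η * (1 + ‖t.2.2‖) ≤ ‖t.2.2 - 1‖ ∧ η * (1 + ‖t.1‖ + ‖t.2.1‖) ≤ ‖t.1 + t.2.1 - 2‖ ∧
    ‖t.1 * t.2.1‖ ≤ 1 + ‖t.1‖ + ‖t.2.1‖ ∧
    (t.1 = 1 ∨ t.2.1 = 1 ∨ ‖t.1 * t.2.1 - 1‖ ≤ (1 - η) * ‖t.1 + t.2.1 - 2‖)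

/-- the state is near `0` -/
def Near (κ : ℝ) (Q : ℂ) (p : ℂ × ℂ) : Prop := ‖p.1‖ ≤ κ * ‖Q‖ ∧ ‖p.2‖ ≤ κ * ‖Q‖

/-- **All local estimates**: the states in the ball of radius `κ ‖Q‖`, all other constants `C`. -/
structure Good (η κ C : ℝ) (Q : ℂ) : Prop where
  pos : 0 < ‖Q‖
  κ_pos : 0 < κ
  one_le : 1 ≤ C
  κ_le : κ ≤ C
  small : 16 * C * ‖Q‖ ≤ 1
  v_ne : ∀ t, Adm η t → v Q t ≠ 0
  v_le : ∀ t, Adm η t → ‖v Q t‖ ≤ C * ‖Q‖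
  N_ne : ∀ t p, Adm η t → Near κ Q p → N Q t p ≠ 0
  lam_ge : ∀ t p, Adm η t → Near κ Q p →
    (1 + ‖t.2.2‖) * (1 + ‖t.1‖ + ‖t.2.1‖) ≤ C * ‖Q‖ * ‖N Q t p / v Q t‖
  near : ∀ t p, Adm η t → Near κ Q p → Near κ Q (step Q t p)
  lip : ∀ t p q, Adm η t → Near κ Q p → Near κ Q q → dist (step Q t p) (step Q t q) ≤ dist p q / 2
  /-- blocks without `σ₃` -/
  stepA : ∀ t p, Adm η t → Near κ Q p → t.2.1 = 1 →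
    ‖(step Q t p).1 - v Q t‖ ≤ C * ‖Q‖ * ‖v Q t‖ ∧ ‖(step Q t p).2‖ ≤ C * ‖Q‖ * ‖p.2‖
  KA : ∀ t p, Adm η t → Near κ Q p → t.2.1 = 1 →
    ‖K Q t p 0 0 - (1 + p.2)‖ ≤ C * ‖Q‖ * ‖p.2‖ ∧ ‖K Q t p 1 0‖ ≤ C * ‖Q‖ ^ 2 * ‖p.2‖
  /-- blocks without `σ₁` -/
  stepB : ∀ t p, Adm η t → Near κ Q p → t.1 = 1 →
    ‖(step Q t p).2 - v Q t‖ ≤ C * ‖Q‖ * ‖v Q t‖ ∧ ‖(step Q t p).1‖ ≤ C * ‖Q‖ * ‖p.1‖
  KB : ∀ t p, Adm η t → Near κ Q p → t.1 = 1 →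
    ‖K Q t p 0 0 - (1 + p.1)‖ ≤ C * ‖Q‖ * ‖p.1‖ ∧ ‖K Q t p 1 0‖ ≤ C * ‖Q‖ ^ 2 * ‖p.1‖
  /-- all blocks -/
  K01 : ∀ t p, Adm η t → Near κ Q p → ‖K Q t p 0 1‖ ≤ C
  K10 : ∀ t p, Adm η t → Near κ Q p → ‖K Q t p 1 0‖ ≤ C * ‖Q‖ ^ 2
  K11 : ∀ t p, Adm η t → Near κ Q p → ‖K Q t p 1 1‖ ≤ C * ‖Q‖ ^ 2
  Dm_le : ∀ t p, Adm η t → Near κ Q p → ∀ i j, ‖Dm Q t p i j‖ ≤ C * ‖Q‖
  /-- double blocks -/
  KD : ∀ t p, Adm η t → Near κ Q p → t.1 ≠ 1 → t.2.1 ≠ 1 → ‖K Q t p 0 0‖ ≤ 1 - C⁻¹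

/-- **Module U5_LOC**: the local estimates hold for small `Q`. -/
def St_Loc : Prop := ∀ η : ℝ, 0 < η → η ≤ 1 → ∃ κ C Q₀ : ℝ, 0 < Q₀ ∧
  ∀ Q : ℂ, 0 < ‖Q‖ → ‖Q‖ < Q₀ → Good η κ C Q

/-- **Module U5_PROD**: the traces of the products. -/
def St_Prod : Prop := ∀ (η κ C : ℝ) (Q : ℂ), Good η κ C Q → ∀ L : List (ℂ × ℂ × ℂ), L ≠ [] →
  (∀ t ∈ L, Adm η t) → ∃ p, Near κ Q p ∧ orb Q L p = p ∧
    (L.map (T3 Q)).prod.trace = lam Q L p * (1 + (DD Q L p).trace) ∧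
    (L.map (T2 Q)).prod.trace = lam Q L p * (KK Q L p).trace ∧
    ‖(DD Q L p).trace‖ ≤ 2 * (2 * C * ‖Q‖) ^ L.length

open Classical in
/-- the contribution of a pair `s t` of consecutive blocks (`t` acts first) at which the kind changes -/
noncomputable def turn (C : ℝ) (Q : ℂ) (s t : ℂ × ℂ × ℂ) : ℝ :=
  if (t.2.1 = 1 ∧ s.1 = 1) ∨ (t.1 = 1 ∧ s.2.1 = 1) then (v Q t).re + C * ‖Q‖ * ‖v Q t‖ else 0

open Classical in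
/-- the contribution of a double block -/
noncomputable def dbl (c : ℝ) (s : ℂ × ℂ × ℂ) : ℝ := if s.1 ≠ 1 ∧ s.2.1 ≠ 1 then -c else 0

/-- the exponent of the comparison of the two traces -/
noncomputable def cost (C c : ℝ) (Q : ℂ) (L : List (ℂ × ℂ × ℂ)) : ℝ :=
  ((L.zip (L.rotate 1)).map fun q => turn C Q q.1 q.2 + dbl c q.1).sum

/-- **Module U5_COST** -/
def St_Cost : Prop := ∀ η κ C : ℝ, 0 < η → ∃ C' c Q₁ : ℝ, 0 < Q₁ ∧ 1 ≤ C' ∧ 0 < c ∧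
  ∀ Q : ℂ, ‖Q‖ < Q₁ → Good η κ C Q → ∀ L : List (ℂ × ℂ × ℂ), L ≠ [] → (∀ t ∈ L, Adm η t) →
  ∀ p, Near κ Q p → orb Q L p = p →
    ‖(KK Q L p).trace‖ ≤ Real.exp (cost C' c Q L) * (1 + C' * ‖Q‖ ^ 2)

/-! ### the topological side -/

/-- the value of a Laurent polynomial -/
noncomputable def ev (A : ℂˣ) (f : ℤ[T;T⁻¹]) : ℂ :=
  LaurentPolynomial.eval₂ (Int.castRingHom ℂ) A f

/-- the weights of the syllables -/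
noncomputable def wts (q : ℂ) (t : ℤ × ℤ × ℤ) : ℂ × ℂ × ℂ := (q ^ t.1, q ^ t.2.1, q ^ t.2.2)

/-- **Module U5_TOP** -/
def St_Top : Prop := ∀ (β : List (ℤ × ℤ × ℤ)) (o : Tip 3 (0 + (word β).length) → Bool),
  (closure β).IsOrientation o → ∃ e : ℤ, ∀ A : ℂˣ, (A : ℂ) ^ 2 + (A : ℂ)⁻¹ ^ 2 ≠ 0 →
    ‖(A : ℂ) ^ 2 + (A : ℂ)⁻¹ ^ 2‖ * ‖ev A ((closure β).normalized o)‖ =
      ‖(A : ℂ)‖ ^ e * ‖EE (((A : ℂ) ^ 2 + (A : ℂ)⁻¹ ^ 2) ^ 2) (β.map (wts (-(A : ℂ)⁻¹ ^ 4)))‖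

/-- **Module U5_DEG**: a bound for the growth of a Laurent polynomial at infinity bounds it in terms of
the sum of its coefficients; and the same at zero. -/
def St_Deg : Prop := ∀ (f : ℤ[T;T⁻¹]) (d : ℤ) (M : ℝ),
  ((∀ A : ℂˣ, 2 ≤ ‖(A : ℂ)‖ → ‖ev A f‖ ≤ M * ‖(A : ℂ)‖ ^ d) →
    ∀ A : ℂˣ, 1 ≤ ‖(A : ℂ)‖ → ‖ev A f‖ ≤ SPT.coeffSum f * ‖(A : ℂ)‖ ^ d) ∧
  ((∀ A : ℂˣ, ‖(A : ℂ)‖ ≤ 1 / 2 → ‖ev A f‖ ≤ M * ‖(A : ℂ)‖ ^ d) →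
    ∀ A : ℂˣ, ‖(A : ℂ)‖ ≤ 1 → ‖ev A f‖ ≤ SPT.coeffSum f * ‖(A : ℂ)‖ ^ d)

end Pool.Agent.FB.U5
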