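import Mathlib
import Pool.Agent.FB.U5.Defs

/-!
# FB/U5: closed 4-braids, an absolute constant: the theorem and the combinatorial modules
-/

set_option autoImplicit false

open Matrix LaurentPolynomial Pool.RU

namespace Pool.Agent.FB.U5

/-- the consecutive pairs of the cyclic word -/
def pairs (β : List (ℤ × ℤ × ℤ)) : List ((ℤ × ℤ × ℤ) × (ℤ × ℤ × ℤ)) := β.zip (β.rotate 1)

/-- one of the blocks `s`, `t` is without `σ₁` and the other one is without `σ₃` -/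
def IsTurn (s t : ℤ × ℤ × ℤ) : Prop := (t.2.1 = 0 ∧ s.1 = 0) ∨ (t.1 = 0 ∧ s.2.1 = 0)

instance (s t : ℤ × ℤ × ℤ) : Decidable (IsTurn s t) := by unfold IsTurn; infer_instance

/-- the exponents of `σ₂` at the turns -/
def TB (β : List (ℤ × ℤ × ℤ)) : List ℤ :=
  ((pairs β).filter fun q => IsTurn q.1 q.2).map fun q => q.2.2.2

/-- **Module U5_TURNS**: a word without double blocks in which `σ₁` and `σ₃` occur has at least three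
turns, or it is a word in `σ₁, σ₂` followed by a word in `σ₂, σ₃`. -/
def St_Turns : Prop := ∀ β : List (ℤ × ℤ × ℤ), (∀ t ∈ β, ¬ (t.1 = 0 ∧ t.2.1 = 0)) →
  (∀ t ∈ β, t.1 = 0 ∨ t.2.1 = 0) → (∃ t ∈ β, t.1 ≠ 0) → (∃ t ∈ β, t.2.1 ≠ 0) →
  3 ≤ (TB β).length ∨ ∃ s t P R, β ~r s :: P ++ t :: R ∧ (∀ u ∈ s :: P, u.2.1 = 0) ∧
    (∀ u ∈ t :: R, u.1 = 0) ∧ (TB β).Perm [s.2.2, t.2.2]

/-- the block with exponents multiplied by `ε` -/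
def sc (ε : ℤ) (t : ℤ × ℤ × ℤ) : ℤ × ℤ × ℤ := (ε * t.1, ε * t.2.1, ε * t.2.2)

/-- the exponent of growth -/
def top (β : List (ℤ × ℤ × ℤ)) : ℤ := (β.map fun t => max 0 t.2.2 + max 0 (max t.1 t.2.1)).sum

/-- **Module U5_SUM**: a value of the bracket bounds the coefficient sum from below. -/
def St_Sum : Prop := ∀ (β : List (ℤ × ℤ × ℤ)) (o : Tip 3 (0 + (word β).length) → Bool),
  (closure β).IsOrientation o → ∀ ε : ℤ, (ε = 1 ∨ ε = -1) →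
  (∀ t ∈ β, ¬ (0 < ε * t.1 ∧ 0 < ε * t.2.1)) → ∀ u : ℂ, 1 ≤ ‖u‖ → 2 - u - u⁻¹ ≠ 0 →
    ‖EE (2 - u - u⁻¹) ((β.map (sc ε)).map (wts u))‖ ≤
      SPT.coeffSum ((closure β).normalized o) * ‖u‖ ^ (top (β.map (sc ε)) + 2) *
        Real.sqrt ‖2 - u - u⁻¹‖

/-- `β = σ₂^b₁ σ₁^a₁ σ₃^c₁ ⋯ σ₂^b_m σ₁^a_m σ₃^c_m` with `|b_i| ≥ N`, and `|a_i|`, `|c_i|` at least `N` or
zero, not both zero; `σ₁` and `σ₃` occur; no `i` with `a_i, c_i > 0`, or no `i` with `a_i, c_i < 0`; and if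
the closed word is `X Y` with `X` a word in `σ₁, σ₂` and `Y` a word in `σ₂, σ₃`, then the exponents of the
first syllables `σ₂^b` of `X` and `σ₂^b'` of `Y` have the same sign. -/
def LongWord3 (N : ℤ) (β : List (ℤ × ℤ × ℤ)) : Prop :=
  (∀ t ∈ β, N ≤ |t.2.2| ∧ (t.1 = 0 ∨ N ≤ |t.1|) ∧ (t.2.1 = 0 ∨ N ≤ |t.2.1|) ∧
    ¬ (t.1 = 0 ∧ t.2.1 = 0)) ∧
  (∃ t ∈ β, t.1 ≠ 0) ∧ (∃ t ∈ β, t.2.1 ≠ 0) ∧
  ((∀ t ∈ β, ¬ (0 < t.1 ∧ 0 < t.2.1)) ∨ ∀ t ∈ β, ¬ (t.1 < 0 ∧ t.2.1 < 0)) ∧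
  ∀ s t P R, β ~r s :: P ++ t :: R → (∀ u ∈ s :: P, u.2.1 = 0) → (∀ u ∈ t :: R, u.1 = 0) →
    0 < s.2.2 * t.2.2

/-- **closed 4-braids, an absolute constant**: if all syllables of a word with `m` syllables `σ₂^b` have
length at least `N ≥ N₀`, then the sum of the absolute values of the coefficients is at least
`(N / N₀) ^ (2 m - 1)`. -/
def St_FourBraids3 : Prop := ∃ N₀ : ℕ, 0 < N₀ ∧ ∀ N : ℕ, N₀ ≤ N → ∀ β : List (ℤ × ℤ × ℤ),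
  LongWord3 N β → ∀ o, (closure β).IsOrientation o →
    (N : ℤ) ^ (2 * β.length - 1) ≤
      (N₀ : ℤ) ^ (2 * β.length - 1) * SPT.coeffSum ((closure β).normalized o)

end Pool.Agent.FB.U5
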