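import Pool.Agent.FB.U5.Defs2

/-!
# FB/U5/POINT: the two points of evaluation, the turns
-/

set_option autoImplicit false

open Matrix

namespace Pool.Agent.FB.U5

theorem q_approx (ζ : ℂ) (h : ‖ζ‖ ≤ 1) :
    ‖2 - Complex.exp ζ - (Complex.exp ζ)⁻¹ + ζ ^ 2‖ ≤ 1 / 9 * ‖ζ‖ ^ 4 := by
  have h1 := Complex.exp_bound h (show 0 < 4 by norm_num)
  have h2 := Complex.exp_bound (x := -ζ) (by rwa [norm_neg]) (show 0 < 4 by norm_num)
  rw [norm_neg] at h2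
  have e : 2 - Complex.exp ζ - (Complex.exp ζ)⁻¹ + ζ ^ 2 =
      -((Complex.exp ζ - ∑ m ∈ Finset.range 4, ζ ^ m / m.factorial) +
        (Complex.exp (-ζ) - ∑ m ∈ Finset.range 4, (-ζ) ^ m / m.factorial)) := by
    rw [Complex.exp_neg]
    simp only [Finset.sum_range_succ, Finset.sum_range_zero, Nat.factorial]
    push_cast
    ring
  rw [e, norm_neg]
  refine (norm_add_le _ _).trans ?_
  have h3 : ((Nat.succ 4 : ℕ) : ℝ) * ((Nat.factorial 4 : ℕ) * (4 : ℕ) : ℝ)⁻¹ ≤ 1 / 18 := by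
    norm_num [Nat.factorial]
  have h4 : 0 ≤ ‖ζ‖ ^ 4 := by positivity
  have h5 : ‖ζ‖ ^ 4 * (((Nat.succ 4 : ℕ) : ℝ) * ((Nat.factorial 4 : ℕ) * (4 : ℕ) : ℝ)⁻¹) ≤
      ‖ζ‖ ^ 4 * (1 / 18) := by gcongr
  linarith

/-- the complex point -/
theorem point1 (ρ : ℝ) (h0 : 0 < ρ) (h1 : ρ ≤ 1 / 20) :
    ∃ u : ℂ, ‖u‖ = Real.exp ρ ∧ 4 * ρ ^ 2 ≤ ‖2 - u - u⁻¹‖ ∧ ‖2 - u - u⁻¹‖ ≤ 6 * ρ ^ 2 ∧
      59 / 100 * ‖2 - u - u⁻¹‖ ≤ (2 - u - u⁻¹).re ∧ (2 - u - u⁻¹).re ≤ 61 / 100 * ‖2 - u - u⁻¹‖ := by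
  set ζ : ℂ := ⟨ρ, 2 * ρ⟩ with hζ
  have n2 : ‖ζ‖ ^ 2 = 5 * ρ ^ 2 := by
    rw [← Complex.normSq_eq_norm_sq, Complex.normSq_apply, hζ]
    ring
  have n1 : ‖ζ‖ ≤ 1 := by
    have : ‖ζ‖ ^ 2 ≤ 1 ^ 2 := by rw [n2]; nlinarith
    exact (pow_le_pow_iff_left₀ (norm_nonneg _) (by norm_num) (by norm_num : (2 : ℕ) ≠ 0)).1 this
  have n4 : ‖ζ‖ ^ 4 = 25 * ρ ^ 4 := by
    have : ‖ζ‖ ^ 4 = (‖ζ‖ ^ 2) ^ 2 := by ring
    rw [this, n2]
    ring
  have ha := q_approx ζ n1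
  rw [n4] at ha
  refine ⟨Complex.exp ζ, ?_, ?_⟩
  · rw [Complex.norm_exp]
  set Q := 2 - Complex.exp ζ - (Complex.exp ζ)⁻¹ with hQ
  have hsm : 1 / 9 * (25 * ρ ^ 4) ≤ 1 / 100 * ρ ^ 2 := by
    have e4 : ρ ^ 4 = ρ ^ 2 * ρ ^ 2 := by ring
    have e5 : ρ ^ 2 ≤ 1 / 400 := by nlinarith
    have e6 : ρ ^ 2 * ρ ^ 2 ≤ 1 / 400 * ρ ^ 2 := by gcongr
    have e7 := sq_nonneg ρ
    rw [e4]
    linarith
  have hb : ‖Q + ζ ^ 2‖ ≤ 1 / 100 * ρ ^ 2 := ha.trans hsm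
  have hz2 : ‖ζ ^ 2‖ = 5 * ρ ^ 2 := by rw [norm_pow, n2]
  have hre2 : (ζ ^ 2).re = -3 * ρ ^ 2 := by
    rw [hζ, sq, Complex.mul_re]
    ring
  have u1 : ‖Q‖ ≤ 5 * ρ ^ 2 + 1 / 100 * ρ ^ 2 := by
    calc ‖Q‖ = ‖(Q + ζ ^ 2) - ζ ^ 2‖ := by ring_nf
      _ ≤ ‖Q + ζ ^ 2‖ + ‖ζ ^ 2‖ := norm_sub_le _ _
      _ ≤ _ := by rw [hz2]; linarith
  have u2 : 5 * ρ ^ 2 - 1 / 100 * ρ ^ 2 ≤ ‖Q‖ := by
    have : ‖ζ ^ 2‖ ≤ ‖Q + ζ ^ 2‖ + ‖Q‖ := by
      calc ‖ζ ^ 2‖ = ‖(Q + ζ ^ 2) - Q‖ := by ring_nf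
        _ ≤ _ := norm_sub_le _ _
    rw [hz2] at this
    linarith
  have u3 : |Q.re - 3 * ρ ^ 2| ≤ 1 / 100 * ρ ^ 2 := by
    have := Complex.abs_re_le_norm (Q + ζ ^ 2)
    rw [Complex.add_re, hre2] at this
    have e : Q.re + -3 * ρ ^ 2 = Q.re - 3 * ρ ^ 2 := by ring
    rw [e] at this
    exact this.trans hb
  obtain ⟨u4, u5⟩ := abs_le.1 u3
  have hp : 0 < ρ ^ 2 := by positivity
  refine ⟨by linarith, by linarith, by linarith, by linarith⟩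

/-- the real point -/
theorem point2 (ρ : ℝ) (h0 : 0 < ρ) (h1 : ρ ≤ 1 / 20) :
    ∃ (R q : ℝ), R = Real.exp ρ ∧ 2 - (R : ℂ) - (R : ℂ)⁻¹ = -(q : ℂ) ∧ 1 / 2 * ρ ^ 2 ≤ q ∧
      q ≤ 2 * ρ ^ 2 := by
  refine ⟨Real.exp ρ, -(2 - Real.exp ρ - (Real.exp ρ)⁻¹), rfl, by push_cast; ring, ?_⟩
  have n1 : ‖(ρ : ℂ)‖ = ρ := by rw [Complex.norm_real, Real.norm_of_nonneg h0.le]
  have ha := q_approx (ρ : ℂ) (by rw [n1]; linarith)
  rw [n1] at ha
  have e : 2 - Complex.exp (ρ : ℂ) - (Complex.exp (ρ : ℂ))⁻¹ + (ρ : ℂ) ^ 2 =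
      ((2 - Real.exp ρ - (Real.exp ρ)⁻¹ + ρ ^ 2 : ℝ) : ℂ) := by
    push_cast
    ring
  rw [e, Complex.norm_real, Real.norm_eq_abs] at ha
  have hsm : 1 / 9 * ρ ^ 4 ≤ 1 / 2 * ρ ^ 2 := by
    have e4 : ρ ^ 4 = ρ ^ 2 * ρ ^ 2 := by ring
    have e5 : ρ ^ 2 ≤ 1 / 400 := by nlinarith
    have e6 : ρ ^ 2 * ρ ^ 2 ≤ 1 / 400 * ρ ^ 2 := by gcongr
    have e7 := sq_nonneg ρ
    rw [e4]
    linarith
  obtain ⟨u4, u5⟩ := abs_le.1 (ha.trans hsm)
  constructor <;> nlinarith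

/-! ### the turns -/

/-- the contribution of a turn with weight `z` -/
noncomputable def gt (C : ℝ) (Q z : ℂ) : ℝ := (Q / (z - 1)).re + C * ‖Q‖ * ‖Q / (z - 1)‖

theorem norm_sub_large {z : ℂ} (hz : 100 ≤ ‖z‖) : 99 / 100 * ‖z‖ ≤ ‖z - 1‖ := by
  have := norm_sub_norm_le z 1
  rw [norm_one] at this
  linarith

theorem norm_sub_small {z : ℂ} (hz : ‖z‖ ≤ 1 / 100) : 99 / 100 ≤ ‖z - 1‖ := by
  have := norm_sub_norm_le 1 z
  rw [norm_one, norm_sub_rev] at this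
  linarith

theorem gt_large {C : ℝ} {Q z : ℂ} (hs : C * ‖Q‖ ≤ 1 / 200) (hz : 100 ≤ ‖z‖) :
    gt C Q z ≤ 11 / 10 * ‖Q‖ * ‖z‖⁻¹ := by
  have h1 := norm_sub_large hz
  have hz0 : 0 < ‖z‖ := by linarith
  have h2 : ‖Q / (z - 1)‖ ≤ 100 / 99 * ‖Q‖ * ‖z‖⁻¹ := by
    rw [norm_div, div_le_iff₀ (by linarith)]
    calc ‖Q‖ = 100 / 99 * ‖Q‖ * ‖z‖⁻¹ * (99 / 100 * ‖z‖) := by field_simp
      _ ≤ _ := by gcongr
  have h3 := (abs_le.1 (Complex.abs_re_le_norm (Q / (z - 1)))).2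
  have h4 : C * ‖Q‖ * ‖Q / (z - 1)‖ ≤ 1 / 200 * ‖Q / (z - 1)‖ := by gcongr
  have h5 : 0 ≤ ‖Q‖ * ‖z‖⁻¹ := by positivity
  unfold gt
  nlinarith

theorem gt_small {C : ℝ} {Q z : ℂ} (hs : C * ‖Q‖ ≤ 1 / 200) (hQ : 59 / 100 * ‖Q‖ ≤ Q.re)
    (hz : ‖z‖ ≤ 1 / 100) : gt C Q z ≤ -(56 / 100) * ‖Q‖ := by
  have h1 := norm_sub_small hz
  have hz1 : z - 1 ≠ 0 := norm_pos_iff.1 (by linarith)
  have e : Q / (z - 1) = -Q + Q * z / (z - 1) := by
    field_simp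
    ring
  have h2 : ‖Q * z / (z - 1)‖ ≤ 1 / 99 * ‖Q‖ := by
    rw [norm_div, norm_mul, div_le_iff₀ (by linarith)]
    have h3 : ‖Q‖ * ‖z‖ ≤ ‖Q‖ * (1 / 100) := by gcongr
    have h4 : 1 / 99 * ‖Q‖ * (99 / 100) ≤ 1 / 99 * ‖Q‖ * ‖z - 1‖ := by gcongr
    linarith
  have h3 := (abs_le.1 (Complex.abs_re_le_norm (Q * z / (z - 1)))).2
  have h4 : ‖Q / (z - 1)‖ ≤ 2 * ‖Q‖ := by
    rw [e]
    have := norm_add_le (-Q) (Q * z / (z - 1))
    rw [norm_neg] at this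
    have := norm_nonneg Q
    linarith
  have h5 : C * ‖Q‖ * ‖Q / (z - 1)‖ ≤ 1 / 200 * ‖Q / (z - 1)‖ := by gcongr
  have h6 : (Q / (z - 1)).re = -Q.re + (Q * z / (z - 1)).re := by
    rw [e, Complex.add_re, Complex.neg_re]
  have := norm_nonneg Q
  unfold gt
  rw [h6]
  linarith

theorem gt_real_small {C q z : ℝ} (hq : 0 < q) (hs : C * q ≤ 1 / 200) (hz0 : 0 < z)
    (hz : z ≤ 1 / 100) : gt C (-(q : ℂ)) (z : ℂ) ≤ 11 / 10 * q := by
  have n1 : ‖-(q : ℂ)‖ = q := by rw [norm_neg, Complex.norm_real, Real.norm_of_nonneg hq.le]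
  have h1 : 99 / 100 ≤ ‖(z : ℂ) - 1‖ :=
    norm_sub_small (by rwa [Complex.norm_real, Real.norm_of_nonneg hz0.le])
  have h2 : ‖-(q : ℂ) / ((z : ℂ) - 1)‖ ≤ 100 / 99 * q := by
    rw [norm_div, n1, div_le_iff₀ (by linarith)]
    nlinarith
  have h3 := (abs_le.1 (Complex.abs_re_le_norm (-(q : ℂ) / ((z : ℂ) - 1)))).2
  have h4 : C * q * ‖-(q : ℂ) / ((z : ℂ) - 1)‖ ≤ 1 / 200 * ‖-(q : ℂ) / ((z : ℂ) - 1)‖ := by gcongr
  unfold gt
  rw [n1]
  linarith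

theorem gt_real_large {C q z : ℝ} (hq : 0 < q) (hs : C * q ≤ 1 / 200)
    (hz : 100 ≤ z) : gt C (-(q : ℂ)) (z : ℂ) ≤ -(9 / 10) * q * z⁻¹ := by
  have n1 : ‖-(q : ℂ)‖ = q := by rw [norm_neg, Complex.norm_real, Real.norm_of_nonneg hq.le]
  have hz1 : 0 < z - 1 := by linarith
  have e : -(q : ℂ) / ((z : ℂ) - 1) = ((-(q / (z - 1)) : ℝ) : ℂ) := by
    push_cast
    ring
  have h0 : 0 < q / (z - 1) := by positivity
  have h1 : ‖-(q : ℂ) / ((z : ℂ) - 1)‖ = q / (z - 1) := by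
    rw [e, Complex.norm_real, norm_neg, Real.norm_of_nonneg h0.le]
  have h2 : (-(q : ℂ) / ((z : ℂ) - 1)).re = -(q / (z - 1)) := by
    rw [e, Complex.ofReal_re]
  have h3 : q * z⁻¹ ≤ q / (z - 1) := by
    rw [← div_eq_mul_inv]
    gcongr
    linarith
  have h4 : C * q * (q / (z - 1)) ≤ 1 / 200 * (q / (z - 1)) := by gcongr
  have h5 : 0 ≤ q * z⁻¹ := by positivity
  unfold gt
  rw [n1, h1, h2]
  nlinarith

/-- **one of the two points is good**: `R₁ = R ^ 2` -/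
theorem turns_two {C₁ C₂ : ℝ} {Q u : ℂ} {q R : ℝ} {N : ℤ} (hN : 0 < N) (hq : 0 < q)
    (hs1 : C₁ * ‖Q‖ ≤ 1 / 200) (hs2 : C₂ * q ≤ 1 / 200) (hQ : 59 / 100 * ‖Q‖ ≤ Q.re)
    (hR : 1 ≤ R) (hu : ‖u‖ = R ^ 2) (hRN : 100 ≤ R ^ N) (l : List ℤ) (hl : ∀ b ∈ l, N ≤ |b|) :
    (l.map fun b => gt C₁ Q (u ^ b)).sum ≤ 0 ∨
      (l.map fun b => gt C₂ (-(q : ℂ)) ((R : ℂ) ^ b)).sum ≤ 0 := by
  have hR0 : 0 < R := by linarith
  -- the two bounds
  have key : ∃ n s : ℝ, 0 ≤ n ∧ 0 ≤ s ∧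
      (l.map fun b => gt C₁ Q (u ^ b)).sum ≤ ‖Q‖ * (-(1 / 2) * n + 11 / 1000 * s) ∧
      (l.map fun b => gt C₂ (-(q : ℂ)) ((R : ℂ) ^ b)).sum ≤ q * (11 / 10 * n - 9 / 10 * s) := by
    induction l with
    | nil => exact ⟨0, 0, le_rfl, le_rfl, by simp, by simp⟩
    | cons b l ih =>
      obtain ⟨n, s, hn, hs, i1, i2⟩ := ih fun b hb => hl b (List.mem_cons_of_mem _ hb)
      have hb := hl b List.mem_cons_self
      have nb : ‖u ^ b‖ = R ^ (2 * b) := by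
        rw [norm_zpow, hu, ← zpow_natCast, ← _root_.zpow_mul]
        norm_num
      have cb : (R : ℂ) ^ b = ((R ^ b : ℝ) : ℂ) := by push_cast; rfl
      rcases lt_or_ge b 0 with hb0 | hb0
      · -- negative
        rw [abs_of_neg hb0] at hb
        have r1 : R ^ b ≤ 1 / 100 := by
          have h1 : R ^ b ≤ R ^ (-N) := zpow_le_zpow_right₀ hR (by linarith)
          rw [_root_.zpow_neg] at h1
          refine h1.trans ?_
          rw [one_div]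
          exact inv_anti₀ (by norm_num) hRN
        have r0 : 0 < R ^ b := zpow_pos hR0 _
        have r2 : R ^ (2 * b) ≤ 1 / 100 := by
          have h1 : R ^ (2 * b) = R ^ b * R ^ b := by
            rw [← zpow_add₀ hR0.ne']
            ring_nf
          rw [h1]
          nlinarith
        refine ⟨n + 1, s, by linarith, hs, ?_, ?_⟩
        · rw [List.map_cons, List.sum_cons]
          have h2 := gt_small hs1 hQ (z := u ^ b) (by rw [nb]; exact r2)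
          have h3 := norm_nonneg Q
          nlinarith
        · rw [List.map_cons, List.sum_cons]
          have h2 := gt_real_small hq hs2 r0 r1
          rw [← cb] at h2
          nlinarith
      · -- positive
        rw [abs_of_nonneg hb0] at hb
        have r1 : 100 ≤ R ^ b := hRN.trans (zpow_le_zpow_right₀ hR hb)
        have r0 : 0 < R ^ b := zpow_pos hR0 _
        have e2 : R ^ (2 * b) = R ^ b * R ^ b := by
          rw [← zpow_add₀ hR0.ne']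
          ring_nf
        have r2 : 100 ≤ R ^ (2 * b) := by
          rw [e2]
          nlinarith
        have r3 : (R ^ (2 * b))⁻¹ ≤ 1 / 100 * (R ^ b)⁻¹ := by
          rw [e2, mul_inv]
          gcongr
          rw [one_div]
          exact inv_anti₀ (by norm_num) r1
        refine ⟨n, s + (R ^ b)⁻¹, hn, by positivity, ?_, ?_⟩
        · rw [List.map_cons, List.sum_cons]
          have h2 := gt_large hs1 (z := u ^ b) (by rw [nb]; exact r2)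
          rw [nb] at h2
          have h3 := norm_nonneg Q
          have h4 : 11 / 10 * ‖Q‖ * (R ^ (2 * b))⁻¹ ≤ 11 / 10 * ‖Q‖ * (1 / 100 * (R ^ b)⁻¹) := by
            gcongr
          nlinarith
        · rw [List.map_cons, List.sum_cons]
          have h2 := gt_real_large hq hs2 r1
          rw [← cb] at h2
          nlinarith
  obtain ⟨n, s, hn, hs, i1, i2⟩ := key
  have hQ0 := norm_nonneg Q
  rcases le_or_gt (11 / 1000 * s) (1 / 2 * n) with h | h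
  · left
    refine i1.trans ?_
    nlinarith
  · right
    refine i2.trans ?_
    nlinarith

/-- the sum over the turns at the complex point, if the small weights are not less than the large
ones and at least two -/
theorem turns_one {C₁ : ℝ} {Q u : ℂ} {R : ℝ} {N : ℤ} (hN : 0 < N)
    (hs1 : C₁ * ‖Q‖ ≤ 1 / 200) (hQ : 59 / 100 * ‖Q‖ ≤ Q.re)
    (hR : 1 ≤ R) (hu : ‖u‖ = R) (hRN : 100 ≤ R ^ N) (l : List ℤ) (hl : ∀ b ∈ l, N ≤ |b|)
    (h2 : 2 ≤ l.countP (· < 0)) (h3 : l.countP (0 < ·) ≤ l.countP (· < 0)) :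
    (l.map fun b => gt C₁ Q (u ^ b)).sum ≤ -(109 / 100) * ‖Q‖ := by
  have hR0 : 0 < R := by linarith
  have hQ0 := norm_nonneg Q
  have key : (l.map fun b => gt C₁ Q (u ^ b)).sum ≤
      ‖Q‖ * (-(56 / 100) * (l.countP (· < 0) : ℕ) + 11 / 1000 * (l.countP (0 < ·) : ℕ)) := by
    clear h2 h3
    induction l with
    | nil => simp
    | cons b l ih =>
      have i1 := ih fun b hb => hl b (List.mem_cons_of_mem _ hb)
      have hb := hl b List.mem_cons_self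
      have nb : ‖u ^ b‖ = R ^ b := by rw [norm_zpow, hu]
      rcases lt_or_ge b 0 with hb0 | hb0
      · rw [abs_of_neg hb0] at hb
        have r1 : R ^ b ≤ 1 / 100 := by
          have h1 : R ^ b ≤ R ^ (-N) := zpow_le_zpow_right₀ hR (by linarith)
          rw [_root_.zpow_neg] at h1
          refine h1.trans ?_
          rw [one_div]
          exact inv_anti₀ (by norm_num) hRN
        have c1 : (b :: l).countP (· < 0) = l.countP (· < 0) + 1 :=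
          List.countP_cons_of_pos (by simpa using hb0)
        have c2 : (b :: l).countP (0 < ·) = l.countP (0 < ·) :=
          List.countP_cons_of_neg (by simpa using hb0.le)
        rw [List.map_cons, List.sum_cons, c1, c2]
        have h2 := gt_small hs1 hQ (z := u ^ b) (by rw [nb]; exact r1)
        push_cast
        nlinarith
      · rw [abs_of_nonneg hb0] at hb
        have hb1 : 0 < b := by linarith
        have r1 : 100 ≤ R ^ b := hRN.trans (zpow_le_zpow_right₀ hR hb)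
        have c1 : (b :: l).countP (· < 0) = l.countP (· < 0) :=
          List.countP_cons_of_neg (by simpa using hb0)
        have c2 : (b :: l).countP (0 < ·) = l.countP (0 < ·) + 1 :=
          List.countP_cons_of_pos (by simpa using hb1)
        rw [List.map_cons, List.sum_cons, c1, c2]
        have h2 := gt_large hs1 (z := u ^ b) (by rw [nb]; exact r1)
        have h4 : 11 / 10 * ‖Q‖ * ‖u ^ b‖⁻¹ ≤ 11 / 10 * ‖Q‖ * (1 / 100) := by
          rw [nb]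
          gcongr
          rw [one_div]
          exact inv_anti₀ (by norm_num) r1
        push_cast
        nlinarith
  refine key.trans ?_
  have e2 : (2 : ℝ) ≤ (l.countP (· < 0) : ℕ) := by exact_mod_cast h2
  have e3 : ((l.countP (0 < ·) : ℕ) : ℝ) ≤ (l.countP (· < 0) : ℕ) := by exact_mod_cast h3
  nlinarith

end Pool.Agent.FB.U5
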