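import Pool.Agent.FB.U5.COST
import Pool.Agent.FB.U5.POINT

/-!
# FB/U5/ASM: lower bound of the bracket, admissible words, the cost of a word
-/

set_option autoImplicit false

open Matrix

namespace Pool.Agent.FB.U5

/-- the product of the sizes -/
noncomputable def gg (L : List (ℂ × ℂ × ℂ)) : ℝ :=
  (L.map fun t => (1 + ‖t.2.2‖) * (1 + ‖t.1‖ + ‖t.2.1‖)).prod

theorem gg_nonneg (L : List (ℂ × ℂ × ℂ)) : 0 ≤ gg L := by
  unfold gg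
  apply List.prod_nonneg
  intro a ha
  obtain ⟨t, -, rfl⟩ := List.mem_map.1 ha
  positivity

theorem lam_ge' {η κ C : ℝ} {Q : ℂ} (G : Good η κ C Q) {p : ℂ × ℂ} (hp : Near κ Q p) :
    ∀ L : List (ℂ × ℂ × ℂ), (∀ t ∈ L, Adm η t) → gg L ≤ (C * ‖Q‖) ^ L.length * ‖lam Q L p‖
  | [], _ => by simp [gg, lam]
  | t :: L, h => by
      have hL : ∀ u ∈ L, Adm η u := fun u hu => h u (List.mem_cons_of_mem _ hu)
      have h1 := lam_ge' G hp L hL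
      have h2 := orb_near' G hp L hL
      have h3 := G.lam_ge t _ (h t List.mem_cons_self) h2
      have hg := gg_nonneg L
      have hC : 0 < C := lt_of_lt_of_le one_pos G.one_le
      have e1 : gg (t :: L) = (1 + ‖t.2.2‖) * (1 + ‖t.1‖ + ‖t.2.1‖) * gg L := by
        unfold gg
        rw [List.map_cons, List.prod_cons]
      rw [e1, lam, norm_mul, List.length_cons, pow_succ']
      calc (1 + ‖t.2.2‖) * (1 + ‖t.1‖ + ‖t.2.1‖) * gg L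
          ≤ (C * ‖Q‖ * ‖N Q t (orb Q L p) / v Q t‖) * ((C * ‖Q‖) ^ L.length * ‖lam Q L p‖) := by
            apply mul_le_mul h3 h1 hg
            positivity
        _ = _ := by ring

/-- **the bracket from below** -/
theorem EE_lower (hP : St_Prod) {η κ C : ℝ} {Q : ℂ} (G : Good η κ C Q) {L : List (ℂ × ℂ × ℂ)}
    (hL : L ≠ []) (hA : ∀ t ∈ L, Adm η t) {r : ℝ}
    (hr : ∀ p, Near κ Q p → orb Q L p = p → ‖(KK Q L p).trace‖ ≤ r) :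
    (‖1 - Q‖ - r - 4 * (2 * C * ‖Q‖) ^ L.length) * gg L ≤
      (‖EE Q L‖ + 2) * (C * ‖Q‖) ^ L.length := by
  obtain ⟨p, hp, ho, e3, e2, hD⟩ := hP η κ C Q G L hL hA
  have hk := hr p hp ho
  have hl := lam_ge' G hp L hA
  have hC : 1 ≤ C := G.one_le
  have hsm := G.small
  have hpos := G.pos
  have hQ : ‖Q‖ ≤ 1 / 16 := by nlinarith
  have hg := gg_nonneg L
  have hc : 0 ≤ (C * ‖Q‖) ^ L.length := by positivity
  have e : EE Q L = -(lam Q L p * ((1 - Q) * (1 + (DD Q L p).trace) - (KK Q L p).trace)) +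
      (Q ^ 2 - 3 * Q + 1) := by
    rw [EE, e2, e3]
    ring
  have a1 : ‖Q ^ 2 - 3 * Q + 1‖ ≤ 2 := by
    calc ‖Q ^ 2 - 3 * Q + 1‖ ≤ ‖Q ^ 2 - 3 * Q‖ + ‖(1 : ℂ)‖ := norm_add_le _ _
      _ ≤ (‖Q ^ 2‖ + ‖3 * Q‖) + ‖(1 : ℂ)‖ := by gcongr; exact norm_sub_le _ _
      _ ≤ _ := by
        rw [norm_pow, norm_mul, norm_one]
        norm_num
        nlinarith
  have a2 : ‖(1 : ℂ) - Q‖ ≤ 2 := by
    refine (norm_sub_le _ _).trans ?_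
    rw [norm_one]
    linarith
  have a3 : ‖1 - Q‖ - r - 4 * (2 * C * ‖Q‖) ^ L.length ≤
      ‖(1 - Q) * (1 + (DD Q L p).trace) - (KK Q L p).trace‖ := by
    have h1 : ‖(1 - Q) * (DD Q L p).trace‖ ≤ 2 * (2 * (2 * C * ‖Q‖) ^ L.length) := by
      rw [norm_mul]
      gcongr
    have h2 : ‖1 - Q‖ ≤ ‖(1 - Q) * (1 + (DD Q L p).trace) - (KK Q L p).trace‖ +
        (‖(KK Q L p).trace‖ + ‖(1 - Q) * (DD Q L p).trace‖) := by
      calc ‖1 - Q‖ = ‖((1 - Q) * (1 + (DD Q L p).trace) - (KK Q L p).trace) +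
            ((KK Q L p).trace - (1 - Q) * (DD Q L p).trace)‖ := by ring_nf
        _ ≤ _ := (norm_add_le _ _).trans (by gcongr; exact norm_sub_le _ _)
    linarith
  have a4 : ‖lam Q L p‖ * ‖(1 - Q) * (1 + (DD Q L p).trace) - (KK Q L p).trace‖ ≤
      ‖EE Q L‖ + 2 := by
    rw [← norm_mul]
    calc ‖lam Q L p * ((1 - Q) * (1 + (DD Q L p).trace) - (KK Q L p).trace)‖
        = ‖(Q ^ 2 - 3 * Q + 1) - EE Q L‖ := by
          rw [e]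
          ring_nf
      _ ≤ ‖Q ^ 2 - 3 * Q + 1‖ + ‖EE Q L‖ := norm_sub_le _ _
      _ ≤ _ := by linarith
  rcases le_or_gt (‖1 - Q‖ - r - 4 * (2 * C * ‖Q‖) ^ L.length) 0 with h0 | h0
  · have h1 : (‖1 - Q‖ - r - 4 * (2 * C * ‖Q‖) ^ L.length) * gg L ≤ 0 :=
      mul_nonpos_of_nonpos_of_nonneg h0 hg
    have h2 : 0 ≤ (‖EE Q L‖ + 2) * (C * ‖Q‖) ^ L.length := by positivity
    linarith
  · calc (‖1 - Q‖ - r - 4 * (2 * C * ‖Q‖) ^ L.length) * gg L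
        ≤ ‖(1 - Q) * (1 + (DD Q L p).trace) - (KK Q L p).trace‖ *
          ((C * ‖Q‖) ^ L.length * ‖lam Q L p‖) := mul_le_mul a3 hl hg (norm_nonneg _)
      _ = (‖lam Q L p‖ * ‖(1 - Q) * (1 + (DD Q L p).trace) - (KK Q L p).trace‖) *
          (C * ‖Q‖) ^ L.length := by ring
      _ ≤ _ := by gcongr

/-! ### admissible words -/

/-- the words: all syllables have length at least `N`, no block with two positive exponents -/
def Ok (N : ℤ) (β : List (ℤ × ℤ × ℤ)) : Prop :=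
  ∀ t ∈ β, N ≤ |t.2.2| ∧ (t.1 = 0 ∨ N ≤ |t.1|) ∧ (t.2.1 = 0 ∨ N ≤ |t.2.1|) ∧
    ¬ (t.1 = 0 ∧ t.2.1 = 0) ∧ ¬ (0 < t.1 ∧ 0 < t.2.1)

theorem zpow_cases {u : ℂ} {N : ℤ} (h1 : 1 ≤ ‖u‖) (hN : 100 ≤ ‖u‖ ^ N) (a : ℤ) (ha : N ≤ |a|)  :
    (0 < a → 100 ≤ ‖u ^ a‖) ∧ (a < 0 → ‖u ^ a‖ ≤ 1 / 100) := by
  rw [norm_zpow]
  constructor
  · intro h
    rw [abs_of_pos h] at ha
    exact hN.trans (zpow_le_zpow_right₀ h1 ha)
  · intro h
    rw [abs_of_neg h] at ha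
    have h2 : ‖u‖ ^ a ≤ ‖u‖ ^ (-N) := zpow_le_zpow_right₀ h1 (by linarith)
    rw [_root_.zpow_neg] at h2
    refine h2.trans ?_
    rw [one_div]
    exact inv_anti₀ (by norm_num) hN

theorem adm_x {x : ℂ} (h : 100 ≤ ‖x‖ ∨ ‖x‖ ≤ 1 / 100) : 2 / 5 * (2 + ‖x‖) ≤ ‖x - 1‖ := by
  rcases h with h | h
  · have := norm_sub_large h
    linarith
  · have := norm_sub_small h
    linarith

theorem adm_z {x : ℂ} (h : 100 ≤ ‖x‖ ∨ ‖x‖ ≤ 1 / 100) : 2 / 5 * (1 + ‖x‖) ≤ ‖x - 1‖ := by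
  have := adm_x h
  linarith

/-- `x` large, `y` small -/
theorem adm_pm {x y : ℂ} (hx : 100 ≤ ‖x‖) (hy : ‖y‖ ≤ 1 / 100) :
    2 / 5 * (1 + ‖x‖ + ‖y‖) ≤ ‖x + y - 2‖ ∧ ‖x * y‖ ≤ 1 + ‖x‖ + ‖y‖ ∧
      ‖x * y - 1‖ ≤ (1 - 2 / 5) * ‖x + y - 2‖ := by
  have h1 : ‖x‖ - ‖y‖ - 2 ≤ ‖x + y - 2‖ := by
    have e1 : ‖x‖ ≤ ‖x + y - 2‖ + (‖(2 : ℂ)‖ + ‖y‖) := by
      calc ‖x‖ = ‖(x + y - 2) + (2 - y)‖ := by ring_nf
        _ ≤ _ := (norm_add_le _ _).trans (by gcongr; exact norm_sub_le _ _)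
    have e2 : ‖(2 : ℂ)‖ = 2 := by norm_num
    linarith
  have h2 : ‖x * y‖ ≤ 1 / 100 * ‖x‖ := by
    rw [norm_mul, mul_comm]
    gcongr
  have h3 : ‖x * y - 1‖ ≤ 1 / 100 * ‖x‖ + 1 := by
    refine (norm_sub_le _ _).trans ?_
    rw [norm_one]
    linarith
  have h4 := norm_nonneg y
  refine ⟨by linarith, by linarith, by linarith⟩

/-- `x` and `y` small -/
theorem adm_mm {x y : ℂ} (hx : ‖x‖ ≤ 1 / 100) (hy : ‖y‖ ≤ 1 / 100) :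
    2 / 5 * (1 + ‖x‖ + ‖y‖) ≤ ‖x + y - 2‖ ∧ ‖x * y‖ ≤ 1 + ‖x‖ + ‖y‖ ∧
      ‖x * y - 1‖ ≤ (1 - 2 / 5) * ‖x + y - 2‖ := by
  have h1 : 2 - ‖x‖ - ‖y‖ ≤ ‖x + y - 2‖ := by
    have e1 : ‖(2 : ℂ)‖ ≤ ‖x + y - 2‖ + (‖x‖ + ‖y‖) := by
      calc ‖(2 : ℂ)‖ = ‖(x + y) - (x + y - 2)‖ := by ring_nf
        _ ≤ ‖x + y‖ + ‖x + y - 2‖ := norm_sub_le _ _
        _ ≤ (‖x‖ + ‖y‖) + ‖x + y - 2‖ := by gcongr; exact norm_add_le _ _
        _ = _ := by ring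
    have e2 : ‖(2 : ℂ)‖ = 2 := by norm_num
    linarith
  have h0 := norm_nonneg x
  have h4 := norm_nonneg y
  have h2 : ‖x * y‖ ≤ 1 / 100 * (1 / 100) := by
    rw [norm_mul]
    gcongr
  have h3 : ‖x * y - 1‖ ≤ 1 / 100 * (1 / 100) + 1 := by
    refine (norm_sub_le _ _).trans ?_
    rw [norm_one]
    linarith
  refine ⟨by linarith, by linarith, by linarith⟩

theorem adm_wts {u : ℂ} {N : ℤ} (hN0 : 0 < N) (h1 : 1 ≤ ‖u‖) (hN : 100 ≤ ‖u‖ ^ N)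
    {t : ℤ × ℤ × ℤ} (ht : N ≤ |t.2.2| ∧ (t.1 = 0 ∨ N ≤ |t.1|) ∧ (t.2.1 = 0 ∨ N ≤ |t.2.1|) ∧
    ¬ (t.1 = 0 ∧ t.2.1 = 0) ∧ ¬ (0 < t.1 ∧ 0 < t.2.1)) : Adm (2 / 5) (wts u t) := by
  obtain ⟨t1, t2, t3, t4, t5⟩ := ht
  have cz := zpow_cases h1 hN t.2.2 t1
  have big : ∀ a : ℤ, N ≤ |a| → 100 ≤ ‖u ^ a‖ ∨ ‖u ^ a‖ ≤ 1 / 100 := by
    intro a ha
    rcases lt_trichotomy a 0 with h | h | h
    · exact Or.inr ((zpow_cases h1 hN a ha).2 h)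
    · rw [h, abs_zero] at ha
      omega
    · exact Or.inl ((zpow_cases h1 hN a ha).1 h)
  refine ⟨adm_z (big _ t1), ?_⟩
  show 2 / 5 * (1 + ‖u ^ t.1‖ + ‖u ^ t.2.1‖) ≤ ‖u ^ t.1 + u ^ t.2.1 - 2‖ ∧
    ‖u ^ t.1 * u ^ t.2.1‖ ≤ 1 + ‖u ^ t.1‖ + ‖u ^ t.2.1‖ ∧
    (u ^ t.1 = 1 ∨ u ^ t.2.1 = 1 ∨
      ‖u ^ t.1 * u ^ t.2.1 - 1‖ ≤ (1 - 2 / 5) * ‖u ^ t.1 + u ^ t.2.1 - 2‖)
  rcases t2 with t2 | t2
  · -- no `σ₁`
    rcases t3 with t3 | t3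
    · exact absurd ⟨t2, t3⟩ t4
    · have h := adm_x (big _ t3)
      have h0 := norm_nonneg (u ^ t.2.1)
      rw [t2, zpow_zero]
      have e : (1 : ℂ) + u ^ t.2.1 - 2 = u ^ t.2.1 - 1 := by ring
      rw [e, norm_one, one_mul]
      exact ⟨by linarith, by linarith, Or.inl rfl⟩
  · rcases t3 with t3 | t3
    · have h := adm_x (big _ t2)
      have h0 := norm_nonneg (u ^ t.1)
      rw [t3, zpow_zero]
      have e : u ^ t.1 + (1 : ℂ) - 2 = u ^ t.1 - 1 := by ring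
      rw [e, norm_one, mul_one]
      exact ⟨by linarith, by linarith, Or.inr (Or.inl rfl)⟩
    · rcases lt_trichotomy t.1 0 with a | a | a
      · have x1 := (zpow_cases h1 hN _ t2).2 a
        rcases lt_trichotomy t.2.1 0 with b | b | b
        · have y1 := (zpow_cases h1 hN _ t3).2 b
          obtain ⟨k1, k2, k3⟩ := adm_mm x1 y1
          exact ⟨k1, k2, Or.inr (Or.inr k3)⟩
        · rw [b, abs_zero] at t3
          omega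
        · have y1 := (zpow_cases h1 hN _ t3).1 b
          obtain ⟨k1, k2, k3⟩ := adm_pm y1 x1
          rw [mul_comm (u ^ t.1), add_comm (u ^ t.1)]
          exact ⟨by linarith, by linarith, Or.inr (Or.inr k3)⟩
      · rw [a, abs_zero] at t2
        omega
      · have x1 := (zpow_cases h1 hN _ t2).1 a
        rcases lt_trichotomy t.2.1 0 with b | b | b
        · have y1 := (zpow_cases h1 hN _ t3).2 b
          obtain ⟨k1, k2, k3⟩ := adm_pm x1 y1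
          exact ⟨k1, k2, Or.inr (Or.inr k3)⟩
        · rw [b, abs_zero] at t3
          omega
        · exact absurd ⟨a, b⟩ t5

/-! ### the cost of a word -/

theorem zpow_eq_one {u : ℂ} (h : 1 < ‖u‖) (a : ℤ) : u ^ a = 1 ↔ a = 0 := by
  constructor
  · intro h1
    have h2 : ‖u‖ ^ a = 1 := by rw [← norm_zpow, h1, norm_one]
    by_contra h3
    rcases lt_or_gt_of_ne h3 with h4 | h4
    · have := zpow_lt_one_of_neg₀ h h4
      linarith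
    · have := one_lt_zpow₀ h h4
      linarith
  · rintro rfl
    exact zpow_zero _

theorem turn_wts (C : ℝ) (Q u : ℂ) (h : 1 < ‖u‖) (s t : ℤ × ℤ × ℤ) :
    turn C Q (wts u s) (wts u t) = if IsTurn s t then gt C Q (u ^ t.2.2) else 0 := by
  unfold turn IsTurn
  have e : ((wts u t).2.1 = 1 ∧ (wts u s).1 = 1 ∨ (wts u t).1 = 1 ∧ (wts u s).2.1 = 1) ↔
      (t.2.1 = 0 ∧ s.1 = 0 ∨ t.1 = 0 ∧ s.2.1 = 0) := by
    show (u ^ t.2.1 = 1 ∧ u ^ s.1 = 1 ∨ u ^ t.1 = 1 ∧ u ^ s.2.1 = 1) ↔ _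
    rw [zpow_eq_one h, zpow_eq_one h, zpow_eq_one h, zpow_eq_one h]
  by_cases h1 : (t.2.1 = 0 ∧ s.1 = 0 ∨ t.1 = 0 ∧ s.2.1 = 0)
  · rw [if_pos (e.2 h1), if_pos h1]
    rfl
  · rw [if_neg (fun h2 => h1 (e.1 h2)), if_neg h1]

theorem dbl_wts (c : ℝ) (u : ℂ) (h : 1 < ‖u‖) (s : ℤ × ℤ × ℤ) :
    dbl c (wts u s) = if s.1 ≠ 0 ∧ s.2.1 ≠ 0 then -c else 0 := by
  unfold dbl
  have e : ((wts u s).1 ≠ 1 ∧ (wts u s).2.1 ≠ 1) ↔ (s.1 ≠ 0 ∧ s.2.1 ≠ 0) := by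
    show (u ^ s.1 ≠ 1 ∧ u ^ s.2.1 ≠ 1) ↔ _
    rw [Ne, Ne, zpow_eq_one h, zpow_eq_one h]
  by_cases h1 : (s.1 ≠ 0 ∧ s.2.1 ≠ 0)
  · rw [if_pos (e.2 h1), if_pos h1]
  · rw [if_neg (fun h2 => h1 (e.1 h2)), if_neg h1]

theorem cost_pairs (C c : ℝ) (Q u : ℂ) (h : 1 < ‖u‖)
    (P : List ((ℤ × ℤ × ℤ) × (ℤ × ℤ × ℤ))) :
    (P.map fun q => turn C Q (wts u q.1) (wts u q.2) + dbl c (wts u q.1)).sum =
      (((P.filter fun q => IsTurn q.1 q.2).map fun q => q.2.2.2).map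
        fun b => gt C Q (u ^ b)).sum +
      ((P.map Prod.fst).map fun s => if s.1 ≠ 0 ∧ s.2.1 ≠ 0 then -c else 0).sum := by
  induction P with
  | nil => simp
  | cons q P ih =>
    rw [List.map_cons, List.sum_cons, ih, List.map_cons, List.map_cons, List.sum_cons, turn_wts C Q u h,
      dbl_wts c u h, List.filter_cons]
    by_cases h1 : IsTurn q.1 q.2
    · rw [if_pos h1, if_pos (decide_eq_true h1), List.map_cons, List.map_cons, List.sum_cons]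
      ring
    · rw [if_neg h1, if_neg (show ¬ (decide (IsTurn q.1 q.2) = true) from fun h2 =>
        h1 (of_decide_eq_true h2))]
      ring

theorem cost_word (C c : ℝ) (Q u : ℂ) (h : 1 < ‖u‖) (β : List (ℤ × ℤ × ℤ)) :
    cost C c Q (β.map (wts u)) = ((TB β).map fun b => gt C Q (u ^ b)).sum +
      (β.map fun s => if s.1 ≠ 0 ∧ s.2.1 ≠ 0 then -c else 0).sum := by
  have h1 := cost_pairs C c Q u h (pairs β)
  have e1 : (pairs β).map Prod.fst = β := by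
    unfold pairs
    exact List.map_fst_zip (by rw [List.length_rotate])
  rw [e1] at h1
  unfold TB
  rw [← h1]
  unfold cost pairs
  rw [← List.map_rotate, List.zip_map, List.map_map]
  rfl

end Pool.Agent.FB.U5
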