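import Pool.Agent.FB.U5.Defs

/-!
# FB/U5/COST: the comparison of the two traces
-/

set_option autoImplicit false

open Matrix

namespace Pool.Agent.FB.U5

/-- the weighted norm -/
noncomputable def nu (W : ℝ) (u : Fin 2 → ℂ) : ℝ := ‖u 0‖ + W * ‖u 1‖

theorem nu_nonneg {W : ℝ} (hW : 0 ≤ W) (u : Fin 2 → ℂ) : 0 ≤ nu W u := by
  unfold nu
  positivity

theorem nu_mul {W r : ℝ} (hW : 0 ≤ W) (M : Matrix (Fin 2) (Fin 2) ℂ)
    (h0 : ‖M 0 0‖ + W * ‖M 1 0‖ ≤ r) (h1 : ‖M 0 1‖ + W * ‖M 1 1‖ ≤ r * W) (u : Fin 2 → ℂ) :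
    nu W (M *ᵥ u) ≤ r * nu W u := by
  have e0 : (M *ᵥ u) 0 = M 0 0 * u 0 + M 0 1 * u 1 := by
    simp [Matrix.mulVec, dotProduct, Fin.sum_univ_two]
  have e1 : (M *ᵥ u) 1 = M 1 0 * u 0 + M 1 1 * u 1 := by
    simp [Matrix.mulVec, dotProduct, Fin.sum_univ_two]
  unfold nu
  rw [e0, e1]
  have a0 := norm_add_le (M 0 0 * u 0) (M 0 1 * u 1)
  have a1 := norm_add_le (M 1 0 * u 0) (M 1 1 * u 1)
  rw [norm_mul, norm_mul] at a0 a1
  have b1 := mul_le_mul_of_nonneg_left a1 hW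
  have c0 := mul_le_mul_of_nonneg_right h0 (norm_nonneg (u 0))
  have c1 := mul_le_mul_of_nonneg_right h1 (norm_nonneg (u 1))
  nlinarith

/-- the second column -/
theorem col1 {η κ C : ℝ} {Q : ℂ} (G : Good η κ C Q) {t : ℂ × ℂ × ℂ} (ht : Adm η t) {p : ℂ × ℂ}
    (hp : Near κ Q p) : ‖K Q t p 0 1‖ + 4 * C * ‖K Q t p 1 1‖ ≤ 1 / 2 * (4 * C) := by
  have h1 := G.K01 t p ht hp
  have h2 := G.K11 t p ht hp
  have h3 := G.small
  have h4 := G.one_le
  have h5 := G.pos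
  have h6 : 4 * C * ‖K Q t p 1 1‖ ≤ 4 * C * (C * ‖Q‖ ^ 2) := by gcongr
  have h7 : 4 * C * (C * ‖Q‖ ^ 2) ≤ C := by
    have h8 : 4 * C * (C * ‖Q‖ ^ 2) = (16 * C * ‖Q‖) * (C * ‖Q‖) / 4 := by ring
    have h9 : C * ‖Q‖ ≤ 1 := by nlinarith
    have h10 : (16 * C * ‖Q‖) * (C * ‖Q‖) ≤ 1 * 1 := by
      apply mul_le_mul h3 h9 (by positivity) (by norm_num)
    rw [h8]
    linarith
  linarith

/-- the first column of a single block with incoming component `b` -/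
theorem col0 {C : ℝ} {Q b k0 k1 : ℂ} (hC : 1 ≤ C) (hs : 16 * C * ‖Q‖ ≤ 1) (hb : ‖b‖ ≤ C * ‖Q‖)
    (h0 : ‖k0 - (1 + b)‖ ≤ C * ‖Q‖ * ‖b‖) (h1 : ‖k1‖ ≤ C * ‖Q‖ ^ 2 * ‖b‖) :
    ‖k0‖ + 4 * C * ‖k1‖ ≤ Real.exp (b.re + 5 * C * ‖Q‖ * ‖b‖) ∧
      1 / 2 ≤ Real.exp (b.re + 5 * C * ‖Q‖ * ‖b‖) ∧ b.re + 5 * C * ‖Q‖ * ‖b‖ ≤ 2 * ‖b‖ := by
  have hQ := norm_nonneg Q
  have hb0 := norm_nonneg b
  have hre : |b.re| ≤ ‖b‖ := Complex.abs_re_le_norm b
  obtain ⟨hr1, hr2⟩ := abs_le.1 hre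
  have hCQ : C * ‖Q‖ ≤ 1 / 16 := by linarith
  have hCQ0 : 0 ≤ C * ‖Q‖ := by positivity
  have hb1 : ‖b‖ ≤ 1 / 16 := hb.trans hCQ
  have n1 : ‖(1 : ℂ) + b‖ ≤ Real.exp (b.re + ‖b‖ ^ 2 / 2) := by
    have e1 : ‖(1 : ℂ) + b‖ ^ 2 = 1 + 2 * b.re + ‖b‖ ^ 2 := by
      rw [← Complex.normSq_eq_norm_sq, ← Complex.normSq_eq_norm_sq, Complex.normSq_apply,
        Complex.normSq_apply]
      simp
      ring
    have e2 : 2 * b.re + ‖b‖ ^ 2 + 1 ≤ Real.exp (2 * b.re + ‖b‖ ^ 2) := Real.add_one_le_exp _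
    have e3 : Real.exp (2 * b.re + ‖b‖ ^ 2) = Real.exp (b.re + ‖b‖ ^ 2 / 2) ^ 2 := by
      rw [← Real.exp_nat_mul]
      congr 1
      push_cast
      ring
    refine (pow_le_pow_iff_left₀ (norm_nonneg _) (Real.exp_pos _).le (by norm_num : (2 : ℕ) ≠ 0)).1 ?_
    rw [e1, ← e3]
    linarith
  have n2 : Real.exp (b.re + ‖b‖ ^ 2 / 2) ≤ Real.exp (b.re + C * ‖Q‖ * ‖b‖) := by
    apply Real.exp_le_exp.2
    have : ‖b‖ ^ 2 ≤ C * ‖Q‖ * ‖b‖ := by
      rw [sq]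
      gcongr
    nlinarith
  set E := Real.exp (b.re + C * ‖Q‖ * ‖b‖) with hE
  have hE1 : 1 / 2 ≤ E := by
    have h3 : (b.re + C * ‖Q‖ * ‖b‖) + 1 ≤ E := Real.add_one_le_exp _
    have h4 : 0 ≤ C * ‖Q‖ * ‖b‖ := by positivity
    linarith
  have n3 : ‖k0‖ ≤ E + C * ‖Q‖ * ‖b‖ := by
    have h3 : ‖k0‖ ≤ ‖(1 : ℂ) + b‖ + ‖k0 - (1 + b)‖ := by
      calc ‖k0‖ = ‖(1 + b) + (k0 - (1 + b))‖ := by ring_nf
        _ ≤ _ := norm_add_le _ _
    linarith
  have n4 : 4 * C * ‖k1‖ ≤ C * ‖Q‖ * ‖b‖ := by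
    have h3 : 4 * C * ‖k1‖ ≤ 4 * C * (C * ‖Q‖ ^ 2 * ‖b‖) := by gcongr
    have h4 : 4 * C * (C * ‖Q‖ ^ 2 * ‖b‖) = (4 * (C * ‖Q‖)) * (C * ‖Q‖ * ‖b‖) := by ring
    have h5 : (4 * (C * ‖Q‖)) * (C * ‖Q‖ * ‖b‖) ≤ 1 * (C * ‖Q‖ * ‖b‖) := by
      gcongr
      linarith
    linarith
  have n5 : E * Real.exp (4 * C * ‖Q‖ * ‖b‖) = Real.exp (b.re + 5 * C * ‖Q‖ * ‖b‖) := by
    rw [hE, ← Real.exp_add]
    congr 1
    ring
  have n6 : 1 + 4 * C * ‖Q‖ * ‖b‖ ≤ Real.exp (4 * C * ‖Q‖ * ‖b‖) := by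
    have := Real.add_one_le_exp (4 * C * ‖Q‖ * ‖b‖)
    linarith
  have hE0 : 0 ≤ E := by linarith
  have n7 : E * (1 + 4 * C * ‖Q‖ * ‖b‖) ≤ Real.exp (b.re + 5 * C * ‖Q‖ * ‖b‖) := by
    rw [← n5]
    gcongr
  have n8 : 2 * (C * ‖Q‖ * ‖b‖) ≤ E * (4 * C * ‖Q‖ * ‖b‖) := by
    have h3 : 0 ≤ C * ‖Q‖ * ‖b‖ := by positivity
    have h4 : 1 / 2 * (4 * C * ‖Q‖ * ‖b‖) ≤ E * (4 * C * ‖Q‖ * ‖b‖) := by
      gcongr
    linarith
  refine ⟨by linarith, ?_, ?_⟩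
  · have h3 := Real.add_one_le_exp (b.re + 5 * C * ‖Q‖ * ‖b‖)
    have h4 : 0 ≤ 5 * C * ‖Q‖ * ‖b‖ := by positivity
    linarith
  · have h3 : 5 * (C * ‖Q‖) * ‖b‖ ≤ 5 * (1 / 16) * ‖b‖ := by gcongr
    nlinarith

/-- the potential of the state `p` after the block `t` -/
noncomputable def pot (t : ℂ × ℂ × ℂ) (p : ℂ × ℂ) : ℝ :=
  open Classical in
  if t.2.1 = 1 then 4 * ‖p.2‖ else if t.1 = 1 then 4 * ‖p.1‖ else 4 * (‖p.1‖ + ‖p.2‖)

theorem pot_nonneg (t : ℂ × ℂ × ℂ) (p : ℂ × ℂ) : 0 ≤ pot t p := by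
  unfold pot
  split_ifs <;> positivity

theorem pot_le (t : ℂ × ℂ × ℂ) (p : ℂ × ℂ) : pot t p ≤ 4 * (‖p.1‖ + ‖p.2‖) := by
  unfold pot
  have h1 := norm_nonneg p.1
  have h2 := norm_nonneg p.2
  split_ifs <;> linarith

/-- `p` is a state after the block `t` -/
def Rel (C : ℝ) (Q : ℂ) (t : ℂ × ℂ × ℂ) (p : ℂ × ℂ) : Prop :=
  (t.2.1 = 1 → ‖p.1 - v Q t‖ ≤ C * ‖Q‖ * ‖v Q t‖) ∧
    (t.1 = 1 → ‖p.2 - v Q t‖ ≤ C * ‖Q‖ * ‖v Q t‖)

theorem rel_step {η κ C : ℝ} {Q : ℂ} (G : Good η κ C Q) {t : ℂ × ℂ × ℂ} (ht : Adm η t) {p : ℂ × ℂ}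
    (hp : Near κ Q p) : Rel C Q t (step Q t p) :=
  ⟨fun h => (G.stepA t p ht hp h).1, fun h => (G.stepB t p ht hp h).1⟩

theorem not_both {η : ℝ} (hη : 0 < η) {t : ℂ × ℂ × ℂ} (ht : Adm η t) : ¬ (t.1 = 1 ∧ t.2.1 = 1) := by
  rintro ⟨h1, h2⟩
  have h3 := ht.2.1
  rw [h1, h2] at h3
  norm_num at h3
  linarith

/-- incoming component at a turn -/
theorem turn_in {C : ℝ} {Q b w : ℂ} (hC : 1 ≤ C) (hs : 16 * C * ‖Q‖ ≤ 1)
    (h : ‖b - w‖ ≤ C * ‖Q‖ * ‖w‖) :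
    b.re + 5 * C * ‖Q‖ * ‖b‖ ≤ w.re + 11 * C * ‖Q‖ * ‖w‖ ∧ ‖b‖ ≤ 2 * ‖w‖ := by
  have hw := norm_nonneg w
  have hCQ : C * ‖Q‖ ≤ 1 / 16 := by linarith
  have hCQ0 : 0 ≤ C * ‖Q‖ := by positivity
  have h1 : ‖b‖ ≤ ‖w‖ + ‖b - w‖ := by
    calc ‖b‖ = ‖w + (b - w)‖ := by ring_nf
      _ ≤ _ := norm_add_le _ _
  have h2 : C * ‖Q‖ * ‖w‖ ≤ 1 / 16 * ‖w‖ := by gcongr
  have h3 : ‖b‖ ≤ 2 * ‖w‖ := by linarith
  have h4 : b.re - w.re ≤ ‖b - w‖ := by
    have := (abs_le.1 (Complex.abs_re_le_norm (b - w))).2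
    simpa using this
  have h5 : 5 * (C * ‖Q‖) * ‖b‖ ≤ 5 * (C * ‖Q‖) * (2 * ‖w‖) := by gcongr
  refine ⟨?_, h3⟩
  nlinarith

/-- **one block** -/
theorem one_block {η κ C : ℝ} {Q : ℂ} (hη : 0 < η) (G : Good η κ C Q) (hQ : 32 * C ^ 2 * ‖Q‖ ≤ 1)
    {s t : ℂ × ℂ × ℂ} (hs : Adm η s) (ht : Adm η t) {p : ℂ × ℂ} (hp : Near κ Q p)
    (hr : Rel C Q t p) (u : Fin 2 → ℂ) :
    nu (4 * C) (K Q s p *ᵥ u) ≤ Real.exp (turn (20 * C ^ 2) Q s t + dbl (1 / (4 * C)) s + pot t p -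
      pot s (step Q s p)) * nu (4 * C) u := by
  have hC := G.one_le
  have hsm := G.small
  have hpos := G.pos
  have hC0 : 0 < C := by linarith
  have hW : (0 : ℝ) ≤ 4 * C := by linarith
  have hc1 := col1 G hs hp
  have hs' := G.near s p hs hp
  have hκ := G.κ_le
  have hp1 : ‖p.1‖ ≤ C * ‖Q‖ := hp.1.trans (by gcongr)
  have hp2 : ‖p.2‖ ≤ C * ‖Q‖ := hp.2.trans (by gcongr)
  have hCQ : C * ‖Q‖ ≤ 1 / 16 := by linarith
  have hCC : C ≤ C ^ 2 := by nlinarith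
  -- the conclusion from a bound of the first column
  have key : ∀ g : ℝ, ‖K Q s p 0 0‖ + 4 * C * ‖K Q s p 1 0‖ ≤ Real.exp g → 1 / 2 ≤ Real.exp g →
      g ≤ turn (20 * C ^ 2) Q s t + dbl (1 / (4 * C)) s + pot t p - pot s (step Q s p) →
      nu (4 * C) (K Q s p *ᵥ u) ≤ Real.exp (turn (20 * C ^ 2) Q s t + dbl (1 / (4 * C)) s +
        pot t p - pot s (step Q s p)) * nu (4 * C) u := by
    intro g h1 h2 h3
    refine (nu_mul hW _ h1 (hc1.trans ?_) u).trans ?_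
    · gcongr
    · have := nu_nonneg hW u
      gcongr
  have hpt := pot_nonneg t p
  by_cases sA : s.2.1 = 1
  · -- `s` is without `σ₃`
    have sB : s.1 ≠ 1 := fun h => not_both hη hs ⟨h, sA⟩
    obtain ⟨k1, k2⟩ := G.KA s p hs hp sA
    obtain ⟨c1, c2, c3⟩ := col0 hC hsm hp2 k1 k2
    have e1 := (G.stepA s p hs hp sA).2
    have hd : dbl (1 / (4 * C)) s = 0 := by
      unfold dbl
      rw [if_neg (by tauto)]
    have hps : pot s (step Q s p) = 4 * ‖(step Q s p).2‖ := by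
      unfold pot
      rw [if_pos sA]
    refine key _ c1 c2 ?_
    rw [hd, hps]
    by_cases tB : t.1 = 1
    · have ht' : turn (20 * C ^ 2) Q s t = (v Q t).re + 20 * C ^ 2 * ‖Q‖ * ‖v Q t‖ := by
        unfold turn
        rw [if_pos (Or.inr ⟨tB, sA⟩)]
      obtain ⟨f1, f2⟩ := turn_in hC hsm (hr.2 tB)
      have f3 : 4 * ‖(step Q s p).2‖ ≤ 8 * C * ‖Q‖ * ‖v Q t‖ := by
        have : C * ‖Q‖ * ‖p.2‖ ≤ C * ‖Q‖ * (2 * ‖v Q t‖) := by gcongr
        linarith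
      have f4 : 19 * C * ‖Q‖ * ‖v Q t‖ ≤ 20 * C ^ 2 * ‖Q‖ * ‖v Q t‖ := by
        gcongr
        nlinarith
      rw [ht']
      linarith
    · have ht' : turn (20 * C ^ 2) Q s t = 0 := by
        unfold turn
        rw [if_neg (by tauto)]
      have f3 : 4 * ‖p.2‖ ≤ pot t p := by
        unfold pot
        have := norm_nonneg p.1
        split_ifs
        · exact le_rfl
        · linarith
      have f4 : C * ‖Q‖ * ‖p.2‖ ≤ 1 / 16 * ‖p.2‖ := by gcongr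
      have f5 := norm_nonneg p.2
      rw [ht']
      linarith
  · by_cases sB : s.1 = 1
    · -- `s` is without `σ₁`
      obtain ⟨k1, k2⟩ := G.KB s p hs hp sB
      obtain ⟨c1, c2, c3⟩ := col0 hC hsm hp1 k1 k2
      have e1 := (G.stepB s p hs hp sB).2
      have hd : dbl (1 / (4 * C)) s = 0 := by
        unfold dbl
        rw [if_neg (by tauto)]
      have hps : pot s (step Q s p) = 4 * ‖(step Q s p).1‖ := by
        unfold pot
        rw [if_neg sA, if_pos sB]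
      refine key _ c1 c2 ?_
      rw [hd, hps]
      by_cases tA : t.2.1 = 1
      · have ht' : turn (20 * C ^ 2) Q s t = (v Q t).re + 20 * C ^ 2 * ‖Q‖ * ‖v Q t‖ := by
          unfold turn
          rw [if_pos (Or.inl ⟨tA, sB⟩)]
        obtain ⟨f1, f2⟩ := turn_in hC hsm (hr.1 tA)
        have f3 : 4 * ‖(step Q s p).1‖ ≤ 8 * C * ‖Q‖ * ‖v Q t‖ := by
          have : C * ‖Q‖ * ‖p.1‖ ≤ C * ‖Q‖ * (2 * ‖v Q t‖) := by gcongr
          linarith
        have f4 : 19 * C * ‖Q‖ * ‖v Q t‖ ≤ 20 * C ^ 2 * ‖Q‖ * ‖v Q t‖ := by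
          gcongr
          nlinarith
        rw [ht']
        linarith
      · have ht' : turn (20 * C ^ 2) Q s t = 0 := by
          unfold turn
          rw [if_neg (by tauto)]
        have f3 : 4 * ‖p.1‖ ≤ pot t p := by
          unfold pot
          have := norm_nonneg p.2
          rw [if_neg tA]
          split_ifs
          · exact le_rfl
          · linarith
        have f4 : C * ‖Q‖ * ‖p.1‖ ≤ 1 / 16 * ‖p.1‖ := by gcongr
        have f5 := norm_nonneg p.1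
        rw [ht']
        linarith
    · -- double block
      have k1 := G.KD s p hs hp sB sA
      have k2 := G.K10 s p hs hp
      have hd : dbl (1 / (4 * C)) s = -(1 / (4 * C)) := by
        unfold dbl
        rw [if_pos ⟨sB, sA⟩]
      have ht' : turn (20 * C ^ 2) Q s t = 0 := by
        unfold turn
        rw [if_neg (by tauto)]
      have hps : pot s (step Q s p) ≤ 1 / (4 * C) := by
        have f1 := pot_le s (step Q s p)
        have f2 : ‖(step Q s p).1‖ ≤ C * ‖Q‖ := hs'.1.trans (by gcongr)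
        have f3 : ‖(step Q s p).2‖ ≤ C * ‖Q‖ := hs'.2.trans (by gcongr)
        have f4 : 8 * C * ‖Q‖ ≤ 1 / (4 * C) := by
          rw [le_div_iff₀ (by positivity)]
          nlinarith
        linarith
      have h4 : 4 * C * (C * ‖Q‖ ^ 2) ≤ C⁻¹ / 2 := by
        have f1 : C * (4 * C * (C * ‖Q‖ ^ 2)) = (4 * C ^ 2 * ‖Q‖) * (C * ‖Q‖) := by ring
        have f2 : (4 * C ^ 2 * ‖Q‖) * (C * ‖Q‖) ≤ (1 / 8) * (1 / 16) := by
          apply mul_le_mul (by linarith) hCQ (by positivity) (by norm_num)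
        have f3 : C⁻¹ / 2 = 1 / (2 * C) := by field_simp
        rw [f3, le_div_iff₀ (by positivity)]
        nlinarith
      have h5 : ‖K Q s p 0 0‖ + 4 * C * ‖K Q s p 1 0‖ ≤ 1 - C⁻¹ / 2 := by
        have : 4 * C * ‖K Q s p 1 0‖ ≤ 4 * C * (C * ‖Q‖ ^ 2) := by gcongr
        linarith
      have h6 : 1 - C⁻¹ / 2 ≤ Real.exp (-(C⁻¹ / 2)) := by
        have := Real.add_one_le_exp (-(C⁻¹ / 2))
        linarith
      have h7 : C⁻¹ ≤ 1 := inv_le_one_of_one_le₀ hC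
      refine key (-(C⁻¹ / 2)) (h5.trans h6) (by linarith) ?_
      rw [ht', hd]
      have h8 : C⁻¹ / 2 = 1 / (4 * C) + 1 / (4 * C) := by
        field_simp
        norm_num
      linarith

/-- the linear version of `cost` -/
noncomputable def lc (C c : ℝ) (Q : ℂ) : List (ℂ × ℂ × ℂ) → ℂ × ℂ × ℂ → ℝ
  | [], _ => 0
  | s :: L, t => turn C Q s (L.headD t) + dbl c s + lc C c Q L t

theorem lc_eq (C c : ℝ) (Q : ℂ) (t : ℂ × ℂ × ℂ) : ∀ L : List (ℂ × ℂ × ℂ),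
    ((L.zip (L.tail ++ [t])).map fun q => turn C Q q.1 q.2 + dbl c q.1).sum = lc C c Q L t := by
  intro L
  induction L with
  | nil => simp [lc]
  | cons s L ih =>
    cases L with
    | nil => simp [lc]
    | cons s' L =>
      have h1 : (s :: s' :: L).zip ((s :: s' :: L).tail ++ [t]) =
          (s, s') :: (s' :: L).zip ((s' :: L).tail ++ [t]) := by simp
      rw [h1, List.map_cons, List.sum_cons, ih]
      simp [lc]

theorem cost_eq (C c : ℝ) (Q : ℂ) (s : ℂ × ℂ × ℂ) (L : List (ℂ × ℂ × ℂ)) :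
    cost C c Q (s :: L) = lc C c Q (s :: L) s := by
  unfold cost
  rw [← lc_eq, List.rotate_cons_succ, List.rotate_zero]
  rfl

theorem orb_near' {η κ C : ℝ} {Q : ℂ} (G : Good η κ C Q) {p : ℂ × ℂ} (hp : Near κ Q p) :
    ∀ L : List (ℂ × ℂ × ℂ), (∀ t ∈ L, Adm η t) → Near κ Q (orb Q L p)
  | [], _ => by simpa [orb] using hp
  | t :: L, h => by
      have := orb_near' G hp L (fun u hu => h u (List.mem_cons_of_mem _ hu))
      exact G.near t _ (h t List.mem_cons_self) this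

theorem list_block {η κ C : ℝ} {Q : ℂ} (hη : 0 < η) (G : Good η κ C Q) (hQ : 32 * C ^ 2 * ‖Q‖ ≤ 1)
    {t : ℂ × ℂ × ℂ} (ht : Adm η t) {p : ℂ × ℂ} (hp : Near κ Q p) (hr : Rel C Q t p)
    (u : Fin 2 → ℂ) : ∀ L : List (ℂ × ℂ × ℂ), (∀ s ∈ L, Adm η s) →
    nu (4 * C) (KK Q L p *ᵥ u) ≤ Real.exp (lc (20 * C ^ 2) (1 / (4 * C)) Q L t + pot t p -
      pot (L.headD t) (orb Q L p)) * nu (4 * C) u ∧ Rel C Q (L.headD t) (orb Q L p) := by
  intro L
  induction L with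
  | nil =>
    intro _
    refine ⟨?_, hr⟩
    simp [KK, lc, orb]
  | cons s L ih =>
    intro h
    have h' : ∀ s ∈ L, Adm η s := fun x hx => h x (List.mem_cons_of_mem _ hx)
    obtain ⟨h1, h2⟩ := ih h'
    have hs := h s List.mem_cons_self
    have hn := orb_near' G hp L h'
    have hh : Adm η (L.headD t) := by
      cases L with
      | nil => exact ht
      | cons a L => exact h' a List.mem_cons_self
    have h3 := one_block hη G hQ hs hh hn h2 (KK Q L p *ᵥ u)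
    refine ⟨?_, rel_step G hs hn⟩
    have e1 : KK Q (s :: L) p *ᵥ u = K Q s (orb Q L p) *ᵥ (KK Q L p *ᵥ u) := by
      rw [Matrix.mulVec_mulVec]
      rfl
    rw [e1]
    refine h3.trans ?_
    refine (mul_le_mul_of_nonneg_left h1 (Real.exp_pos _).le).trans (le_of_eq ?_)
    rw [← mul_assoc, ← Real.exp_add]
    congr 2
    show _ = lc _ _ Q (s :: L) t + pot t p - pot s (step Q s (orb Q L p))
    have : lc (20 * C ^ 2) (1 / (4 * C)) Q (s :: L) t = turn (20 * C ^ 2) Q s (L.headD t) +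
      dbl (1 / (4 * C)) s + lc (20 * C ^ 2) (1 / (4 * C)) Q L t := rfl
    rw [this]
    ring

/-- **Module U5_COST** -/
theorem thm_Cost : St_Cost := by
  intro η κ C hη
  refine ⟨20 * (max C 1) ^ 2, 1 / (4 * (max C 1)), 1 / (32 * (max C 1) ^ 2), by positivity, ?_,
    by positivity, ?_⟩
  · have : (1 : ℝ) ≤ max C 1 := le_max_right _ _
    nlinarith
  intro Q hQ G L hL hA p hp ho
  have hC := G.one_le
  have hmax : max C 1 = C := max_eq_left hC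
  rw [hmax] at hQ ⊢
  have hC0 : 0 < C := by linarith
  have hQ' : 32 * C ^ 2 * ‖Q‖ ≤ 1 := by
    rw [lt_div_iff₀ (by positivity)] at hQ
    linarith
  have hsm := G.small
  have hpos := G.pos
  have hCQ : C * ‖Q‖ ≤ 1 / 16 := by linarith
  cases L with
  | nil => exact absurd rfl hL
  | cons s L =>
    have hs := hA s List.mem_cons_self
    have h' : ∀ x ∈ L, Adm η x := fun x hx => hA x (List.mem_cons_of_mem _ hx)
    have hn := orb_near' G hp L h'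
    have hp' : p = step Q s (orb Q L p) := by
      conv_lhs => rw [← ho]
      rfl
    have hr : Rel C Q s p := by
      rw [hp']
      exact rel_step G hs hn
    rw [cost_eq]
    set r := Real.exp (lc (20 * C ^ 2) (1 / (4 * C)) Q (s :: L) s) with hrdef
    have hr0 : 0 < r := Real.exp_pos _
    have b1 : ∀ u, nu (4 * C) (KK Q (s :: L) p *ᵥ u) ≤ r * nu (4 * C) u := by
      intro u
      have h1 := (list_block hη G hQ' hs hp hr u (s :: L) hA).1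
      have e1 : pot ((s :: L).headD s) (orb Q (s :: L) p) = pot s p := by
        rw [ho]
        rfl
      rw [e1] at h1
      have e2 : lc (20 * C ^ 2) (1 / (4 * C)) Q (s :: L) s + pot s p - pot s p =
        lc (20 * C ^ 2) (1 / (4 * C)) Q (s :: L) s := by ring
      rw [e2] at h1
      exact h1
    -- the exponent of the tail
    have hp1 : ‖p.1‖ ≤ C * ‖Q‖ := hp.1.trans (by have := G.κ_le; gcongr)
    have hp2 : ‖p.2‖ ≤ C * ‖Q‖ := hp.2.trans (by have := G.κ_le; gcongr)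
    have hpot : pot s p ≤ 1 / 2 := by
      have := pot_le s p
      linarith
    have hturn : -(1 / 16) ≤ turn (20 * C ^ 2) Q s (L.headD s) := by
      have hh : Adm η (L.headD s) := by
        cases L with
        | nil => exact hs
        | cons a L => exact h' a List.mem_cons_self
      have h1 := G.v_le _ hh
      have h2 := (abs_le.1 (Complex.abs_re_le_norm (v Q (L.headD s)))).1
      unfold turn
      split_ifs
      · have h3 : 0 ≤ 20 * C ^ 2 * ‖Q‖ * ‖v Q (L.headD s)‖ := by positivity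
        linarith
      · norm_num
    have hdbl : -(1 / 4) ≤ dbl (1 / (4 * C)) s := by
      unfold dbl
      split_ifs
      · have : 1 / (4 * C) ≤ 1 / 4 := by
          apply one_div_le_one_div_of_le (by norm_num)
          linarith
        linarith
      · norm_num
    have b2 : ∀ u, nu (4 * C) (KK Q L p *ᵥ u) ≤ 3 * r * nu (4 * C) u := by
      intro u
      have h1 := (list_block hη G hQ' hs hp hr u L h').1
      refine h1.trans ?_
      have h0 := nu_nonneg (show (0 : ℝ) ≤ 4 * C by linarith) u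
      have h2 : Real.exp (lc (20 * C ^ 2) (1 / (4 * C)) Q L s + pot s p -
          pot (L.headD s) (orb Q L p)) ≤ Real.exp 1 * r := by
        rw [hrdef, ← Real.exp_add]
        apply Real.exp_le_exp.2
        have e1 : lc (20 * C ^ 2) (1 / (4 * C)) Q (s :: L) s = turn (20 * C ^ 2) Q s (L.headD s) +
          dbl (1 / (4 * C)) s + lc (20 * C ^ 2) (1 / (4 * C)) Q L s := rfl
        rw [e1]
        have := pot_nonneg (L.headD s) (orb Q L p)
        linarith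
      have h3 : Real.exp 1 ≤ 3 := by
        have := Real.exp_one_lt_d9
        linarith
      have h4 : Real.exp 1 * r ≤ 3 * r := by gcongr
      exact mul_le_mul_of_nonneg_right (h2.trans h4) h0
    -- the entries
    have c1 : ‖KK Q (s :: L) p 0 0‖ ≤ r := by
      have h1 := b1 ![1, 0]
      have e0 : nu (4 * C) ![1, 0] = 1 := by
        unfold nu
        simp
      have e1 : (KK Q (s :: L) p *ᵥ ![1, 0]) 0 = KK Q (s :: L) p 0 0 := by
        simp [Matrix.mulVec, dotProduct, Fin.sum_univ_two]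
      rw [e0, mul_one] at h1
      unfold nu at h1
      rw [e1] at h1
      have h2 : 0 ≤ 4 * C * ‖(KK Q (s :: L) p *ᵥ ![1, 0]) 1‖ := by positivity
      linarith
    have c2 : ‖KK Q (s :: L) p 1 1‖ ≤ 20 * C ^ 2 * ‖Q‖ ^ 2 * r := by
      have h1 := b2 ![0, 1]
      have e0 : nu (4 * C) ![0, 1] = 4 * C := by
        unfold nu
        simp
      have e1 : (KK Q L p *ᵥ ![0, 1]) 0 = KK Q L p 0 1 := by
        simp [Matrix.mulVec, dotProduct, Fin.sum_univ_two]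
      have e2 : (KK Q L p *ᵥ ![0, 1]) 1 = KK Q L p 1 1 := by
        simp [Matrix.mulVec, dotProduct, Fin.sum_univ_two]
      rw [e0] at h1
      unfold nu at h1
      rw [e1, e2] at h1
      have n0 := norm_nonneg (KK Q L p 0 1)
      have n1 := norm_nonneg (KK Q L p 1 1)
      have h2 : ‖KK Q L p 0 1‖ ≤ 12 * C * r := by nlinarith
      have h3 : ‖KK Q L p 1 1‖ ≤ 3 * r := by
        have h4 : 4 * C * ‖KK Q L p 1 1‖ ≤ 4 * C * (3 * r) := by nlinarith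
        exact le_of_mul_le_mul_left h4 (by positivity)
      have e3 : KK Q (s :: L) p 1 1 = K Q s (orb Q L p) 1 0 * KK Q L p 0 1 +
          K Q s (orb Q L p) 1 1 * KK Q L p 1 1 := by
        show (K Q s (orb Q L p) * KK Q L p) 1 1 = _
        rw [Matrix.mul_apply, Fin.sum_univ_two]
      have k1 := G.K10 s _ hs hn
      have k2 := G.K11 s _ hs hn
      rw [e3]
      refine (norm_add_le _ _).trans ?_
      rw [norm_mul, norm_mul]
      calc _ ≤ C * ‖Q‖ ^ 2 * (12 * C * r) + C * ‖Q‖ ^ 2 * (3 * r) := by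
            gcongr
        _ = (12 * C ^ 2 + 3 * C) * (‖Q‖ ^ 2 * r) := by ring
        _ ≤ (20 * C ^ 2) * (‖Q‖ ^ 2 * r) := by
            gcongr
            nlinarith
        _ = 20 * C ^ 2 * ‖Q‖ ^ 2 * r := by ring
    rw [Matrix.trace_fin_two]
    refine (norm_add_le _ _).trans ?_
    nlinarith

end Pool.Agent.FB.U5
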