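import Pool.Agent.FB.U5.Defs

/-!
# FB/U5, module DEG: growth of a Laurent polynomial (helper12)
-/

set_option autoImplicit false

open Filter Topology LaurentPolynomial Pool.RU

namespace Pool.Agent.FB.U5

theorem DEG_aux (S : Finset ℤ) (c : ℤ → ℂ) (hc : ∀ i ∈ S, c i ≠ 0) (D : ℤ) (M : ℝ)
    (h : ∀ a : ℝ, 2 ≤ a → ‖∑ i ∈ S, c i * (a : ℂ) ^ i‖ ≤ M * a ^ D) : ∀ i ∈ S, i ≤ D := by
  by_contra hcon
  push Not at hcon
  obtain ⟨j, hj, hjD⟩ := hcon
  have hne : S.Nonempty := ⟨j, hj⟩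
  obtain ⟨k, hk, hkmax⟩ : ∃ k ∈ S, ∀ i ∈ S, i ≤ k :=
    ⟨S.max' hne, S.max'_mem hne, fun i hi => S.le_max' i hi⟩
  have hkD : D < k := lt_of_lt_of_le hjD (hkmax j hj)
  have h1 : Tendsto (fun a : ℝ => ∑ i ∈ S, c i * (a : ℂ) ^ (i - k)) atTop (𝓝 (c k)) := by
    have h2 : ∀ i ∈ S, Tendsto (fun a : ℝ => c i * (a : ℂ) ^ (i - k)) atTop
        (𝓝 (if i = k then c k else 0)) := by
      intro i hi
      by_cases hik : i = k
      · rw [if_pos hik, hik]
        simp
      · rw [if_neg hik]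
        have hlt : i - k < 0 := by
          have := hkmax i hi
          omega
        have h3 := (Complex.continuous_ofReal.tendsto 0).comp
          (tendsto_zpow_atTop_zero (𝕜 := ℝ) hlt)
        have h4 := h3.const_mul (c i)
        rw [Complex.ofReal_zero, mul_zero] at h4
        refine h4.congr fun a => ?_
        simp
    have h3 := tendsto_finsetSum S h2
    rwa [Finset.sum_ite_eq', if_pos hk] at h3
  have h4 : Tendsto (fun a : ℝ => M * a ^ (D - k)) atTop (𝓝 (M * 0)) :=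
    (tendsto_zpow_atTop_zero (by omega)).const_mul M
  have h5 : ‖c k‖ ≤ M * 0 := by
    refine le_of_tendsto_of_tendsto h1.norm h4 ?_
    filter_upwards [eventually_ge_atTop (2 : ℝ)] with a ha
    have ha0 : (0 : ℝ) < a := by linarith
    have hac : (a : ℂ) ≠ 0 := by exact_mod_cast ha0.ne'
    have e1 : ∑ i ∈ S, c i * (a : ℂ) ^ (i - k) = (a : ℂ) ^ (-k) * ∑ i ∈ S, c i * (a : ℂ) ^ i := by
      rw [Finset.mul_sum]
      refine Finset.sum_congr rfl fun i _ => ?_
      rw [sub_eq_add_neg, zpow_add₀ hac]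
      ring
    rw [e1, norm_mul, norm_zpow, Complex.norm_real, Real.norm_eq_abs, abs_of_pos ha0]
    have h6 := mul_le_mul_of_nonneg_left (h a ha) (zpow_nonneg ha0.le (-k))
    refine h6.trans (le_of_eq ?_)
    rw [sub_eq_add_neg, zpow_add₀ ha0.ne']
    ring
  rw [mul_zero] at h5
  exact hc k hk (norm_le_zero_iff.1 h5)

theorem DEG_sum (f : ℤ[T;T⁻¹]) : f = ∑ i ∈ f.coeff.support, C (f.coeff i) * T i := by
  apply LaurentPolynomial.ext
  intro a
  rw [AddMonoidAlgebra.coeff_sum, Finsupp.finsetSum_apply]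
  have h : ∀ i, (C (f.coeff i) * T i : ℤ[T;T⁻¹]).coeff a = if i = a then f.coeff i else 0 := by
    intro i
    rw [← single_eq_C_mul_T, AddMonoidAlgebra.coeff_single, Finsupp.single_apply]
  simp only [h]
  rw [Finset.sum_ite_eq']
  split_ifs with h1
  · rfl
  · exact Finsupp.notMem_support_iff.1 h1

theorem DEG_ev (A : ℂˣ) (f : ℤ[T;T⁻¹]) :
    ev A f = ∑ i ∈ f.coeff.support, (f.coeff i : ℂ) * (A : ℂ) ^ i := by
  have h1 : ev A f = ∑ i ∈ f.coeff.support, ev A (C (f.coeff i) * T i) := by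
    conv_lhs => rw [DEG_sum f]
    unfold ev
    rw [map_sum]
  rw [h1]
  refine Finset.sum_congr rfl fun i _ => ?_
  unfold ev
  rw [eval₂_C_mul_T, Units.val_zpow_eq_zpow_val, eq_intCast]

/-- the bound by the coefficients -/
theorem DEG_le (A : ℂˣ) (f : ℤ[T;T⁻¹]) (d : ℤ)
    (h : ∀ i ∈ f.coeff.support, ‖(A : ℂ)‖ ^ i ≤ ‖(A : ℂ)‖ ^ d) :
    ‖ev A f‖ ≤ SPT.coeffSum f * ‖(A : ℂ)‖ ^ d := by
  rw [DEG_ev]
  refine (norm_sum_le _ _).trans ?_
  unfold SPT.coeffSum
  push_cast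
  rw [Finset.sum_mul]
  refine Finset.sum_le_sum fun i hi => ?_
  rw [norm_mul, norm_zpow, Complex.norm_intCast]
  exact mul_le_mul_of_nonneg_left (h i hi) (abs_nonneg _)

theorem thm_Deg : St_Deg := by
  intro f d M
  have hne : ∀ i ∈ f.coeff.support, ((f.coeff i : ℤ) : ℂ) ≠ 0 := fun i hi => by
    have := Finsupp.mem_support_iff.1 hi
    exact_mod_cast this
  constructor
  · intro h A hA
    have h1 : ∀ i ∈ f.coeff.support, i ≤ d := by
      refine DEG_aux _ (fun i => (f.coeff i : ℂ)) hne d M fun a ha => ?_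
      have ha0 : (0 : ℝ) < a := by linarith
      have hac : (a : ℂ) ≠ 0 := by exact_mod_cast ha0.ne'
      have hn : ‖((Units.mk0 (a : ℂ) hac : ℂˣ) : ℂ)‖ = a := by
        rw [Units.val_mk0, Complex.norm_real, Real.norm_eq_abs, abs_of_pos ha0]
      have h2 := h (Units.mk0 (a : ℂ) hac) (by rw [hn]; exact ha)
      rw [hn, DEG_ev, Units.val_mk0] at h2
      exact h2
    exact DEG_le A f d fun i hi => zpow_le_zpow_right₀ hA (h1 i hi)
  · intro h A hA
    have h1 : ∀ i ∈ f.coeff.support.map (Equiv.neg ℤ).toEmbedding, i ≤ -d := by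
      refine DEG_aux _ (fun i => (f.coeff (-i) : ℂ)) ?_ (-d) M fun a ha => ?_
      · intro i hi
        rw [Finset.mem_map] at hi
        obtain ⟨j, hj, rfl⟩ := hi
        have : -((Equiv.neg ℤ).toEmbedding j) = j := neg_neg j
        rw [this]
        exact hne j hj
      · have ha0 : (0 : ℝ) < a := by linarith
        have hac : (a : ℂ)⁻¹ ≠ 0 := inv_ne_zero (by exact_mod_cast ha0.ne')
        have hn : ‖((Units.mk0 ((a : ℂ)⁻¹) hac : ℂˣ) : ℂ)‖ = a⁻¹ := by
          rw [Units.val_mk0, norm_inv, Complex.norm_real, Real.norm_eq_abs, abs_of_pos ha0]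
        have h2 := h (Units.mk0 ((a : ℂ)⁻¹) hac) (by
          rw [hn, inv_eq_one_div]
          exact one_div_le_one_div_of_le (by norm_num) ha)
        rw [hn, DEG_ev, Units.val_mk0, inv_zpow, ← zpow_neg] at h2
        rw [Finset.sum_map]
        refine le_trans (le_of_eq ?_) h2
        congr 1
        refine Finset.sum_congr rfl fun i _ => ?_
        have e1 : (Equiv.neg ℤ).toEmbedding i = -i := rfl
        rw [e1, neg_neg, inv_zpow, zpow_neg]
    refine DEG_le A f d fun i hi => ?_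
    have h2 := h1 (-i) (Finset.mem_map.2 ⟨i, hi, rfl⟩)
    exact zpow_le_zpow_right_of_le_one₀ (norm_pos_iff.2 A.ne_zero) hA (by omega)

end Pool.Agent.FB.U5
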