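import Pool.Agent.FB.U5.Defs

/-!
# FB/U5/LOC: the local estimates away from the unit circle (helper60)
-/

set_option autoImplicit false

open Matrix

namespace Pool.Agent.FB.U5

/-- the size of a block -/
private noncomputable def Mt (t : ℂ × ℂ × ℂ) : ℝ := 1 + ‖t.1‖ + ‖t.2.1‖

private theorem Mt_one (t : ℂ × ℂ × ℂ) : 1 ≤ Mt t := by
  have := norm_nonneg t.1
  have := norm_nonneg t.2.1
  unfold Mt
  linarith

/-- division by a number of size at least `M / (2 u)` -/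
private theorem div_le' {u M A : ℝ} {a n : ℂ} (hM : 1 ≤ M) (ha : ‖a‖ ≤ A * M)
    (hn : M ≤ 2 * u * ‖n‖) : ‖a / n‖ ≤ 2 * u * A := by
  have hn0 : 0 < ‖n‖ := by
    rcases (norm_nonneg n).lt_or_eq with h | h
    · exact h
    · rw [← h, mul_zero] at hn
      linarith
  have hA : 0 ≤ A := by
    by_contra h
    push Not at h
    nlinarith [norm_nonneg a]
  rw [norm_div, div_le_iff₀ hn0]
  calc ‖a‖ ≤ A * M := ha
    _ ≤ A * (2 * u * ‖n‖) := by gcongr
    _ = _ := by ring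

/-- the basic bounds -/
private structure Bas (u : ℝ) (Q : ℂ) (t : ℂ × ℂ × ℂ) (p : ℂ × ℂ) : Prop where
  v_ne : v Q t ≠ 0
  v_le : ‖v Q t‖ ≤ u * ‖Q‖
  a_le : ‖p.1‖ ≤ 4 * u ^ 2 * ‖Q‖
  b_le : ‖p.2‖ ≤ 4 * u ^ 2 * ‖Q‖
  a_one : ‖p.1‖ ≤ 1
  b_one : ‖p.2‖ ≤ 1
  X_le : ‖X t p‖ ≤ 2 * Mt t
  Y_le : ‖Y t p‖ ≤ 2 * Mt t
  XY_le : ‖X t p * Y t p‖ ≤ 6 * Mt t
  xy_le : ‖t.1 * t.2.1‖ ≤ Mt t
  N_ge : Mt t ≤ 2 * u * ‖N Q t p‖
  n_ge : Mt t ≤ u * ‖t.1 + t.2.1 - 2‖
  dif : ‖N Q t p - (t.1 + t.2.1 - 2)‖ ≤ 6 * u ^ 2 * ‖Q‖ * Mt t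

private theorem v_bd {η u : ℝ} {Q : ℂ} {t : ℂ × ℂ × ℂ} (hη : η * u = 1) (h0 : 0 < η)
    (hQ : 0 < ‖Q‖) (ht : Adm η t) : v Q t ≠ 0 ∧ ‖v Q t‖ ≤ u * ‖Q‖ := by
  obtain ⟨h1, -, -, -⟩ := ht
  have hz := norm_nonneg t.2.2
  have h2 : η ≤ ‖t.2.2 - 1‖ := by nlinarith
  have h3 : 0 < ‖t.2.2 - 1‖ := lt_of_lt_of_le h0 h2
  have u0 : 0 < u := by
    by_contra h
    push Not at h
    nlinarith
  constructor
  · rw [v]
    exact div_ne_zero (norm_pos_iff.1 hQ) (norm_pos_iff.1 h3)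
  · rw [v, norm_div, div_le_iff₀ h3]
    have h4 : 1 ≤ u * ‖t.2.2 - 1‖ := by
      calc (1 : ℝ) = u * η := by rw [← hη]; ring
        _ ≤ _ := by gcongr
    calc ‖Q‖ = ‖Q‖ * 1 := (mul_one _).symm
      _ ≤ ‖Q‖ * (u * ‖t.2.2 - 1‖) := by gcongr
      _ = _ := by ring

private theorem basic {η u : ℝ} {Q : ℂ} {t : ℂ × ℂ × ℂ} {p : ℂ × ℂ} (hη : η * u = 1) (h0 : 0 < η)
    (hu : 1 ≤ u) (hQ : 0 < ‖Q‖) (hs : u ^ 5 * ‖Q‖ ≤ 1 / 10000) (ht : Adm η t)
    (hp : Near (4 * u ^ 2) Q p) : Bas u Q t p := by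
  obtain ⟨hv0, hv⟩ := v_bd hη h0 hQ ht
  obtain ⟨h1, h2, h3, h4⟩ := ht
  obtain ⟨hp1, hp2⟩ := hp
  have u0 : 0 < u := by linarith
  have hx := norm_nonneg t.1
  have hy := norm_nonneg t.2.1
  have hM := Mt_one t
  have hMe : Mt t = 1 + ‖t.1‖ + ‖t.2.1‖ := rfl
  have hu2 : 1 ≤ u ^ 2 := one_le_pow₀ hu
  have hu3 : u ^ 3 ≤ u ^ 5 := pow_le_pow_right₀ hu (by norm_num)
  have hu25 : u ^ 2 ≤ u ^ 5 := pow_le_pow_right₀ hu (by norm_num)
  have huu : u ≤ u ^ 2 := by nlinarith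
  have hs2 : u ^ 2 * ‖Q‖ ≤ 1 / 10000 := (mul_le_mul_of_nonneg_right hu25 hQ.le).trans hs
  have hs3 : u ^ 3 * ‖Q‖ ≤ 1 / 10000 := (mul_le_mul_of_nonneg_right hu3 hQ.le).trans hs
  have a1 : ‖p.1‖ ≤ 1 := by linarith
  have b1 : ‖p.2‖ ≤ 1 := by linarith
  have hA : ‖1 + p.1‖ ≤ 2 := by
    have := norm_add_le (1 : ℂ) p.1
    rw [norm_one] at this
    linarith
  have hB : ‖1 + p.2‖ ≤ 2 := by
    have := norm_add_le (1 : ℂ) p.2
    rw [norm_one] at this
    linarith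
  have xA : ‖t.1 * (1 + p.1)‖ ≤ 2 * ‖t.1‖ := by
    rw [norm_mul]
    nlinarith
  have yB : ‖t.2.1 * (1 + p.2)‖ ≤ 2 * ‖t.2.1‖ := by
    rw [norm_mul]
    nlinarith
  have hX : ‖X t p‖ ≤ 2 * Mt t := by
    have := norm_sub_le (t.1 * (1 + p.1)) 1
    rw [norm_one] at this
    rw [X, hMe]
    linarith
  have hY : ‖Y t p‖ ≤ 2 * Mt t := by
    have := norm_sub_le (t.2.1 * (1 + p.2)) 1
    rw [norm_one] at this
    rw [Y, hMe]
    linarith
  have hXY : ‖X t p * Y t p‖ ≤ 6 * Mt t := by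
    have e : X t p * Y t p = t.1 * t.2.1 * ((1 + p.1) * (1 + p.2)) - t.1 * (1 + p.1) -
        t.2.1 * (1 + p.2) + 1 := by
      rw [X, Y]; ring
    have g1 := norm_add_le (t.1 * t.2.1 * ((1 + p.1) * (1 + p.2)) - t.1 * (1 + p.1) -
        t.2.1 * (1 + p.2)) 1
    have g2 := norm_sub_le (t.1 * t.2.1 * ((1 + p.1) * (1 + p.2)) - t.1 * (1 + p.1))
        (t.2.1 * (1 + p.2))
    have g3 := norm_sub_le (t.1 * t.2.1 * ((1 + p.1) * (1 + p.2))) (t.1 * (1 + p.1))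
    have g4 : ‖t.1 * t.2.1 * ((1 + p.1) * (1 + p.2))‖ ≤ Mt t * 4 := by
      rw [norm_mul, norm_mul (1 + p.1)]
      have : ‖1 + p.1‖ * ‖1 + p.2‖ ≤ 2 * 2 := by gcongr
      have h5 : ‖1 + p.1‖ * ‖1 + p.2‖ ≤ 4 := by linarith
      calc _ ≤ Mt t * (‖1 + p.1‖ * ‖1 + p.2‖) := by gcongr; exact h3
        _ ≤ Mt t * 4 := by gcongr
    rw [norm_one] at g1
    rw [e]
    linarith
  have hd : ‖N Q t p - (t.1 + t.2.1 - 2)‖ ≤ 6 * u ^ 2 * ‖Q‖ * Mt t := by
    have e : N Q t p - (t.1 + t.2.1 - 2) = v Q t + Q + (t.1 * p.1 + t.2.1 * p.2) := by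
      rw [N, X, Y]; ring
    have g1 := norm_add_le (v Q t + Q) (t.1 * p.1 + t.2.1 * p.2)
    have g2 := norm_add_le (v Q t) Q
    have g3 := norm_add_le (t.1 * p.1) (t.2.1 * p.2)
    have g4 : ‖t.1 * p.1‖ ≤ ‖t.1‖ * (4 * u ^ 2 * ‖Q‖) := by
      rw [norm_mul]
      gcongr
    have g5 : ‖t.2.1 * p.2‖ ≤ ‖t.2.1‖ * (4 * u ^ 2 * ‖Q‖) := by
      rw [norm_mul]
      gcongr
    have g6 : u * ‖Q‖ ≤ u ^ 2 * ‖Q‖ := by gcongr
    have g7 : ‖Q‖ ≤ u ^ 2 * ‖Q‖ := le_mul_of_one_le_left hQ.le hu2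
    have g8 : 0 ≤ u ^ 2 * ‖Q‖ * ‖t.1‖ := by positivity
    have g9 : 0 ≤ u ^ 2 * ‖Q‖ * ‖t.2.1‖ := by positivity
    rw [e, hMe]
    nlinarith
  have hn : Mt t ≤ u * ‖t.1 + t.2.1 - 2‖ := by
    calc Mt t = u * (η * Mt t) := by rw [← mul_assoc, mul_comm u η, hη, one_mul]
      _ ≤ _ := by gcongr; exact h2
  refine ⟨hv0, hv, hp1, hp2, a1, b1, hX, hY, hXY, h3, ?_, hn, hd⟩
  have g1 : ‖t.1 + t.2.1 - 2‖ ≤ ‖N Q t p‖ + ‖N Q t p - (t.1 + t.2.1 - 2)‖ := by
    calc ‖t.1 + t.2.1 - 2‖ = ‖N Q t p - (N Q t p - (t.1 + t.2.1 - 2))‖ := by ring_nf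
      _ ≤ _ := norm_sub_le _ _
  have g2 : u * ‖t.1 + t.2.1 - 2‖ ≤ u * (‖N Q t p‖ + 6 * u ^ 2 * ‖Q‖ * Mt t) := by
    gcongr
    linarith
  have g3 : u * (6 * u ^ 2 * ‖Q‖ * Mt t) = 6 * (u ^ 3 * ‖Q‖) * Mt t := by ring
  have g4 : 6 * (u ^ 3 * ‖Q‖) * Mt t ≤ 6 * (1 / 10000) * Mt t := by gcongr
  nlinarith

theorem thm_Loc : St_Loc := by
  intro η h0 h1
  obtain ⟨u, hu⟩ : ∃ u : ℝ, u = η⁻¹ := ⟨_, rfl⟩
  have hu1 : 1 ≤ u := by
    rw [hu]
    exact (one_le_inv₀ h0).2 h1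
  have hη : η * u = 1 := by
    rw [hu]
    exact mul_inv_cancel₀ h0.ne'
  have u0 : 0 < u := by linarith
  have cmp : ∀ (c : ℝ) (a : ℕ), 0 ≤ c → c ≤ 400 → a ≤ 5 → c * u ^ a ≤ 400 * u ^ 5 := by
    intro c a hc hc' ha
    have := pow_le_pow_right₀ hu1 ha
    have := pow_pos u0 a
    gcongr
  refine ⟨4 * u ^ 2, 400 * u ^ 5, 1 / (10000 * u ^ 5), by positivity, ?_⟩
  intro Q hQ hQ'
  have hs : u ^ 5 * ‖Q‖ ≤ 1 / 10000 := by
    rw [lt_div_iff₀ (by positivity)] at hQ'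
    linarith
  have mono : ∀ a : ℕ, a ≤ 5 → u ^ a * ‖Q‖ ≤ 1 / 10000 := fun a ha =>
    (mul_le_mul_of_nonneg_right (pow_le_pow_right₀ hu1 ha) hQ.le).trans hs
  have B := fun (t : ℂ × ℂ × ℂ) (p : ℂ × ℂ) (ht : Adm η t) (hp : Near (4 * u ^ 2) Q p) =>
    basic hη h0 hu1 hQ hs ht hp
  have u1 : ‖Q‖ ≤ u * ‖Q‖ := le_mul_of_one_le_left hQ.le hu1
  have u2 : u * ‖Q‖ ≤ u ^ 2 * ‖Q‖ := by
    have : u ≤ u ^ 2 := by nlinarith
    gcongr
  have N0 : ∀ t p, Adm η t → Near (4 * u ^ 2) Q p → N Q t p ≠ 0 := by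
    intro t p ht hp h
    have h2 := (B t p ht hp).N_ge
    have h3 := Mt_one t
    rw [h, norm_zero, mul_zero] at h2
    linarith
  -- `v / N`
  have vN : ∀ t p, Adm η t → Near (4 * u ^ 2) Q p → ‖v Q t / N Q t p‖ ≤ 2 * u ^ 2 * ‖Q‖ := by
    intro t p ht hp
    have b := B t p ht hp
    have h := div_le' (A := u * ‖Q‖) (Mt_one t)
      (b.v_le.trans (le_mul_of_one_le_right (by positivity) (Mt_one t))) b.N_ge
    refine h.trans (le_of_eq ?_)
    ring
  have XYN : ∀ t p, Adm η t → Near (4 * u ^ 2) Q p → ‖X t p * Y t p / N Q t p‖ ≤ 12 * u := by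
    intro t p ht hp
    have b := B t p ht hp
    refine (div_le' (Mt_one t) b.XY_le b.N_ge).trans (le_of_eq ?_)
    ring
  have xyN : ∀ t p, Adm η t → Near (4 * u ^ 2) Q p → ‖t.1 * t.2.1 / N Q t p‖ ≤ 2 * u := by
    intro t p ht hp
    have b := B t p ht hp
    have h := div_le' (A := 1) (Mt_one t) (by rw [one_mul]; exact b.xy_le) b.N_ge
    rwa [mul_one] at h
  have xN : ∀ t p, Adm η t → Near (4 * u ^ 2) Q p → ‖t.1 / N Q t p‖ ≤ 2 * u := by
    intro t p ht hp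
    have b := B t p ht hp
    have h := div_le' (A := 1) (a := t.1) (Mt_one t)
      (by rw [one_mul, Mt]; linarith [norm_nonneg t.2.1]) b.N_ge
    rwa [mul_one] at h
  have yN : ∀ t p, Adm η t → Near (4 * u ^ 2) Q p → ‖t.2.1 / N Q t p‖ ≤ 2 * u := by
    intro t p ht hp
    have b := B t p ht hp
    have h := div_le' (A := 1) (a := t.2.1) (Mt_one t)
      (by rw [one_mul, Mt]; linarith [norm_nonneg t.1]) b.N_ge
    rwa [mul_one] at h
  have ZN : ∀ t p, Adm η t → Near (4 * u ^ 2) Q p → ∀ Z : ℂ, ‖Z‖ ≤ 2 * Mt t →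
      ‖Z / N Q t p‖ ≤ 4 * u := by
    intro t p ht hp Z hZ
    refine (div_le' (Mt_one t) hZ (B t p ht hp).N_ge).trans (le_of_eq ?_)
    ring
  have sN : ∀ t p, Adm η t → Near (4 * u ^ 2) Q p → ∀ Z : ℂ, ‖Z‖ ≤ 2 * Mt t →
      ‖v Q t * Z / N Q t p‖ ≤ 4 * u ^ 2 * ‖Q‖ := by
    intro t p ht hp Z hZ
    rw [mul_div_assoc, norm_mul]
    calc _ ≤ u * ‖Q‖ * (4 * u) := by
          gcongr
          · exact (B t p ht hp).v_le
          · exact ZN t p ht hp Z hZ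
      _ = _ := by ring
  -- `1 / N`
  have oN : ∀ t p, Adm η t → Near (4 * u ^ 2) Q p → ∀ (a : ℂ) (A : ℝ), ‖a‖ ≤ A →
      ‖a / N Q t p‖ ≤ 2 * u * A := by
    intro t p ht hp a A ha
    have hA : 0 ≤ A := (norm_nonneg _).trans ha
    exact div_le' (Mt_one t) (ha.trans (le_mul_of_one_le_right hA (Mt_one t)))
      (B t p ht hp).N_ge
  -- the difference `v + Q + β`
  have vQ : ∀ t p, Adm η t → Near (4 * u ^ 2) Q p → ∀ b : ℂ, ‖b‖ ≤ 4 * u ^ 2 * ‖Q‖ →
      ‖v Q t + Q + b‖ ≤ 6 * u ^ 2 * ‖Q‖ := by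
    intro t p ht hp b hb
    have g1 := norm_add_le (v Q t + Q) b
    have g2 := norm_add_le (v Q t) Q
    have g3 := (B t p ht hp).v_le
    linarith
  have br : ∀ t p, Adm η t → Near (4 * u ^ 2) Q p →
      ‖v Q t * (X t p * Y t p / N Q t p)‖ ≤ 12 * (u ^ 2 * ‖Q‖) := by
    intro t p ht hp
    rw [norm_mul]
    calc _ ≤ u * ‖Q‖ * (12 * u) := by
          gcongr
          · exact (B t p ht hp).v_le
          · exact XYN t p ht hp
      _ = _ := by ring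
  have k10 : ∀ t p, Adm η t → Near (4 * u ^ 2) Q p → ∀ W : ℝ, ‖X t p * Y t p / N Q t p‖ ≤ W →
      ‖K Q t p 1 0‖ ≤ 26 * u ^ 4 * W * ‖Q‖ ^ 2 := by
    intro t p ht hp W hW
    have hW0 : 0 ≤ W := (norm_nonneg _).trans hW
    have e : K Q t p 1 0 = v Q t / N Q t p ^ 2 *
      (X t p * Y t p * (Q - v Q t * (X t p * Y t p) / N Q t p)) := rfl
    have e' : K Q t p 1 0 = v Q t / N Q t p * (X t p * Y t p / N Q t p *
      (Q - v Q t * (X t p * Y t p / N Q t p))) := by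
      rw [e]; ring
    have h2 : ‖Q - v Q t * (X t p * Y t p / N Q t p)‖ ≤ 13 * (u ^ 2 * ‖Q‖) := by
      have g1 := norm_sub_le Q (v Q t * (X t p * Y t p / N Q t p))
      have g2 := br t p ht hp
      linarith
    rw [e', norm_mul, norm_mul]
    calc _ ≤ 2 * u ^ 2 * ‖Q‖ * (W * (13 * (u ^ 2 * ‖Q‖))) := by
          gcongr
          exact vN t p ht hp
      _ = _ := by ring
  refine
    { pos := hQ
      κ_pos := by positivity
      one_le := ?_
      κ_le := cmp 4 2 (by norm_num) (by norm_num) (by norm_num)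
      small := ?_
      v_ne := fun t ht => (v_bd hη h0 hQ ht).1
      v_le := ?_
      N_ne := N0
      lam_ge := ?_
      near := fun t p ht hp => ⟨sN t p ht hp _ (B t p ht hp).X_le, sN t p ht hp _ (B t p ht hp).Y_le⟩
      lip := ?_
      stepA := ?_
      KA := ?_
      stepB := ?_
      KB := ?_
      K01 := ?_
      K10 := ?_
      K11 := ?_
      Dm_le := ?_
      KD := ?_ }
  · -- one_le
    have := cmp 1 0 (by norm_num) (by norm_num) (by norm_num)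
    simpa using this
  · -- small
    linarith
  · -- v_le
    intro t ht
    refine (v_bd hη h0 hQ ht).2.trans ?_
    have := cmp 1 1 (by norm_num) (by norm_num) (by norm_num)
    rw [pow_one, one_mul] at this
    gcongr
  · -- lam_ge
    intro t p ht hp
    have b := B t p ht hp
    have hv0 : 0 < ‖v Q t‖ := norm_pos_iff.2 b.v_ne
    have hz1 : 0 < ‖t.2.2 - 1‖ := by
      have := ht.1
      have := norm_nonneg t.2.2
      nlinarith
    have e : ‖Q‖ * ‖N Q t p / v Q t‖ = ‖N Q t p‖ * ‖t.2.2 - 1‖ := by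
      rw [v, norm_div, norm_div]
      field_simp
    have g1 : 1 + ‖t.2.2‖ ≤ u * ‖t.2.2 - 1‖ := by
      calc 1 + ‖t.2.2‖ = u * (η * (1 + ‖t.2.2‖)) := by
            rw [← mul_assoc, mul_comm u η, hη, one_mul]
        _ ≤ _ := by gcongr; exact ht.1
    calc (1 + ‖t.2.2‖) * (1 + ‖t.1‖ + ‖t.2.1‖) ≤ u * ‖t.2.2 - 1‖ * (2 * u * ‖N Q t p‖) := by
          gcongr
          exact b.N_ge
      _ = 2 * u ^ 2 * (‖N Q t p‖ * ‖t.2.2 - 1‖) := by ring
      _ ≤ 400 * u ^ 5 * (‖N Q t p‖ * ‖t.2.2 - 1‖) := by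
          have := cmp 2 2 (by norm_num) (by norm_num) (by norm_num)
          gcongr
      _ = 400 * u ^ 5 * ‖Q‖ * ‖N Q t p / v Q t‖ := by rw [← e]; ring
  · -- lip
    intro t p q ht hp hq
    have b := B t p ht hp
    have c := B t q ht hq
    have hN := N0 t p ht hp
    have hN' := N0 t q ht hq
    have hx := norm_nonneg t.1
    have hy := norm_nonneg t.2.1
    obtain ⟨d, hd⟩ : ∃ d : ℝ, d = dist p q := ⟨_, rfl⟩
    have d0 : 0 ≤ d := by rw [hd]; exact dist_nonneg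
    have hα : ‖p.1 - q.1‖ ≤ d := by
      rw [← dist_eq_norm, hd, Prod.dist_eq]; exact le_max_left _ _
    have hβ : ‖p.2 - q.2‖ ≤ d := by
      rw [← dist_eq_norm, hd, Prod.dist_eq]; exact le_max_right _ _
    have hX : ‖X t p - X t q‖ ≤ ‖t.1‖ * d := by
      have : X t p - X t q = t.1 * (p.1 - q.1) := by rw [X, X]; ring
      rw [this, norm_mul]
      gcongr
    have hY : ‖Y t p - Y t q‖ ≤ ‖t.2.1‖ * d := by
      have : Y t p - Y t q = t.2.1 * (p.2 - q.2) := by rw [Y, Y]; ring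
      rw [this, norm_mul]
      gcongr
    have hMe : Mt t = 1 + ‖t.1‖ + ‖t.2.1‖ := rfl
    have hX' : ‖X t p - X t q‖ ≤ d * Mt t := by
      rw [hMe]
      nlinarith
    have hY' : ‖Y t p - Y t q‖ ≤ d * Mt t := by
      rw [hMe]
      nlinarith
    have hNN : ‖N Q t q - N Q t p‖ ≤ d * Mt t := by
      have : N Q t q - N Q t p = -((X t p - X t q) + (Y t p - Y t q)) := by rw [N, N]; ring
      rw [this, norm_neg, hMe]
      have := norm_add_le (X t p - X t q) (Y t p - Y t q)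
      nlinarith
    have key : ∀ Z Z' : ℂ, ‖Z - Z'‖ ≤ d * Mt t → ‖Z'‖ ≤ 2 * Mt t →
        dist (v Q t * Z / N Q t p) (v Q t * Z' / N Q t q) ≤ d / 2 := by
      intro Z Z' h2 h3
      have e : v Q t * Z / N Q t p - v Q t * Z' / N Q t q =
          v Q t * ((Z - Z') / N Q t p) +
            v Q t * (Z' / N Q t q * ((N Q t q - N Q t p) / N Q t p)) := by
        field_simp
        ring
      have g1 : ‖v Q t * ((Z - Z') / N Q t p)‖ ≤ u * ‖Q‖ * (2 * u * d) := by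
        rw [norm_mul]
        gcongr
        · exact b.v_le
        · exact div_le' (Mt_one t) h2 b.N_ge
      have g2 : ‖v Q t * (Z' / N Q t q * ((N Q t q - N Q t p) / N Q t p))‖ ≤
          u * ‖Q‖ * (4 * u * (2 * u * d)) := by
        rw [norm_mul, norm_mul]
        gcongr
        · exact b.v_le
        · exact ZN t q ht hq _ h3
        · exact div_le' (Mt_one t) hNN b.N_ge
      rw [dist_eq_norm, e]
      refine (norm_add_le _ _).trans ((add_le_add g1 g2).trans ?_)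
      have e2 : u * ‖Q‖ * (2 * u * d) + u * ‖Q‖ * (4 * u * (2 * u * d)) =
          (2 * (u ^ 2 * ‖Q‖) + 8 * (u ^ 3 * ‖Q‖)) * d := by ring
      rw [e2]
      have h4 : 2 * (u ^ 2 * ‖Q‖) + 8 * (u ^ 3 * ‖Q‖) ≤ 1 / 2 := by
        have := mono 2 (by norm_num)
        have := mono 3 (by norm_num)
        linarith
      have := mul_le_mul_of_nonneg_right h4 d0
      linarith
    rw [← hd, Prod.dist_eq]
    exact max_le (key _ _ hX' c.X_le) (key _ _ hY' c.Y_le)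
  · -- stepA
    intro t p ht hp ht1
    have b := B t p ht hp
    have hY : Y t p = p.2 := by rw [Y, ht1]; ring
    have hN := N0 t p ht hp
    constructor
    · have e : (step Q t p).1 - v Q t = -(v Q t * ((v Q t + Q + p.2) / N Q t p)) := by
        have e1 : v Q t + Q + p.2 = N Q t p - X t p := by rw [N, hY]; ring
        rw [e1]
        simp only [step]
        field_simp
        ring
      rw [e, norm_neg, norm_mul]
      have h2 := oN t p ht hp _ _ (vQ t p ht hp p.2 b.b_le)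
      calc _ ≤ ‖v Q t‖ * (2 * u * (6 * u ^ 2 * ‖Q‖)) := by gcongr
        _ = 12 * u ^ 3 * ‖Q‖ * ‖v Q t‖ := by ring
        _ ≤ _ := by
          have := cmp 12 3 (by norm_num) (by norm_num) (by norm_num)
          gcongr
    · have e : (step Q t p).2 = v Q t / N Q t p * p.2 := by
        simp only [step]
        rw [hY]
        ring
      rw [e, norm_mul]
      have := cmp 2 2 (by norm_num) (by norm_num) (by norm_num)
      have h2 := vN t p ht hp
      calc _ ≤ 2 * u ^ 2 * ‖Q‖ * ‖p.2‖ := by gcongr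
        _ ≤ _ := by gcongr
  · -- KA
    intro t p ht hp ht1
    have b := B t p ht hp
    have hY : Y t p = p.2 := by rw [Y, ht1]; ring
    have hN := N0 t p ht hp
    constructor
    · have e : K Q t p 0 0 - (1 + p.2) = -(p.2 * ((v Q t + Q + p.2) / N Q t p)) := by
        have e1 : v Q t + Q + p.2 = N Q t p - X t p := by rw [N, hY]; ring
        have e2 : K Q t p 0 0 = 1 + X t p * Y t p / N Q t p := rfl
        rw [e1, e2, hY]
        field_simp
        ring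
      rw [e, norm_neg, norm_mul]
      have h2 := oN t p ht hp _ _ (vQ t p ht hp p.2 b.b_le)
      calc _ ≤ ‖p.2‖ * (2 * u * (6 * u ^ 2 * ‖Q‖)) := by gcongr
        _ = 12 * u ^ 3 * ‖Q‖ * ‖p.2‖ := by ring
        _ ≤ _ := by
          have := cmp 12 3 (by norm_num) (by norm_num) (by norm_num)
          gcongr
    · have h3 : ‖X t p * Y t p / N Q t p‖ ≤ 4 * u * ‖p.2‖ := by
        have e1 : X t p * Y t p / N Q t p = X t p / N Q t p * p.2 := by rw [hY]; ring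
        rw [e1, norm_mul]
        gcongr
        exact ZN t p ht hp _ b.X_le
      refine (k10 t p ht hp _ h3).trans ?_
      have := cmp 104 5 (by norm_num) (by norm_num) (by norm_num)
      calc _ = 104 * u ^ 5 * ‖Q‖ ^ 2 * ‖p.2‖ := by ring
        _ ≤ _ := by gcongr
  · -- stepB
    intro t p ht hp ht1
    have b := B t p ht hp
    have hX : X t p = p.1 := by rw [X, ht1]; ring
    have hN := N0 t p ht hp
    constructor
    · have e : (step Q t p).2 - v Q t = -(v Q t * ((v Q t + Q + p.1) / N Q t p)) := by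
        have e1 : v Q t + Q + p.1 = N Q t p - Y t p := by rw [N, hX]; ring
        rw [e1]
        simp only [step]
        field_simp
        ring
      rw [e, norm_neg, norm_mul]
      have h2 := oN t p ht hp _ _ (vQ t p ht hp p.1 b.a_le)
      calc _ ≤ ‖v Q t‖ * (2 * u * (6 * u ^ 2 * ‖Q‖)) := by gcongr
        _ = 12 * u ^ 3 * ‖Q‖ * ‖v Q t‖ := by ring
        _ ≤ _ := by
          have := cmp 12 3 (by norm_num) (by norm_num) (by norm_num)
          gcongr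
    · have e : (step Q t p).1 = v Q t / N Q t p * p.1 := by
        simp only [step]
        rw [hX]
        ring
      rw [e, norm_mul]
      have := cmp 2 2 (by norm_num) (by norm_num) (by norm_num)
      have h2 := vN t p ht hp
      calc _ ≤ 2 * u ^ 2 * ‖Q‖ * ‖p.1‖ := by gcongr
        _ ≤ _ := by gcongr
  · -- KB
    intro t p ht hp ht1
    have b := B t p ht hp
    have hX : X t p = p.1 := by rw [X, ht1]; ring
    have hN := N0 t p ht hp
    constructor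
    · have e : K Q t p 0 0 - (1 + p.1) = -(p.1 * ((v Q t + Q + p.1) / N Q t p)) := by
        have e1 : v Q t + Q + p.1 = N Q t p - Y t p := by rw [N, hX]; ring
        have e2 : K Q t p 0 0 = 1 + X t p * Y t p / N Q t p := rfl
        rw [e1, e2, hX]
        field_simp
        ring
      rw [e, norm_neg, norm_mul]
      have h2 := oN t p ht hp _ _ (vQ t p ht hp p.1 b.a_le)
      calc _ ≤ ‖p.1‖ * (2 * u * (6 * u ^ 2 * ‖Q‖)) := by gcongr
        _ = 12 * u ^ 3 * ‖Q‖ * ‖p.1‖ := by ring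
        _ ≤ _ := by
          have := cmp 12 3 (by norm_num) (by norm_num) (by norm_num)
          gcongr
    · have h3 : ‖X t p * Y t p / N Q t p‖ ≤ 4 * u * ‖p.1‖ := by
        have e1 : X t p * Y t p / N Q t p = Y t p / N Q t p * p.1 := by rw [hX]; ring
        rw [e1, norm_mul]
        gcongr
        exact ZN t p ht hp _ b.Y_le
      refine (k10 t p ht hp _ h3).trans ?_
      have := cmp 104 5 (by norm_num) (by norm_num) (by norm_num)
      calc _ = 104 * u ^ 5 * ‖Q‖ ^ 2 * ‖p.1‖ := by ring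
        _ ≤ _ := by gcongr
  · -- K01
    intro t p ht hp
    have e : K Q t p 0 1 = t.1 * t.2.1 / N Q t p := rfl
    rw [e]
    refine (xyN t p ht hp).trans ?_
    have := cmp 2 1 (by norm_num) (by norm_num) (by norm_num)
    rwa [pow_one] at this
  · -- K10
    intro t p ht hp
    refine (k10 t p ht hp _ (XYN t p ht hp)).trans ?_
    have := cmp 312 5 (by norm_num) (by norm_num) (by norm_num)
    calc _ = 312 * u ^ 5 * ‖Q‖ ^ 2 := by ring
      _ ≤ _ := by gcongr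
  · -- K11
    intro t p ht hp
    have e : K Q t p 1 1 = v Q t / N Q t p ^ 2 *
      (t.1 * t.2.1 * (v Q t + Q - v Q t * (X t p * Y t p) / N Q t p)) := rfl
    have e' : K Q t p 1 1 = v Q t / N Q t p * (t.1 * t.2.1 / N Q t p *
      (v Q t + Q - v Q t * (X t p * Y t p / N Q t p))) := by
      rw [e]; ring
    have h2 : ‖v Q t + Q - v Q t * (X t p * Y t p / N Q t p)‖ ≤ 14 * (u ^ 2 * ‖Q‖) := by
      have g1 := norm_sub_le (v Q t + Q) (v Q t * (X t p * Y t p / N Q t p))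
      have g2 := br t p ht hp
      have g3 := norm_add_le (v Q t) Q
      have g4 := (B t p ht hp).v_le
      linarith
    rw [e', norm_mul, norm_mul]
    have := cmp 56 5 (by norm_num) (by norm_num) (by norm_num)
    calc _ ≤ 2 * u ^ 2 * ‖Q‖ * (2 * u * (14 * (u ^ 2 * ‖Q‖))) := by
          gcongr
          · exact vN t p ht hp
          · exact xyN t p ht hp
      _ = 56 * u ^ 5 * ‖Q‖ ^ 2 := by ring
      _ ≤ _ := by gcongr
  · -- Dm
    intro t p ht hp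
    have b := B t p ht hp
    have s1 : ‖(step Q t p).1‖ ≤ 4 * u ^ 2 * ‖Q‖ := sN t p ht hp _ b.X_le
    have s2 : ‖(step Q t p).2‖ ≤ 4 * u ^ 2 * ‖Q‖ := sN t p ht hp _ b.Y_le
    have w1 : ‖v Q t - (step Q t p).1‖ ≤ 5 * u ^ 2 * ‖Q‖ := by
      have g1 := norm_sub_le (v Q t) (step Q t p).1
      have g2 := b.v_le
      linarith
    have w2 : ‖v Q t - (step Q t p).2‖ ≤ 5 * u ^ 2 * ‖Q‖ := by
      have g1 := norm_sub_le (v Q t) (step Q t p).2
      have g2 := b.v_le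
      linarith
    have s1' : ‖-(step Q t p).1‖ ≤ 5 * u ^ 2 * ‖Q‖ := by
      rw [norm_neg]
      nlinarith [mul_nonneg (sq_nonneg u) hQ.le]
    have s2' : ‖-(step Q t p).2‖ ≤ 5 * u ^ 2 * ‖Q‖ := by
      rw [norm_neg]
      nlinarith [mul_nonneg (sq_nonneg u) hQ.le]
    have k : ∀ a c : ℂ, ‖a / N Q t p‖ ≤ 2 * u → ‖c‖ ≤ 5 * u ^ 2 * ‖Q‖ →
        ‖a * c / N Q t p‖ ≤ 400 * u ^ 5 * ‖Q‖ := by
      intro a c ha hc
      have e : a * c / N Q t p = a / N Q t p * c := by ring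
      rw [e, norm_mul]
      have := cmp 10 3 (by norm_num) (by norm_num) (by norm_num)
      calc _ ≤ 2 * u * (5 * u ^ 2 * ‖Q‖) := by gcongr
        _ = 10 * u ^ 3 * ‖Q‖ := by ring
        _ ≤ _ := by gcongr
    have hx := xN t p ht hp
    have hy := yN t p ht hp
    intro i j
    fin_cases i <;> fin_cases j
    · exact k _ _ hx w1
    · have e : Dm Q t p 0 1 = t.2.1 * -(step Q t p).1 / N Q t p := by
        have : Dm Q t p 0 1 = -(t.2.1 * (step Q t p).1) / N Q t p := rfl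
        rw [this]; ring
      show ‖Dm Q t p 0 1‖ ≤ _
      rw [e]
      exact k _ _ hy s1'
    · have e : Dm Q t p 1 0 = t.1 * -(step Q t p).2 / N Q t p := by
        have : Dm Q t p 1 0 = -(t.1 * (step Q t p).2) / N Q t p := rfl
        rw [this]; ring
      show ‖Dm Q t p 1 0‖ ≤ _
      rw [e]
      exact k _ _ hx s2'
    · exact k _ _ hy w2
  · -- KD
    intro t p ht hp hx1 hy1
    have b := B t p ht hp
    have hN := N0 t p ht hp
    have hM1 := Mt_one t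
    have hx := norm_nonneg t.1
    have hy := norm_nonneg t.2.1
    have hMe : Mt t = 1 + ‖t.1‖ + ‖t.2.1‖ := rfl
    have hn0 : 0 < ‖t.1 + t.2.1 - 2‖ := by
      have := b.n_ge
      by_contra h
      push Not at h
      nlinarith
    have hn : t.1 + t.2.1 - 2 ≠ 0 := norm_pos_iff.1 hn0
    have w0 : ‖(t.1 * t.2.1 - 1) / (t.1 + t.2.1 - 2)‖ ≤ 1 - η := by
      rw [norm_div, div_le_iff₀ hn0]
      exact (ht.2.2.2.resolve_left hx1).resolve_left hy1
    have e : K Q t p 0 0 = (t.1 * t.2.1 - 1) / (t.1 + t.2.1 - 2) +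
        ((p.1 * (t.1 * t.2.1 * (1 + p.2) - t.1) + p.2 * (t.1 * t.2.1 - t.2.1)) / N Q t p +
        (t.1 * t.2.1 - t.1 - t.2.1 + 1) / N Q t p *
          ((t.1 + t.2.1 - 2 - N Q t p) / (t.1 + t.2.1 - 2))) := by
      have e1 : K Q t p 0 0 = 1 + X t p * Y t p / N Q t p := rfl
      have e2 : X t p * Y t p = (t.1 - 1) * (t.2.1 - 1) +
          (p.1 * (t.1 * t.2.1 * (1 + p.2) - t.1) + p.2 * (t.1 * t.2.1 - t.2.1)) := by
        rw [X, Y]; ring
      rw [e1, e2]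
      field_simp
      ring
    have hB : ‖1 + p.2‖ ≤ 2 := by
      have := norm_add_le (1 : ℂ) p.2
      rw [norm_one] at this
      linarith [b.b_one]
    have g1 : ‖(p.1 * (t.1 * t.2.1 * (1 + p.2) - t.1) + p.2 * (t.1 * t.2.1 - t.2.1)) / N Q t p‖ ≤
        2 * u * (20 * u ^ 2 * ‖Q‖) := by
      refine div_le' hM1 ?_ b.N_ge
      refine (norm_add_le _ _).trans ?_
      have h5 : ‖t.1 * t.2.1 * (1 + p.2) - t.1‖ ≤ 3 * Mt t := by
        have f1 := norm_sub_le (t.1 * t.2.1 * (1 + p.2)) t.1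
        have f2 : ‖t.1 * t.2.1 * (1 + p.2)‖ ≤ Mt t * 2 := by
          rw [norm_mul]
          gcongr
          exact b.xy_le
        rw [hMe] at f2 ⊢
        linarith
      have h6 : ‖t.1 * t.2.1 - t.2.1‖ ≤ 2 * Mt t := by
        have f1 := norm_sub_le (t.1 * t.2.1) t.2.1
        have f2 := b.xy_le
        rw [hMe] at f2 ⊢
        linarith
      rw [norm_mul, norm_mul]
      calc _ ≤ 4 * u ^ 2 * ‖Q‖ * (3 * Mt t) + 4 * u ^ 2 * ‖Q‖ * (2 * Mt t) := by
            gcongr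
            · exact b.a_le
            · exact b.b_le
        _ = _ := by ring
    have g2 : ‖(t.1 * t.2.1 - t.1 - t.2.1 + 1) / N Q t p‖ ≤ 4 * u := by
      refine ZN t p ht hp _ ?_
      have f1 := norm_add_le (t.1 * t.2.1 - t.1 - t.2.1) 1
      have f2 := norm_sub_le (t.1 * t.2.1 - t.1) t.2.1
      have f3 := norm_sub_le (t.1 * t.2.1) t.1
      have f4 := b.xy_le
      rw [norm_one] at f1
      rw [hMe] at f4 ⊢
      linarith
    have g3 : ‖(t.1 + t.2.1 - 2 - N Q t p) / (t.1 + t.2.1 - 2)‖ ≤ 2 * u * (6 * u ^ 2 * ‖Q‖) := by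
      refine div_le' hM1 (A := 6 * u ^ 2 * ‖Q‖) ?_ ?_
      · rw [norm_sub_rev]
        exact b.dif
      · have := b.n_ge
        nlinarith
    have g4 : ‖(t.1 * t.2.1 - t.1 - t.2.1 + 1) / N Q t p *
          ((t.1 + t.2.1 - 2 - N Q t p) / (t.1 + t.2.1 - 2))‖ ≤
        4 * u * (2 * u * (6 * u ^ 2 * ‖Q‖)) := by
      rw [norm_mul]
      gcongr
    have g5 : 2 * u * (20 * u ^ 2 * ‖Q‖) + 4 * u * (2 * u * (6 * u ^ 2 * ‖Q‖)) ≤ η / 2 := by
      have f1 : 2 * u * (20 * u ^ 2 * ‖Q‖) + 4 * u * (2 * u * (6 * u ^ 2 * ‖Q‖)) =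
          (η * u) * (2 * u * (20 * u ^ 2 * ‖Q‖)) + (η * u) * (4 * u * (2 * u * (6 * u ^ 2 * ‖Q‖))) := by
        rw [hη]; ring
      have f2 : (η * u) * (2 * u * (20 * u ^ 2 * ‖Q‖)) +
          (η * u) * (4 * u * (2 * u * (6 * u ^ 2 * ‖Q‖))) =
          η * (40 * (u ^ 4 * ‖Q‖) + 48 * (u ^ 5 * ‖Q‖)) := by ring
      rw [f1, f2]
      have := mono 4 (by norm_num)
      have f3 : 40 * (u ^ 4 * ‖Q‖) + 48 * (u ^ 5 * ‖Q‖) ≤ 1 / 2 := by linarith
      have := mul_le_mul_of_nonneg_left f3 h0.le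
      linarith
    have g6 : (400 * u ^ 5)⁻¹ ≤ η / 2 := by
      rw [inv_le_iff_one_le_mul₀ (by positivity)]
      have f1 : η / 2 * (400 * u ^ 5) = 200 * (η * u) * u ^ 4 := by ring
      rw [f1, hη]
      have := one_le_pow₀ hu1 (n := 4)
      linarith
    rw [e]
    refine (norm_add_le _ _).trans ?_
    have g7 := norm_add_le
      ((p.1 * (t.1 * t.2.1 * (1 + p.2) - t.1) + p.2 * (t.1 * t.2.1 - t.2.1)) / N Q t p)
      ((t.1 * t.2.1 - t.1 - t.2.1 + 1) / N Q t p *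
          ((t.1 + t.2.1 - 2 - N Q t p) / (t.1 + t.2.1 - 2)))
    linarith

end Pool.Agent.FB.U5
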