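import Mathlib
import Pool.Agent.FB.U5.Defs
import Pool.Agent.FB.TOP

/-!
# FB/U5, module TOP: the bracket of a closed 4-braid as a sum of two traces, for every `A`
-/

set_option autoImplicit false

namespace Pool.Agent.FB.U5

open LaurentPolynomial Pool.RU Matrix

/-! ### the value of `A` -/

/-- the loop value -/
private noncomputable def UT_dl (A : ℂ) : ℂ := -A ^ 2 - A⁻¹ ^ 2

/-- the weight -/
private noncomputable def UT_q (A : ℂ) : ℂ := -A⁻¹ ^ 4

/-- `1 + A ^ (-2 ε) δ = q ^ ε` -/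
private theorem UT_one_add {A : ℂ} (hA : A ≠ 0) (ε : ℤˣ) :
    1 + A ^ (-2 * (ε : ℤ)) * UT_dl A = UT_q A ^ (ε : ℤ) := by
  unfold UT_dl UT_q
  rcases Int.units_eq_one_or ε with rfl | rfl
  · have e1 : A ^ (-2 * ((1 : ℤˣ) : ℤ)) = (A ^ 2)⁻¹ := by
      rw [Units.val_one, mul_one, _root_.zpow_neg]
      norm_cast
    rw [e1, Units.val_one, zpow_one]
    field_simp
    ring
  · have e1 : A ^ (-2 * ((-1 : ℤˣ) : ℤ)) = A ^ 2 := by
      norm_num
    rw [e1]
    have e2 : (-A⁻¹ ^ 4 : ℂ) ^ ((-1 : ℤˣ) : ℤ) = -A ^ 4 := by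
      rw [Units.val_neg, Units.val_one, _root_.zpow_neg_one, inv_pow, inv_neg, inv_inv]
    rw [e2]
    field_simp
    ring

section

variable {R : Type} [Ring R] [Algebra ℂ R]

private theorem UT_fac_eq {A : ℂ} (hA : A ≠ 0) (e : Fin 3 → R) (i : Fin 3) (ε : ℤˣ) :
    TOP_fac A e (i, ε) = A ^ (ε : ℤ) • (1 + A ^ (-2 * (ε : ℤ)) • e i) := by
  unfold TOP_fac
  rw [smul_add, smul_smul, ← zpow_add₀ hA]
  congr 3
  ring

/-- the block factor of a syllable -/
private noncomputable def UT_blk (A : ℂ) (e : Fin 3 → R) (i : Fin 3) (a : ℤ) : R :=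
  1 + ((UT_q A ^ a - 1) / UT_dl A) • e i

private theorem UT_syllable {A : ℂ} (hA : A ≠ 0) (hδ : UT_dl A ≠ 0) (e : Fin 3 → R)
    (he : ∀ i, e i * e i = UT_dl A • e i) (i : Fin 3) (a : ℤ) :
    ((syllable i a).map (TOP_fac A e)).prod = A ^ a • UT_blk A e i a := by
  unfold syllable
  set ε : ℤˣ := if 0 ≤ a then 1 else -1 with hε
  have h1 : (ε : ℤ) * (a.natAbs : ℤ) = a := by
    rw [hε]
    split_ifs with h
    · rw [Units.val_one, one_mul]
      omega
    · rw [Units.val_neg, Units.val_one]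
      omega
  rw [List.map_replicate, List.prod_replicate, UT_fac_eq hA, smul_pow, TOP_pow _ _ hδ _ (he i),
    UT_one_add hA, ← zpow_natCast, ← _root_.zpow_mul, h1, ← zpow_natCast,
    ← _root_.zpow_mul, h1]
  rfl

private theorem UT_word {A : ℂ} (hA : A ≠ 0) (hδ : UT_dl A ≠ 0) (e : Fin 3 → R)
    (he : ∀ i, e i * e i = UT_dl A • e i) (β : List (ℤ × ℤ × ℤ)) :
    ((word β).map (TOP_fac A e)).prod = A ^ TOP_tot β •
      (β.map fun t => UT_blk A e 1 t.2.2 * (UT_blk A e 0 t.1 * UT_blk A e 2 t.2.1)).prod := by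
  induction β with
  | nil => simp [word, TOP_tot]
  | cons t β ih =>
    have h1 : word (t :: β) = syllable 1 t.2.2 ++ (syllable 0 t.1 ++ syllable 2 t.2.1) ++ word β := by
      unfold word
      rw [List.map_cons, List.flatten_cons]
    have h2 : TOP_tot (t :: β) = (t.2.2 + (t.1 + t.2.1)) + TOP_tot β := by
      unfold TOP_tot
      rw [List.map_cons, List.sum_cons]
    rw [h1, h2, List.map_append, List.map_append, List.map_append, List.prod_append,
      List.prod_append, List.prod_append, ih, UT_syllable hA hδ e he, UT_syllable hA hδ e he,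
      UT_syllable hA hδ e he, List.map_cons, List.prod_cons, zpow_add₀ hA,
      zpow_add₀ hA, zpow_add₀ hA]
    simp only [smul_mul_smul_comm]

end

/-! ### the theorem -/

private theorem UT_val_T (A : ℂˣ) (k : ℤ) : ev A (T k) = (A : ℂ) ^ k := by
  unfold ev
  rw [LaurentPolynomial.eval₂_T, Units.val_zpow_eq_zpow_val]

private theorem UT_ev (A : ℂˣ) (f : ℤ[T;T⁻¹]) :
    ev A f = LaurentPolynomial.eval₂ (Int.castRingHom ℂ) A f := rfl

private theorem UT_bracket (A : ℂˣ) (w : List (Fin 3 × ℤˣ)) :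
    UT_dl A * ev A (trivialClosure.insert w).bracket =
      TOP_S A w fun u => UT_dl A ^ TOP_L u := by
  rw [← TOP_S_state]
  have h1 : ev A (trivialClosure.insert w).bracket =
      ∑ s : Fin (0 + w.length) → Bool, (∏ x, (A : ℂ) ^ (if s x then
        ((trivialClosure.insert w).kind x : ℤ) else -((trivialClosure.insert w).kind x : ℤ))) *
          UT_dl A ^ ((trivialClosure.insert w).curves (ways s) - 1) := by
    unfold Diagram.bracket
    have hd : ev A (-T 2 - T (-2)) = UT_dl A := by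
      rw [UT_ev, map_sub, map_neg, ← UT_ev, ← UT_ev, UT_val_T, UT_val_T, _root_.zpow_neg]
      unfold UT_dl
      rw [inv_pow]
      norm_cast
    rw [UT_ev, map_sum]
    refine Finset.sum_congr rfl fun s _ => ?_
    rw [map_mul, map_pow, map_prod, ← UT_ev, hd]
    congr 1
    refine Finset.prod_congr rfl fun x _ => ?_
    rw [← UT_ev, UT_val_T]
  rw [h1, Finset.mul_sum]
  refine Finset.sum_congr rfl fun s _ => ?_
  rw [← TOP_curves w s, mul_left_comm, ← pow_succ',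
    Nat.sub_add_cancel (curves_pos (trivialClosure.insert w) (ways s))]

private theorem UT_EE (A : ℂˣ) (hδ : UT_dl A ≠ 0) (β : List (ℤ × ℤ × ℤ)) :
    UT_dl A * ev A (closure β).bracket =
      (A : ℂ) ^ TOP_tot β * EE (UT_dl A ^ 2) (β.map (wts (UT_q A))) := by
  have hA : (A : ℂ) ≠ 0 := A.ne_zero
  set δ : ℂ := UT_dl A with hδd
  have e0 : (fun u => δ ^ TOP_L u) = fun u => (δ ^ 4 - 3 * δ ^ 2 + 1) * TOP_one u +
      ((δ ^ 2 - 1) * TOP_tr (TOP_E3 δ) u + TOP_tr (TOP_E2 δ) u) := by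
    funext u
    exact TOP_curves_eq δ hδ u
  -- the three parts
  have p1 : TOP_S A (word β) TOP_one = (A : ℂ) ^ TOP_tot β := by
    have h2 := TOP_S_rep A (fun _ => (0 : ℂ)) (word β) LinearMap.id
    have h3 := UT_word hA hδ (fun _ => (0 : ℂ)) (fun i => by simp) β
    have h4 : (fun u : List (Fin 3) => (LinearMap.id : ℂ →ₗ[ℂ] ℂ) (u.map fun _ => (0 : ℂ)).prod) =
        TOP_one := rfl
    rw [h4] at h2
    rw [h2, LinearMap.id_apply, h3]
    have h5 : ∀ t : ℤ × ℤ × ℤ, UT_blk (A : ℂ) (fun _ => (0 : ℂ)) 1 t.2.2 *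
        (UT_blk (A : ℂ) (fun _ => (0 : ℂ)) 0 t.1 * UT_blk (A : ℂ) (fun _ => (0 : ℂ)) 2 t.2.1) =
          1 := by
      intro t
      simp [UT_blk]
    simp only [h5]
    simp
  have p3 : TOP_S A (word β) (TOP_tr (TOP_E3 δ)) = (A : ℂ) ^ TOP_tot β *
      ((β.map (wts (UT_q A))).map (T3 (δ ^ 2))).prod.trace := by
    have h2 := TOP_S_rep A (TOP_E3 δ) (word β) (Matrix.traceLinearMap (Fin 3) ℂ ℂ)
    have h3 := UT_word hA hδ (TOP_E3 δ) (TOP_TL3 δ hδ).1 β
    have h4 : (fun u : List (Fin 3) => Matrix.traceLinearMap (Fin 3) ℂ ℂ (u.map (TOP_E3 δ)).prod) =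
        TOP_tr (TOP_E3 δ) := rfl
    rw [h4] at h2
    rw [h2, h3, map_smul, smul_eq_mul, Matrix.traceLinearMap_apply, List.map_map]
    congr 4
    funext t
    unfold T3 UT_blk
    simp only [Function.comp_apply, wts]
    ext a b
    fin_cases a <;> fin_cases b <;>
      simp [TOP_E3, Matrix.mul_apply, Fin.sum_univ_three, Matrix.diagonal, ← hδd] <;>
      field_simp <;> ring
  have p2 : TOP_S A (word β) (TOP_tr (TOP_E2 δ)) = (A : ℂ) ^ TOP_tot β *
      ((β.map (wts (UT_q A))).map (T2 (δ ^ 2))).prod.trace := by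
    have h2 := TOP_S_rep A (TOP_E2 δ) (word β) (Matrix.traceLinearMap (Fin 2) ℂ ℂ)
    have h3 := UT_word hA hδ (TOP_E2 δ) (TOP_TL2 δ hδ).1 β
    have h4 : (fun u : List (Fin 3) => Matrix.traceLinearMap (Fin 2) ℂ ℂ (u.map (TOP_E2 δ)).prod) =
        TOP_tr (TOP_E2 δ) := rfl
    rw [h4] at h2
    rw [h2, h3, map_smul, smul_eq_mul, Matrix.traceLinearMap_apply, List.map_map]
    congr 4
    funext t
    unfold T2 UT_blk
    simp only [Function.comp_apply, wts]
    ext a b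
    fin_cases a <;> fin_cases b <;>
      simp [TOP_E2, Matrix.mul_apply, Fin.sum_univ_two, Matrix.diagonal, ← hδd] <;>
      field_simp <;> ring
  unfold closure
  rw [UT_bracket, ← hδd, e0, TOP_S_add, TOP_S_mul, TOP_S_add, TOP_S_mul, p1, p2, p3]
  unfold EE
  ring

/-- **Module U5_TOP** -/
theorem thm_Top : St_Top := by
  intro β o _
  refine ⟨TOP_tot β + -3 * (closure β).writhe o, fun A hA => ?_⟩
  have hA0 : (A : ℂ) ≠ 0 := A.ne_zero
  have hδ : UT_dl A = -((A : ℂ) ^ 2 + (A : ℂ)⁻¹ ^ 2) := by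
    unfold UT_dl
    ring
  have hδ0 : UT_dl A ≠ 0 := by
    rw [hδ]
    exact neg_ne_zero.2 hA
  have hδ2 : UT_dl A ^ 2 = ((A : ℂ) ^ 2 + (A : ℂ)⁻¹ ^ 2) ^ 2 := by
    rw [hδ]
    ring
  have h2 := congrArg norm (UT_EE A hδ0 β)
  rw [norm_mul, norm_mul, norm_zpow, hδ2] at h2
  have h3 : ‖ev A ((closure β).normalized o)‖ =
      ‖(A : ℂ)‖ ^ (-3 * (closure β).writhe o) * ‖ev A (closure β).bracket‖ := by
    unfold Diagram.normalized
    rw [UT_ev, map_mul, map_mul, norm_mul, norm_mul, ← UT_ev, ← UT_ev, ← UT_ev, UT_val_T,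
      norm_zpow]
    have h4 : ‖ev A (C (((-1 : ℤˣ) ^ (closure β).writhe o : ℤˣ) : ℤ))‖ = 1 := by
      rw [UT_ev, LaurentPolynomial.eval₂_C]
      rcases Int.units_eq_one_or ((-1 : ℤˣ) ^ (closure β).writhe o) with h | h
      · rw [h]
        simp
      · rw [h]
        simp
    rw [h4, one_mul]
  have h5 : ‖UT_dl (A : ℂ)‖ = ‖(A : ℂ) ^ 2 + (A : ℂ)⁻¹ ^ 2‖ := by
    rw [hδ, norm_neg]
  rw [h5] at h2
  have h6 : UT_q (A : ℂ) = -(A : ℂ)⁻¹ ^ 4 := rfl
  rw [h6] at h2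
  rw [h3, zpow_add₀ (norm_ne_zero_iff.2 hA0), mul_assoc (‖(A : ℂ)‖ ^ TOP_tot β),
    mul_left_comm (‖(A : ℂ)‖ ^ TOP_tot β), ← h2]
  ring

end Pool.Agent.FB.U5
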