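import Pool.Agent.FB.U5.Defs2
import Pool.Agent.FB.U5.TOP
import Pool.Agent.FB.U5.DEG

/-!
# FB/U5, module SUM: a value of the bracket bounds the coefficient sum from below (helper56)
-/

set_option autoImplicit false

open Matrix LaurentPolynomial Pool.RU

namespace Pool.Agent.FB.U5

/-! ### products of matrices with bounded entries -/

private theorem SUM_mul {n : ℕ} {A B : Matrix (Fin n) (Fin n) ℂ} {a b : ℝ}
    (hA : ∀ i j, ‖A i j‖ ≤ a) (hB : ∀ i j, ‖B i j‖ ≤ b) (ha : 0 ≤ a) (i j : Fin n) :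
    ‖(A * B) i j‖ ≤ n * (a * b) := by
  rw [Matrix.mul_apply]
  refine (norm_sum_le _ _).trans ?_
  refine (Finset.sum_le_card_nsmul _ _ (a * b) fun k _ => ?_).trans_eq ?_
  · rw [norm_mul]
    exact mul_le_mul (hA i k) (hB k j) (norm_nonneg _) ha
  · rw [Finset.card_univ, Fintype.card_fin, nsmul_eq_mul]

/-- the exponent of growth of a block -/
private def SUM_ex (t : ℤ × ℤ × ℤ) : ℤ := max 0 t.2.2 + max 0 (max t.1 t.2.1)

private theorem SUM_top_cons (t : ℤ × ℤ × ℤ) (β : List (ℤ × ℤ × ℤ)) :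
    top (t :: β) = SUM_ex t + top β := by
  unfold top SUM_ex
  rw [List.map_cons, List.sum_cons]

private theorem SUM_ex_nonneg (t : ℤ × ℤ × ℤ) : 0 ≤ SUM_ex t :=
  add_nonneg (le_max_left _ _) (le_max_left _ _)

private theorem SUM_top_nonneg (β : List (ℤ × ℤ × ℤ)) : 0 ≤ top β := by
  induction β with
  | nil => exact le_refl _
  | cons t β ih =>
    rw [SUM_top_cons]
    exact add_nonneg (SUM_ex_nonneg t) ih

private theorem SUM_prod {n : ℕ} (hn : (n : ℝ) ≤ 3)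
    (T : ℂ × ℂ × ℂ → Matrix (Fin n) (Fin n) ℂ) (u : ℂ) (hu : 1 ≤ ‖u‖) (β : List (ℤ × ℤ × ℤ))
    (h : ∀ t ∈ β, ∀ i j, ‖T (wts u t) i j‖ ≤ 24 * ‖u‖ ^ SUM_ex t) (i j : Fin n) :
    ‖(((β.map (wts u)).map T).prod) i j‖ ≤ 72 ^ β.length * ‖u‖ ^ top β := by
  have hu0 : ‖u‖ ≠ 0 := (lt_of_lt_of_le one_pos hu).ne'
  induction β generalizing i j with
  | nil =>
    rw [List.map_nil, List.map_nil, List.prod_nil, Matrix.one_apply]
    have h1 : top [] = 0 := rfl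
    rw [h1, zpow_zero, List.length_nil, pow_zero, mul_one]
    split_ifs
    · rw [norm_one]
    · rw [norm_zero]
      exact zero_le_one
  | cons t β ih =>
    rw [List.map_cons, List.map_cons, List.prod_cons, SUM_top_cons, zpow_add₀ hu0,
      List.length_cons, pow_succ]
    have h0 : (0 : ℝ) ≤ 24 * ‖u‖ ^ SUM_ex t := by positivity
    refine (SUM_mul (h t List.mem_cons_self) (fun i j => ih
      (fun s hs => h s (List.mem_cons_of_mem _ hs)) i j) h0 i j).trans ?_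
    have h1 : (n : ℝ) * (24 * ‖u‖ ^ SUM_ex t * (72 ^ β.length * ‖u‖ ^ top β)) ≤
        3 * (24 * ‖u‖ ^ SUM_ex t * (72 ^ β.length * ‖u‖ ^ top β)) :=
      mul_le_mul_of_nonneg_right hn (by positivity)
    refine h1.trans (le_of_eq ?_)
    ring

/-! ### the entries of a block -/

private theorem SUM_ent {Q z c δ : ℂ} (hQ : 1 ≤ ‖Q‖) (hc : ‖c‖ ≤ ‖Q‖ + 2) (hδ : ‖δ‖ ≤ 1) :
    ‖δ + (z - 1) / Q * c‖ ≤ 4 * (1 + ‖z‖) := by
  have hQ0 : 0 < ‖Q‖ := lt_of_lt_of_le one_pos hQ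
  have h1 : ‖(z - 1) / Q * c‖ ≤ (1 + ‖z‖) * 3 := by
    rw [norm_mul, norm_div]
    have h2 : ‖z - 1‖ ≤ 1 + ‖z‖ := by
      have := norm_sub_le z 1
      rw [norm_one] at this
      linarith
    have h3 : ‖c‖ ≤ 3 * ‖Q‖ := by linarith
    calc ‖z - 1‖ / ‖Q‖ * ‖c‖ ≤ (1 + ‖z‖) / ‖Q‖ * (3 * ‖Q‖) := by gcongr
      _ = (1 + ‖z‖) * 3 := by field_simp
  have h2 := norm_add_le δ ((z - 1) / Q * c)
  have h3 := norm_nonneg z
  linarith

private theorem SUM_T3 (Q : ℂ) (hQ : 1 ≤ ‖Q‖) (t : ℂ × ℂ × ℂ) (i j : Fin 3) :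
    ‖T3 Q t i j‖ ≤ 4 * (1 + ‖t.2.2‖) * (1 + ‖t.1‖ + ‖t.2.1‖) := by
  unfold T3
  rw [Matrix.mul_diagonal, Matrix.add_apply, Matrix.smul_apply, smul_eq_mul, norm_mul]
  have hx := norm_nonneg t.1
  have hy := norm_nonneg t.2.1
  refine mul_le_mul (SUM_ent hQ ?_ ?_) ?_ (norm_nonneg _) (by positivity)
  · have h1 : ‖Q - 2‖ ≤ ‖Q‖ + 2 := by
      have := norm_sub_le Q 2
      rw [Complex.norm_ofNat] at this
      exact this
    fin_cases i <;> fin_cases j <;>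
      simp only [Matrix.of_apply, Matrix.cons_val', Matrix.cons_val_zero, Matrix.cons_val_one,
        Matrix.cons_val, Fin.zero_eta, Fin.mk_one, Fin.reduceFinMk, Fin.isValue, norm_one] <;>
      first
        | exact h1
        | linarith
  · rw [Matrix.one_apply]
    split_ifs
    · rw [norm_one]
    · rw [norm_zero]
      exact zero_le_one
  · fin_cases j <;>
      simp only [Matrix.cons_val_zero, Matrix.cons_val_one,
        Matrix.cons_val, Fin.zero_eta, Fin.mk_one, Fin.reduceFinMk, Fin.isValue, norm_one] <;>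
      linarith

private theorem SUM_T2 (Q : ℂ) (hQ : 1 ≤ ‖Q‖) (t : ℂ × ℂ × ℂ)
    (ht : ‖t.1 * t.2.1‖ ≤ 1 + ‖t.1‖ + ‖t.2.1‖) (i j : Fin 2) :
    ‖T2 Q t i j‖ ≤ 4 * (1 + ‖t.2.2‖) * (1 + ‖t.1‖ + ‖t.2.1‖) := by
  unfold T2
  rw [Matrix.mul_diagonal, Matrix.add_apply, Matrix.smul_apply, smul_eq_mul, norm_mul]
  have hx := norm_nonneg t.1
  have hy := norm_nonneg t.2.1
  refine mul_le_mul (SUM_ent hQ ?_ ?_) ?_ (norm_nonneg _) (by positivity)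
  · have h1 : ‖Q - 1‖ ≤ ‖Q‖ + 2 := by
      have := norm_sub_le Q 1
      rw [norm_one] at this
      linarith
    fin_cases i <;> fin_cases j <;>
      simp only [Matrix.of_apply, Matrix.cons_val', Matrix.cons_val_zero, Matrix.cons_val_one,
        Fin.zero_eta, Fin.mk_one, Fin.isValue, norm_one] <;>
      first
        | exact h1
        | linarith
  · rw [Matrix.one_apply]
    split_ifs
    · rw [norm_one]
    · rw [norm_zero]
      exact zero_le_one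
  · fin_cases j <;>
      simp only [Matrix.cons_val_zero, Matrix.cons_val_one,
        Fin.zero_eta, Fin.mk_one, Fin.isValue, norm_one] <;>
      first
        | exact ht
        | linarith

/-- the weights of a block -/
private theorem SUM_wts (u : ℂ) (hu : 1 ≤ ‖u‖) (t : ℤ × ℤ × ℤ) :
    4 * (1 + ‖(wts u t).2.2‖) * (1 + ‖(wts u t).1‖ + ‖(wts u t).2.1‖) ≤
      24 * ‖u‖ ^ SUM_ex t := by
  have hu0 : ‖u‖ ≠ 0 := (lt_of_lt_of_le one_pos hu).ne'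
  have h1 : 1 + ‖(wts u t).2.2‖ ≤ 2 * ‖u‖ ^ (max 0 t.2.2) := by
    have e1 : ‖(wts u t).2.2‖ = ‖u‖ ^ t.2.2 := norm_zpow _ _
    have e2 : ‖u‖ ^ t.2.2 ≤ ‖u‖ ^ (max 0 t.2.2) := zpow_le_zpow_right₀ hu (le_max_right _ _)
    have e3 : 1 ≤ ‖u‖ ^ (max 0 t.2.2) := by
      have := zpow_le_zpow_right₀ hu (le_max_left 0 t.2.2)
      rwa [zpow_zero] at this
    rw [e1]
    linarith
  have h2 : 1 + ‖(wts u t).1‖ + ‖(wts u t).2.1‖ ≤ 3 * ‖u‖ ^ (max 0 (max t.1 t.2.1)) := by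
    have e1 : ‖(wts u t).1‖ = ‖u‖ ^ t.1 := norm_zpow _ _
    have e1' : ‖(wts u t).2.1‖ = ‖u‖ ^ t.2.1 := norm_zpow _ _
    have e2 : ‖u‖ ^ t.1 ≤ ‖u‖ ^ (max 0 (max t.1 t.2.1)) :=
      zpow_le_zpow_right₀ hu ((le_max_left _ _).trans (le_max_right _ _))
    have e2' : ‖u‖ ^ t.2.1 ≤ ‖u‖ ^ (max 0 (max t.1 t.2.1)) :=
      zpow_le_zpow_right₀ hu ((le_max_right _ _).trans (le_max_right _ _))
    have e3 : 1 ≤ ‖u‖ ^ (max 0 (max t.1 t.2.1)) := by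
      have := zpow_le_zpow_right₀ hu (le_max_left 0 (max t.1 t.2.1))
      rwa [zpow_zero] at this
    rw [e1, e1']
    linarith
  have h3 : (1 + ‖(wts u t).2.2‖) * (1 + ‖(wts u t).1‖ + ‖(wts u t).2.1‖) ≤
      2 * ‖u‖ ^ (max 0 t.2.2) * (3 * ‖u‖ ^ (max 0 (max t.1 t.2.1))) :=
    mul_le_mul h1 h2 (by positivity) (by positivity)
  unfold SUM_ex
  rw [zpow_add₀ hu0]
  linarith

private theorem SUM_xy (u : ℂ) (hu : 1 ≤ ‖u‖) (t : ℤ × ℤ × ℤ) (ht : ¬ (0 < t.1 ∧ 0 < t.2.1)) :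
    ‖(wts u t).1 * (wts u t).2.1‖ ≤ 1 + ‖(wts u t).1‖ + ‖(wts u t).2.1‖ := by
  have e1 : ‖(wts u t).1‖ = ‖u‖ ^ t.1 := norm_zpow _ _
  have e2 : ‖(wts u t).2.1‖ = ‖u‖ ^ t.2.1 := norm_zpow _ _
  have hx : 0 ≤ ‖u‖ ^ t.1 := by positivity
  have hy : 0 ≤ ‖u‖ ^ t.2.1 := by positivity
  rw [norm_mul, e1, e2]
  by_cases h : 0 < t.1
  · have h1 : t.2.1 ≤ 0 := by
      by_contra hcon
      exact ht ⟨h, not_le.1 hcon⟩
    have h2 : ‖u‖ ^ t.2.1 ≤ 1 := by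
      have := zpow_le_zpow_right₀ hu h1
      rwa [zpow_zero] at this
    nlinarith
  · have h2 : ‖u‖ ^ t.1 ≤ 1 := by
      have := zpow_le_zpow_right₀ hu (not_lt.1 h)
      rwa [zpow_zero] at this
    nlinarith

/-- the growth of the bracket -/
private theorem SUM_grow (u : ℂ) (hu : 16 ≤ ‖u‖) (β : List (ℤ × ℤ × ℤ))
    (hβ : ∀ t ∈ β, ¬ (0 < t.1 ∧ 0 < t.2.1)) :
    1 ≤ ‖2 - u - u⁻¹‖ ∧ ‖EE (2 - u - u⁻¹) (β.map (wts u))‖ ≤
      22 * 72 ^ β.length * ‖u‖ ^ (top β + 2) := by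
  have hu1 : 1 ≤ ‖u‖ := by linarith
  have hu0 : 0 < ‖u‖ := by linarith
  set Q : ℂ := 2 - u - u⁻¹ with hQdef
  set R : ℝ := ‖u‖ with hR
  have hinv : ‖u⁻¹‖ ≤ 1 := by
    rw [norm_inv]
    exact inv_le_one_of_one_le₀ hu1
  have hQ1 : 1 ≤ ‖Q‖ := by
    have h1 : u = 2 - u⁻¹ - Q := by
      rw [hQdef]
      ring
    have h2 : ‖u‖ ≤ ‖(2 : ℂ) - u⁻¹‖ + ‖Q‖ := by
      conv_lhs => rw [h1]
      exact norm_sub_le _ _
    have h3 := norm_sub_le (2 : ℂ) u⁻¹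
    rw [Complex.norm_ofNat] at h3
    linarith
  have hQ2 : ‖Q‖ ≤ 2 * R := by
    have h2 := norm_sub_le (2 - u) u⁻¹
    have h3 := norm_sub_le (2 : ℂ) u
    rw [Complex.norm_ofNat] at h3
    linarith
  refine ⟨hQ1, ?_⟩
  have h3 : ∀ i j, ‖(((β.map (wts u)).map (T3 Q)).prod) i j‖ ≤ 72 ^ β.length * R ^ top β :=
    SUM_prod (by norm_num) (T3 Q) u hu1 β fun t _ i j =>
      (SUM_T3 Q hQ1 (wts u t) i j).trans (SUM_wts u hu1 t)
  have h2 : ∀ i j, ‖(((β.map (wts u)).map (T2 Q)).prod) i j‖ ≤ 72 ^ β.length * R ^ top β :=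
    SUM_prod (by norm_num) (T2 Q) u hu1 β fun t ht i j =>
      (SUM_T2 Q hQ1 (wts u t) (SUM_xy u hu1 t (hβ t ht)) i j).trans (SUM_wts u hu1 t)
  set B : ℝ := 72 ^ β.length * R ^ top β with hB
  have hB1 : 1 ≤ B := by
    have e1 : (1 : ℝ) ≤ 72 ^ β.length := one_le_pow₀ (by norm_num)
    have e2 : 1 ≤ R ^ top β := by
      have := zpow_le_zpow_right₀ hu1 (SUM_top_nonneg β)
      rwa [zpow_zero] at this
    rw [hB]
    nlinarith
  have t3 : ‖(((β.map (wts u)).map (T3 Q)).prod).trace‖ ≤ 3 * B := by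
    rw [Matrix.trace_fin_three]
    refine (norm_add₃_le).trans ?_
    have := h3 0 0
    have := h3 1 1
    have := h3 2 2
    linarith
  have t2 : ‖(((β.map (wts u)).map (T2 Q)).prod).trace‖ ≤ 2 * B := by
    rw [Matrix.trace_fin_two]
    refine (norm_add_le _ _).trans ?_
    have := h2 0 0
    have := h2 1 1
    linarith
  have g1 : ‖Q ^ 2 - 3 * Q + 1‖ ≤ 4 * R ^ 2 + 6 * R + 1 := by
    refine (norm_add_le _ _).trans ?_
    rw [norm_one]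
    have g2 := norm_sub_le (Q ^ 2) (3 * Q)
    rw [norm_pow, norm_mul, Complex.norm_ofNat] at g2
    have g3 : ‖Q‖ ^ 2 ≤ (2 * R) ^ 2 := by gcongr
    nlinarith
  have g4 : ‖(1 - Q) * (((β.map (wts u)).map (T3 Q)).prod).trace‖ ≤ (1 + 2 * R) * (3 * B) := by
    rw [norm_mul]
    have g5 := norm_sub_le (1 : ℂ) Q
    rw [norm_one] at g5
    exact mul_le_mul (by linarith) t3 (norm_nonneg _) (by positivity)
  have hfin : ‖EE Q (β.map (wts u))‖ ≤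
      (4 * R ^ 2 + 6 * R + 1) + (1 + 2 * R) * (3 * B) + 2 * B := by
    unfold EE
    refine (norm_add_le _ _).trans (add_le_add ((norm_sub_le _ _).trans (add_le_add g1 g4)) t2)
  have hR1 : R ≤ R ^ 2 := by nlinarith
  have hRR : 1 ≤ R ^ 2 := by nlinarith
  rw [zpow_add₀ hu0.ne']
  have e2 : R ^ (2 : ℤ) = R ^ 2 := by norm_cast
  rw [e2]
  have hgoal : (4 * R ^ 2 + 6 * R + 1) + (1 + 2 * R) * (3 * B) + 2 * B ≤ 22 * B * R ^ 2 := by
    have a1 : R ^ 2 ≤ B * R ^ 2 := by nlinarith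
    have a2 : R * B ≤ R ^ 2 * B := by nlinarith
    have a3 : B ≤ R ^ 2 * B := by nlinarith
    nlinarith
  refine hfin.trans (hgoal.trans (le_of_eq ?_))
  rw [hB]
  ring

/-! ### the theorem -/

/-- the parameters `A` and `u` -/
private theorem SUM_par (β : List (ℤ × ℤ × ℤ)) (ε : ℤ) (hε : ε = 1 ∨ ε = -1) (A : ℂˣ) (u : ℂ)
    (hu : u = (-(A : ℂ)⁻¹ ^ 4) ^ ε) :
    ((A : ℂ) ^ 2 + (A : ℂ)⁻¹ ^ 2) ^ 2 = 2 - u - u⁻¹ ∧
      β.map (wts (-(A : ℂ)⁻¹ ^ 4)) = (β.map (sc ε)).map (wts u) ∧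
      ‖u‖ = ‖(A : ℂ)‖ ^ (-4 * ε) := by
  have hA : (A : ℂ) ≠ 0 := A.ne_zero
  have hεε : ε * ε = 1 := by
    rcases hε with rfl | rfl <;> norm_num
  refine ⟨?_, ?_, ?_⟩
  · rcases hε with rfl | rfl
    · rw [hu, zpow_one]
      field_simp
      ring
    · rw [hu, _root_.zpow_neg, zpow_one]
      field_simp
      ring
  · rw [List.map_map]
    refine List.map_congr_left fun t _ => ?_
    unfold wts sc
    simp only [Function.comp_apply]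
    rw [hu, ← _root_.zpow_mul, ← _root_.zpow_mul, ← _root_.zpow_mul, ← mul_assoc, ← mul_assoc,
      ← mul_assoc, hεε, one_mul, one_mul, one_mul]
  · rw [hu, norm_zpow, norm_neg, norm_pow, norm_inv, _root_.zpow_mul]
    congr 1
    rw [inv_pow, _root_.zpow_neg]
    norm_cast

theorem thm_Sum : St_Sum := by
  intro β o ho ε hε hβ
  obtain ⟨e, he⟩ := thm_Top β o ho
  set V := (closure β).normalized o with hV
  set β' := β.map (sc ε) with hβ'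
  have hβ1 : ∀ t ∈ β', ¬ (0 < t.1 ∧ 0 < t.2.1) := by
    intro t ht
    obtain ⟨s, hs, rfl⟩ := List.mem_map.1 ht
    exact hβ s hs
  set d : ℤ := e - 4 * ε * (top β' + 2) with hd
  have hnorm : ∀ z : ℂ, ‖z ^ 2‖ = ‖z‖ ^ 2 := fun z => norm_pow z 2
  -- the growth of the bracket
  have hgrow : ∀ A : ℂˣ, 16 ≤ ‖(A : ℂ)‖ ^ (-4 * ε) →
      ‖ev A V‖ ≤ 22 * 72 ^ β'.length * ‖(A : ℂ)‖ ^ d := by
    intro A hA
    have hA0 : 0 < ‖(A : ℂ)‖ := norm_pos_iff.2 A.ne_zero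
    obtain ⟨h1, h2, h3⟩ := SUM_par β ε hε A _ rfl
    set u : ℂ := (-(A : ℂ)⁻¹ ^ 4) ^ ε with hu
    rw [← h3] at hA
    obtain ⟨h4, h5⟩ := SUM_grow u hA β' hβ1
    have h6 : 1 ≤ ‖(A : ℂ) ^ 2 + (A : ℂ)⁻¹ ^ 2‖ := by
      rw [← h1, hnorm] at h4
      by_contra hcon
      push Not at hcon
      have := norm_nonneg ((A : ℂ) ^ 2 + (A : ℂ)⁻¹ ^ 2)
      nlinarith
    have h7 : (A : ℂ) ^ 2 + (A : ℂ)⁻¹ ^ 2 ≠ 0 := by
      intro h0
      rw [h0, norm_zero] at h6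
      linarith
    have h8 := he A h7
    rw [h1, h2] at h8
    have h9 : ‖ev A V‖ ≤ ‖(A : ℂ)‖ ^ e * ‖EE (2 - u - u⁻¹) (β'.map (wts u))‖ := by
      rw [← h8]
      exact le_mul_of_one_le_left (norm_nonneg _) h6
    refine h9.trans ((mul_le_mul_of_nonneg_left h5 (by positivity)).trans (le_of_eq ?_))
    rw [h3, ← _root_.zpow_mul, hd, sub_eq_add_neg, zpow_add₀ hA0.ne']
    have e1 : -4 * ε * (top β' + 2) = -(4 * ε * (top β' + 2)) := by ring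
    rw [e1]
    ring
  -- the bound by the coefficients
  have hcoef : ∀ A : ℂˣ, 1 ≤ ‖(A : ℂ)‖ ^ (-4 * ε) →
      ‖ev A V‖ ≤ SPT.coeffSum V * ‖(A : ℂ)‖ ^ d := by
    have hD := thm_Deg V d (22 * 72 ^ β'.length)
    rcases hε with h | h
    · have hc : ∀ a : ℝ, 0 < a → a ^ (-4 * ε) = (a ^ 4)⁻¹ := by
        intro a _
        rw [h, mul_one, _root_.zpow_neg]
        norm_cast
      intro A hA
      have hA0 : 0 < ‖(A : ℂ)‖ := norm_pos_iff.2 A.ne_zero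
      refine hD.2 (fun A' hA' => hgrow A' ?_) A ?_
      · have hA0' : 0 < ‖(A' : ℂ)‖ := norm_pos_iff.2 A'.ne_zero
        rw [hc _ hA0', le_inv_comm₀ (by norm_num) (by positivity)]
        calc ‖(A' : ℂ)‖ ^ 4 ≤ (1 / 2) ^ 4 := by gcongr
          _ = 16⁻¹ := by norm_num
      · rw [hc _ hA0] at hA
        by_contra hcon
        push Not at hcon
        have h1 : 1 < ‖(A : ℂ)‖ ^ 4 := one_lt_pow₀ hcon (by norm_num)
        exact absurd hA (not_le.2 (inv_lt_one_of_one_lt₀ h1))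
    · have hc : ∀ a : ℝ, a ^ (-4 * ε) = a ^ 4 := by
        intro a
        rw [h]
        norm_num
      intro A hA
      have hA0 : 0 < ‖(A : ℂ)‖ := norm_pos_iff.2 A.ne_zero
      refine hD.1 (fun A' hA' => hgrow A' ?_) A ?_
      · rw [hc]
        calc (16 : ℝ) = 2 ^ 4 := by norm_num
          _ ≤ ‖(A' : ℂ)‖ ^ 4 := by gcongr
      · rw [hc] at hA
        by_contra hcon
        push Not at hcon
        have h1 : ‖(A : ℂ)‖ ^ 4 < 1 := pow_lt_one₀ hA0.le hcon (by norm_num)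
        linarith
  -- the conclusion
  intro u hu hQ
  have hu0 : u ≠ 0 := by
    intro h
    rw [h, norm_zero] at hu
    linarith
  obtain ⟨a, ha⟩ := IsAlgClosed.exists_pow_nat_eq (-u ^ (-ε)) (n := 4) (by norm_num)
  have ha0 : a ≠ 0 := by
    rintro rfl
    rw [zero_pow (by norm_num)] at ha
    exact (neg_ne_zero.2 (zpow_ne_zero _ hu0)) ha.symm
  set A : ℂˣ := Units.mk0 a ha0 with hAdef
  have hAa : (A : ℂ) = a := rfl
  have hεε : ε * ε = 1 := by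
    rcases hε with rfl | rfl <;> norm_num
  have hw : -(A : ℂ)⁻¹ ^ 4 = u ^ ε := by
    rw [hAa, inv_pow, ha, inv_neg, neg_neg, _root_.zpow_neg, inv_inv]
  have huA : u = (-(A : ℂ)⁻¹ ^ 4) ^ ε := by
    rw [hw, ← _root_.zpow_mul, hεε, zpow_one]
  obtain ⟨h1, h2, h3⟩ := SUM_par β ε hε A u huA
  have hA0 : 0 < ‖(A : ℂ)‖ := norm_pos_iff.2 A.ne_zero
  have h7 : (A : ℂ) ^ 2 + (A : ℂ)⁻¹ ^ 2 ≠ 0 := by
    intro h0
    rw [h0] at h1
    apply hQ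
    rw [← h1]
    ring
  have h8 := he A h7
  rw [h1, h2] at h8
  have hs : Real.sqrt ‖2 - u - u⁻¹‖ = ‖(A : ℂ) ^ 2 + (A : ℂ)⁻¹ ^ 2‖ := by
    rw [← h1, hnorm, Real.sqrt_sq (norm_nonneg _)]
  have h9 := hcoef A (by rw [← h3]; exact hu)
  rw [hs, h3, ← _root_.zpow_mul]
  have h10 : ‖EE (2 - u - u⁻¹) (β'.map (wts u))‖ =
      ‖(A : ℂ)‖ ^ (-e) * (‖(A : ℂ) ^ 2 + (A : ℂ)⁻¹ ^ 2‖ * ‖ev A V‖) := by
    rw [h8, ← mul_assoc, ← zpow_add₀ hA0.ne', neg_add_cancel, zpow_zero, one_mul]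
  rw [h10]
  have h11 : ‖(A : ℂ)‖ ^ (-e) * (‖(A : ℂ) ^ 2 + (A : ℂ)⁻¹ ^ 2‖ * ‖ev A V‖) ≤
      ‖(A : ℂ)‖ ^ (-e) * (‖(A : ℂ) ^ 2 + (A : ℂ)⁻¹ ^ 2‖ *
        (SPT.coeffSum V * ‖(A : ℂ)‖ ^ d)) := by gcongr
  refine h11.trans (le_of_eq ?_)
  have e1 : -4 * ε * (top β' + 2) = -e + d := by
    rw [hd]
    ring
  rw [e1, zpow_add₀ hA0.ne']
  ring

end Pool.Agent.FB.U5
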