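import Mathlib
import Pool.Agent.FB.U5.Defs2

/-!
# FB/U5, module TURNS: the turns of a closed 4-braid word (helper91)
-/

set_option autoImplicit false

namespace Pool.Agent.FB.U5

/-- the exponents of `σ₂` at the turns of a word which is continued by `e` -/
def TURNS_chc : List (ℤ × ℤ × ℤ) → ℤ × ℤ × ℤ → List ℤ
  | [], _ => []
  | s :: L, e => (if IsTurn s (L.headD e) then [(L.headD e).2.2] else []) ++ TURNS_chc L e

private theorem zip_chc (e : ℤ × ℤ × ℤ) : ∀ l : List (ℤ × ℤ × ℤ),
    ((l.zip (l.tail ++ [e])).filter fun q => IsTurn q.1 q.2).map (fun q => q.2.2.2) =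
      TURNS_chc l e
  | [] => by simp [TURNS_chc]
  | [s] => by
    by_cases h : IsTurn s e <;> simp [TURNS_chc, h]
  | s :: s' :: L => by
    have ih := zip_chc e (s' :: L)
    rw [TURNS_chc, ← ih]
    by_cases h : IsTurn s s' <;> simp [h]

private theorem TB_cons (s : ℤ × ℤ × ℤ) (L : List (ℤ × ℤ × ℤ)) :
    TB (s :: L) = TURNS_chc (s :: L) s := by
  rw [← zip_chc]
  simp [TB, pairs]

private theorem TB_rot {l l' : List (ℤ × ℤ × ℤ)} (h : l ~r l') : (TB l).Perm (TB l') := by
  obtain ⟨n, rfl⟩ := h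
  unfold TB
  refine List.Perm.map _ (List.Perm.filter _ ?_)
  have : pairs (l.rotate n) = (pairs l).rotate n := by
    unfold pairs
    rw [List.rotate_rotate, Nat.add_comm, ← List.rotate_rotate]
    simp only [List.zip]
    rw [List.zipWith_rotate_distrib _ _ _ _ (by simp)]
  rw [this]
  exact (List.rotate_perm _ _).symm

/-- every block is of exactly one kind -/
private def Gd (t : ℤ × ℤ × ℤ) : Prop := (t.1 = 0 ∧ t.2.1 ≠ 0) ∨ (t.1 ≠ 0 ∧ t.2.1 = 0)

private theorem turn_iff {s t : ℤ × ℤ × ℤ} (hs : Gd s) (ht : Gd t) :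
    IsTurn s t ↔ ¬ (s.1 = 0 ↔ t.1 = 0) := by
  unfold IsTurn
  unfold Gd at hs ht
  tauto

private theorem chc_pos {e : ℤ × ℤ × ℤ} (he : Gd e) (heA : e.1 ≠ 0) : ∀ l : List (ℤ × ℤ × ℤ),
    (∀ t ∈ l, Gd t) → ∀ hl : l ≠ [], (l.getLast hl).1 = 0 → 1 ≤ (TURNS_chc l e).length
  | [], _, hl, _ => absurd rfl hl
  | [s], hg, _, hB => by
    have hs : Gd s := hg s (by simp)
    have : IsTurn s e := (turn_iff hs he).2 (by
      have : s.1 = 0 := by simpa using hB
      tauto)
    simp [TURNS_chc, this]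
  | s :: s' :: L, hg, _, hB => by
    have ih := chc_pos he heA (s' :: L) (fun t ht => hg t (List.mem_cons_of_mem _ ht)) (by simp)
      (by simpa using hB)
    rw [TURNS_chc, List.length_append]
    omega

private theorem chc_B {e : ℤ × ℤ × ℤ} (he : Gd e) (heA : e.1 ≠ 0) :
    ∀ (L : List (ℤ × ℤ × ℤ)) (s : ℤ × ℤ × ℤ), (∀ t ∈ s :: L, Gd t) → s.1 = 0 →
    ((s :: L).getLast (by simp)).1 = 0 →
    ((∀ t ∈ s :: L, t.1 = 0) ∧ TURNS_chc (s :: L) e = [e.2.2]) ∨
      2 ≤ (TURNS_chc (s :: L) e).length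
  | [], s, hg, hs, _ => by
    left
    have : IsTurn s e := (turn_iff (hg s (by simp)) he).2 (by tauto)
    refine ⟨by simpa using hs, by simp [TURNS_chc, this]⟩
  | s' :: L, s, hg, hs, hB => by
    have hg' : ∀ t ∈ s' :: L, Gd t := fun t ht => hg t (List.mem_cons_of_mem _ ht)
    have hgs : Gd s := hg s (by simp)
    have hgs' : Gd s' := hg s' (by simp)
    have hB' : ((s' :: L).getLast (by simp)).1 = 0 := by simpa using hB
    by_cases h : s'.1 = 0
    · have hn : ¬ IsTurn s s' := fun h' => (turn_iff hgs hgs').1 h' (by tauto)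
      have e1 : TURNS_chc (s :: s' :: L) e = TURNS_chc (s' :: L) e := by
        rw [TURNS_chc]
        simp [hn]
      rw [e1]
      rcases chc_B he heA L s' hg' h hB' with ⟨h1, h2⟩ | h1
      · left
        refine ⟨fun t ht => ?_, h2⟩
        rcases List.mem_cons.1 ht with rfl | ht
        · exact hs
        · exact h1 t ht
      · exact Or.inr h1
    · right
      have hn : IsTurn s s' := (turn_iff hgs hgs').2 (by tauto)
      have h1 := chc_pos he heA (s' :: L) hg' (by simp) hB'
      rw [TURNS_chc, List.length_append]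
      simp only [List.headD_cons, hn, if_true, List.length_cons, List.length_nil]
      omega

private theorem chc_A {e : ℤ × ℤ × ℤ} (he : Gd e) (heA : e.1 ≠ 0) :
    ∀ (L : List (ℤ × ℤ × ℤ)) (s : ℤ × ℤ × ℤ), (∀ t ∈ s :: L, Gd t) → s.1 ≠ 0 →
    ((s :: L).getLast (by simp)).1 = 0 →
    (∃ P t R, s :: L = s :: P ++ t :: R ∧ (∀ u ∈ s :: P, u.1 ≠ 0) ∧ (∀ u ∈ t :: R, u.1 = 0) ∧
      TURNS_chc (s :: L) e = [t.2.2, e.2.2]) ∨ 3 ≤ (TURNS_chc (s :: L) e).length
  | [], s, _, hs, hB => absurd (by simpa using hB) hs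
  | s' :: L, s, hg, hs, hB => by
    have hg' : ∀ t ∈ s' :: L, Gd t := fun t ht => hg t (List.mem_cons_of_mem _ ht)
    have hgs : Gd s := hg s (by simp)
    have hgs' : Gd s' := hg s' (by simp)
    have hB' : ((s' :: L).getLast (by simp)).1 = 0 := by simpa using hB
    by_cases h : s'.1 = 0
    · have hn : IsTurn s s' := (turn_iff hgs hgs').2 (by tauto)
      have e1 : TURNS_chc (s :: s' :: L) e = s'.2.2 :: TURNS_chc (s' :: L) e := by
        rw [TURNS_chc]
        simp [hn]
      rw [e1]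
      rcases chc_B he heA L s' hg' h hB' with ⟨h1, h2⟩ | h1
      · left
        refine ⟨[], s', L, by simp, fun u hu => ?_, h1, by rw [h2]⟩
        rw [List.mem_singleton.1 hu]
        exact hs
      · right
        rw [List.length_cons]
        omega
    · have hn : ¬ IsTurn s s' := fun h' => (turn_iff hgs hgs').1 h' (by tauto)
      have e1 : TURNS_chc (s :: s' :: L) e = TURNS_chc (s' :: L) e := by
        rw [TURNS_chc]
        simp [hn]
      rw [e1]
      rcases chc_A he heA L s' hg' h hB' with ⟨P, t, R, h1, h2, h3, h4⟩ | h1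
      · left
        refine ⟨s' :: P, t, R, by rw [h1]; simp, fun u hu => ?_, h3, h4⟩
        rcases List.mem_cons.1 hu with rfl | hu
        · exact hs
        · exact h2 u hu
      · exact Or.inr h1

/-- a word with blocks of both kinds can be rotated to begin with the first kind and to end with
the second kind -/
private theorem rot_AB (β : List (ℤ × ℤ × ℤ)) (hA : ∃ t ∈ β, t.1 ≠ 0) (hB : ∃ t ∈ β, t.1 = 0) :
    ∃ a L, β ~r a :: L ∧ a.1 ≠ 0 ∧ ((a :: L).getLast (by simp)).1 = 0 := by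
  obtain ⟨b, hb, hb0⟩ := hB
  obtain ⟨X, Y, rfl⟩ := List.append_of_mem hb
  have r1 : X ++ b :: Y ~r (Y ++ X) ++ [b] := by
    have : X ++ b :: Y = (X ++ [b]) ++ Y := by simp
    rw [this, List.append_assoc]
    have h2 : (X ++ [b]) ++ Y ~r Y ++ (X ++ [b]) := by
      refine ⟨(X ++ [b]).length, ?_⟩
      rw [List.rotate_append_length_eq]
    simpa using h2
  obtain ⟨a, ha, ha0⟩ := hA
  have ha' : a ∈ (Y ++ X) ++ [b] := r1.perm.mem_iff.1 ha
  set γ := (Y ++ X) ++ [b] with hγ
  have key : ∀ γ' : List (ℤ × ℤ × ℤ), (∃ a ∈ γ', a.1 ≠ 0) →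
      ∃ U c V, γ' = U ++ c :: V ∧ (∀ u ∈ U, u.1 = 0) ∧ c.1 ≠ 0 := by
    intro γ'
    induction γ' with
    | nil => rintro ⟨a, ha, _⟩; simp at ha
    | cons x l ih =>
      rintro ⟨a, ha, ha0⟩
      by_cases hx : x.1 = 0
      · rcases List.mem_cons.1 ha with rfl | ha
        · exact absurd hx ha0
        · obtain ⟨U, c, V, h1, h2, h3⟩ := ih ⟨a, ha, ha0⟩
          refine ⟨x :: U, c, V, by rw [h1]; simp, fun u hu => ?_, h3⟩
          rcases List.mem_cons.1 hu with rfl | hu
          · exact hx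
          · exact h2 u hu
      · exact ⟨[], x, l, by simp, by simp, hx⟩
  obtain ⟨U, c, V, h1, h2, h3⟩ := key γ ⟨a, ha', ha0⟩
  refine ⟨c, V ++ U, ?_, h3, ?_⟩
  · refine r1.trans ?_
    rw [h1]
    have : U ++ c :: V ~r c :: V ++ U := ⟨U.length, by rw [List.rotate_append_length_eq]⟩
    simpa using this
  · rcases List.eq_nil_or_concat U with hU | ⟨U', u, hU⟩
    · subst hU
      have h4 : γ.getLast (by simp [hγ]) = b := by simp [hγ]
      have h5 : (c :: (V ++ [])).getLast (by simp) = b := by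
        rw [← h4]
        congr 1
        rw [h1]
        simp
      rw [h5]
      exact hb0
    · subst hU
      have : (c :: (V ++ (U' ++ [u]))).getLast (by simp) = u := by
        rw [List.getLast_cons (by simp), List.getLast_append_of_ne_nil _ (by simp)]
        simp
      have h6 : u.1 = 0 := h2 u (by simp)
      simpa [this] using h6

theorem thm_Turns : St_Turns := by
  intro β h1 h2 hA hC
  have hg : ∀ t ∈ β, Gd t := by
    intro t ht
    have := h1 t ht
    have := h2 t ht
    unfold Gd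
    tauto
  have hB : ∃ t ∈ β, t.1 = 0 := by
    obtain ⟨t, ht, h⟩ := hC
    refine ⟨t, ht, ?_⟩
    have := hg t ht
    unfold Gd at this
    tauto
  obtain ⟨a, L, hr, ha, hb⟩ := rot_AB β hA hB
  have hg' : ∀ t ∈ a :: L, Gd t := fun t ht => hg t (hr.perm.mem_iff.2 ht)
  have hTB := TB_rot hr
  rw [TB_cons] at hTB
  rcases chc_A (hg' a (by simp)) ha L a hg' ha hb with ⟨P, t, R, e1, e2, e3, e4⟩ | h
  · right
    rw [e4] at hTB
    refine ⟨a, t, P, R, by rw [← e1]; exact hr, fun u hu => ?_, e3,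
      hTB.trans (List.Perm.swap _ _ _)⟩
    have h5 : u ∈ a :: L := by rw [e1]; exact List.mem_append_left _ hu
    have := hg' u h5
    have := e2 u hu
    unfold Gd at *
    tauto
  · left
    rw [hTB.length_eq]
    exact h

end Pool.Agent.FB.U5
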