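import Pool.Agent.FB.U5.ASM
import Pool.Agent.FB.U5.LOC
import Pool.Agent.FB.U5.PROD
import Pool.Agent.FB.U5.TURNS
import Pool.Agent.FB.U5.SUM

/-!
# FB/U5/FIN: closed 4-braids, an absolute constant
-/

set_option autoImplicit false

open Matrix

namespace Pool.Agent.FB.U5

theorem dbl_sum (c : ℝ) (hc : 0 ≤ c) (β : List (ℤ × ℤ × ℤ)) :
    (β.map fun s => if s.1 ≠ 0 ∧ s.2.1 ≠ 0 then -c else 0).sum ≤ 0 ∧
    ((∃ s ∈ β, s.1 ≠ 0 ∧ s.2.1 ≠ 0) →
      (β.map fun s => if s.1 ≠ 0 ∧ s.2.1 ≠ 0 then -c else 0).sum ≤ -c) := by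
  induction β with
  | nil => simp
  | cons t β ih =>
    obtain ⟨h1, h2⟩ := ih
    rw [List.map_cons, List.sum_cons]
    by_cases ht : t.1 ≠ 0 ∧ t.2.1 ≠ 0
    · rw [if_pos ht]
      exact ⟨by linarith, fun _ => by linarith⟩
    · rw [if_neg ht]
      refine ⟨by linarith, fun h => ?_⟩
      obtain ⟨s, hs, hs'⟩ := h
      rcases List.mem_cons.1 hs with rfl | hs
      · exact absurd hs' ht
      · have := h2 ⟨s, hs, hs'⟩
        linarith

/-- the sizes of the weights -/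
theorem gg_ge {u : ℂ} (h1 : 1 ≤ ‖u‖) (β : List (ℤ × ℤ × ℤ)) :
    ‖u‖ ^ top β ≤ gg (β.map (wts u)) ∧ 1 ≤ ‖u‖ ^ top β := by
  have hu : ‖u‖ ≠ 0 := by linarith
  have mx : ∀ a : ℤ, ‖u‖ ^ max 0 a ≤ 1 + ‖u ^ a‖ := by
    intro a
    rcases le_total 0 a with h | h
    · rw [max_eq_right h, norm_zpow]
      linarith
    · rw [max_eq_left h, zpow_zero]
      have := norm_nonneg (u ^ a)
      linarith
  induction β with
  | nil => simp [top, gg]
  | cons t β ih =>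
    have e1 : top (t :: β) = (max 0 t.2.2 + max 0 (max t.1 t.2.1)) + top β := by
      unfold top
      rw [List.map_cons, List.sum_cons]
    have e2 : gg ((t :: β).map (wts u)) =
        (1 + ‖u ^ t.2.2‖) * (1 + ‖u ^ t.1‖ + ‖u ^ t.2.1‖) * gg (β.map (wts u)) := by
      unfold gg
      rw [List.map_cons, List.map_cons, List.prod_cons]
      rfl
    have m2 : ‖u‖ ^ max 0 (max t.1 t.2.1) ≤ 1 + ‖u ^ t.1‖ + ‖u ^ t.2.1‖ := by
      have n1 := norm_nonneg (u ^ t.1)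
      have n2 := norm_nonneg (u ^ t.2.1)
      rcases le_total t.1 t.2.1 with h | h
      · rw [max_eq_right h]
        have := mx t.2.1
        linarith
      · rw [max_eq_left h]
        have := mx t.1
        linarith
    have p0 : ∀ a : ℤ, 0 < ‖u‖ ^ a := fun a => zpow_pos (by linarith) a
    rw [e1, e2, zpow_add₀ hu, zpow_add₀ hu]
    constructor
    · apply mul_le_mul _ ih.1 (p0 _).le (by positivity)
      exact mul_le_mul (mx _) m2 (p0 _).le (by positivity)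
    · have q1 : 1 ≤ ‖u‖ ^ max 0 t.2.2 := one_le_zpow₀ h1 (le_max_left _ _)
      have q2 : 1 ≤ ‖u‖ ^ max 0 (max t.1 t.2.1) := one_le_zpow₀ h1 (le_max_left _ _)
      exact one_le_mul_of_one_le_of_one_le (one_le_mul_of_one_le_of_one_le q1 q2) ih.2

theorem adm_list {u : ℂ} {N : ℤ} (hN0 : 0 < N) (h1 : 1 ≤ ‖u‖) (hN : 100 ≤ ‖u‖ ^ N)
    {β : List (ℤ × ℤ × ℤ)} (h : Ok N β) : ∀ t ∈ β.map (wts u), Adm (2 / 5) t := by
  intro t ht
  obtain ⟨s, hs, rfl⟩ := List.mem_map.1 ht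
  exact adm_wts hN0 h1 hN (h s hs)

/-- a double block occurs -/
theorem main1 {κ C C' c Q₁ : ℝ} (hC' : 1 ≤ C') (hc : 0 < c)
    (hCost : ∀ Q : ℂ, ‖Q‖ < Q₁ → Good (2 / 5) κ C Q → ∀ L : List (ℂ × ℂ × ℂ), L ≠ [] →
      (∀ t ∈ L, Adm (2 / 5) t) → ∀ p, Near κ Q p → orb Q L p = p →
      ‖(KK Q L p).trace‖ ≤ Real.exp (cost C' c Q L) * (1 + C' * ‖Q‖ ^ 2))
    {Q u : ℂ} (G : Good (2 / 5) κ C Q) (hQ1 : ‖Q‖ < Q₁)
    (hsm : (1 + C' + 8 * C) * ‖Q‖ ≤ (1 - Real.exp (-c)) / 2)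
    {N : ℤ} (hN0 : 0 < N) (hu : 1 < ‖u‖) (hN : 100 ≤ ‖u‖ ^ N) {β : List (ℤ × ℤ × ℤ)} (h : Ok N β)
    (hd : ∃ s ∈ β, s.1 ≠ 0 ∧ s.2.1 ≠ 0) (ht : ((TB β).map fun b => gt C' Q (u ^ b)).sum ≤ 0) :
    (1 - Real.exp (-c)) / 2 * gg (β.map (wts u)) ≤
      (‖EE Q (β.map (wts u))‖ + 2) * (C * ‖Q‖) ^ β.length := by
  have hA := adm_list hN0 hu.le hN h
  have hβ : β ≠ [] := by
    obtain ⟨s, hs, -⟩ := hd
    exact List.ne_nil_of_mem hs
  have hL : β.map (wts u) ≠ [] := by simpa using hβ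
  have hsmall := G.small
  have hpos := G.pos
  have hC := G.one_le
  have hE : Real.exp (-c) ≤ 1 := by
    rw [Real.exp_le_one_iff]
    linarith
  have hcost : cost C' c Q (β.map (wts u)) ≤ -c := by
    rw [cost_word C' c Q u hu]
    have := (dbl_sum c hc.le β).2 hd
    linarith
  have h1 := EE_lower thm_Prod G hL hA (r := Real.exp (-c) * (1 + C' * ‖Q‖ ^ 2))
    (fun p hp ho => (hCost Q hQ1 G _ hL hA p hp ho).trans (by
      gcongr))
  rw [List.length_map] at h1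
  refine le_trans ?_ h1
  apply mul_le_mul_of_nonneg_right _ (gg_nonneg _)
  have hm : 1 ≤ β.length := List.length_pos_iff.2 hβ
  have h2 : (2 * C * ‖Q‖) ^ β.length ≤ (2 * C * ‖Q‖) ^ 1 :=
    pow_le_pow_of_le_one (by positivity) (by linarith) hm
  rw [pow_one] at h2
  have h3 : 1 - ‖Q‖ ≤ ‖1 - Q‖ := by
    have := norm_sub_norm_le (1 : ℂ) Q
    rw [norm_one] at this
    exact this
  have hq1 : ‖Q‖ ≤ 1 := by nlinarith
  have h4 : Real.exp (-c) * (1 + C' * ‖Q‖ ^ 2) ≤ Real.exp (-c) + C' * ‖Q‖ := by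
    have h5 : C' * ‖Q‖ ^ 2 ≤ C' * ‖Q‖ := by
      have : ‖Q‖ ^ 2 ≤ ‖Q‖ := by nlinarith
      gcongr
    have h6 : 0 ≤ C' * ‖Q‖ ^ 2 := by positivity
    have h7 : Real.exp (-c) * (C' * ‖Q‖ ^ 2) ≤ 1 * (C' * ‖Q‖ ^ 2) := by gcongr
    nlinarith
  linarith

/-- no double block -/
theorem main2 {κ C C' c Q₁ : ℝ} (hC' : 1 ≤ C') (hc : 0 < c)
    (hCost : ∀ Q : ℂ, ‖Q‖ < Q₁ → Good (2 / 5) κ C Q → ∀ L : List (ℂ × ℂ × ℂ), L ≠ [] →
      (∀ t ∈ L, Adm (2 / 5) t) → ∀ p, Near κ Q p → orb Q L p = p →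
      ‖(KK Q L p).trace‖ ≤ Real.exp (cost C' c Q L) * (1 + C' * ‖Q‖ ^ 2))
    {Q u : ℂ} (G : Good (2 / 5) κ C Q) (hQ1 : ‖Q‖ < Q₁)
    (hsm1 : (2 + C') * ‖Q‖ ≤ 1 / 100) (hsm2 : 1600 * C ^ 2 * ‖Q‖ ≤ 1)
    (hre : Q.re ≤ 61 / 100 * ‖Q‖)
    {N : ℤ} (hN0 : 0 < N) (hu : 1 < ‖u‖) (hN : 100 ≤ ‖u‖ ^ N) {β : List (ℤ × ℤ × ℤ)} (h : Ok N β)
    (hm : 2 ≤ β.length)
    (ht : ((TB β).map fun b => gt C' Q (u ^ b)).sum ≤ -(109 / 100) * ‖Q‖) :
    3 / 10 * ‖Q‖ * gg (β.map (wts u)) ≤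
      (‖EE Q (β.map (wts u))‖ + 2) * (C * ‖Q‖) ^ β.length := by
  have hA := adm_list hN0 hu.le hN h
  have hL : β.map (wts u) ≠ [] := by
    intro h0
    rw [List.map_eq_nil_iff] at h0
    rw [h0] at hm
    simp at hm
  have hsmall := G.small
  have hpos := G.pos
  have hC := G.one_le
  set q := ‖Q‖ with hq
  have hcost : cost C' c Q (β.map (wts u)) ≤ -(109 / 100) * q := by
    rw [cost_word C' c Q u hu]
    have := (dbl_sum c hc.le β).1
    linarith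
  have h1 := EE_lower thm_Prod G hL hA (r := Real.exp (-(109 / 100) * q) * (1 + C' * q ^ 2))
    (fun p hp ho => (hCost Q hQ1 G _ hL hA p hp ho).trans (by
      gcongr))
  rw [List.length_map] at h1
  refine le_trans ?_ h1
  apply mul_le_mul_of_nonneg_right _ (gg_nonneg _)
  have h2 : (2 * C * q) ^ β.length ≤ (2 * C * q) ^ 2 :=
    pow_le_pow_of_le_one (by positivity) (by linarith) hm
  have h2' : 4 * (2 * C * q) ^ 2 ≤ 1 / 100 * q := by
    have : 4 * (2 * C * q) ^ 2 = (1600 * C ^ 2 * q) * (1 / 100 * q) := by ring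
    rw [this]
    have : 0 ≤ 1 / 100 * q := by positivity
    nlinarith
  have h3 : 1 - 61 / 100 * q ≤ ‖1 - Q‖ := by
    have := Complex.abs_re_le_norm (1 - Q)
    have h4 := (abs_le.1 this).2
    rw [Complex.sub_re, Complex.one_re] at h4
    linarith
  have hq1 : q ≤ 1 / 100 := by nlinarith
  have h5 : Real.exp (-(109 / 100) * q) ≤ 1 - 109 / 100 * q + 2 * q ^ 2 := by
    have e1 : 1 + 109 / 100 * q ≤ Real.exp (109 / 100 * q) := by
      have := Real.add_one_le_exp (109 / 100 * q)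
      linarith
    have e2 : Real.exp (-(109 / 100) * q) = (Real.exp (109 / 100 * q))⁻¹ := by
      rw [← Real.exp_neg]
      congr 1
      ring
    rw [e2]
    have e3 : (Real.exp (109 / 100 * q))⁻¹ ≤ (1 + 109 / 100 * q)⁻¹ :=
      inv_anti₀ (by positivity) e1
    refine e3.trans ?_
    rw [inv_le_iff_one_le_mul₀ (by positivity)]
    have e4 : 0 ≤ q ^ 2 := sq_nonneg q
    have e5 : 0 ≤ q ^ 3 := by positivity
    nlinarith
  have h6 : Real.exp (-(109 / 100) * q) * (1 + C' * q ^ 2) ≤ 1 - 108 / 100 * q := by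
    have e1 : 1 - 109 / 100 * q + 2 * q ^ 2 ≤ 1 := by nlinarith
    have e2 : 0 ≤ C' * q ^ 2 := by positivity
    calc Real.exp (-(109 / 100) * q) * (1 + C' * q ^ 2)
        ≤ (1 - 109 / 100 * q + 2 * q ^ 2) * (1 + C' * q ^ 2) := by gcongr
      _ = (1 - 109 / 100 * q + 2 * q ^ 2) + (1 - 109 / 100 * q + 2 * q ^ 2) * (C' * q ^ 2) := by ring
      _ ≤ (1 - 109 / 100 * q + 2 * q ^ 2) + 1 * (C' * q ^ 2) := by gcongr
      _ = 1 - 109 / 100 * q + ((2 + C') * q) * q := by ring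
      _ ≤ 1 - 109 / 100 * q + (1 / 100) * q := by gcongr
      _ = _ := by ring
  linarith

/-- from the bracket to the coefficients -/
theorem coeff_lower {C q c₂ R g E S T : ℝ} {m : ℕ} {N : ℕ} {c₃ : ℝ} (hN : 0 < N) (hC : 0 < C)
    (hq0 : 0 < q) (hR : R ^ 2 ≤ 3) (hT1 : 1 ≤ T) (hg : T ≤ g) (hS : 0 ≤ S) (hc₂ : 0 ≤ c₂)
    (h1 : c₂ * g ≤ (E + 2) * (C * q) ^ m) (h2 : E ≤ S * (T * R ^ 2) * Real.sqrt q)
    (h3 : 2 * (C * q) ^ m ≤ c₂ / 2) (h4 : 6 * c₃ * q ≤ c₂) (hc₃ : 0 < c₃)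
    (hq1 : 12 / (N : ℝ) ^ 2 ≤ q) (hq2 : q ≤ 600 / (N : ℝ) ^ 2) :
    3 * c₃ * ((N : ℝ) ^ 2) ^ m ≤ N * S * (600 * C) ^ m := by
  have hN' : (0 : ℝ) < N := by exact_mod_cast hN
  have hp : 0 < (C * q) ^ m := by positivity
  have hsq := Real.sq_sqrt hq0.le
  have hs0 := Real.sqrt_pos.2 hq0
  set w := Real.sqrt q with hw
  -- divide by `T`
  have h5 : c₂ * T ≤ (S * (T * R ^ 2) * w + 2) * (C * q) ^ m := by
    calc c₂ * T ≤ c₂ * g := by gcongr
      _ ≤ (E + 2) * (C * q) ^ m := h1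
      _ ≤ _ := by gcongr
  have h6 : (S * (T * R ^ 2) * w + 2) * (C * q) ^ m ≤ T * (3 * S * w * (C * q) ^ m + c₂ / 2) := by
    have e1 : S * (T * R ^ 2) * w ≤ S * (T * 3) * w := by gcongr
    have e2 : 2 * (C * q) ^ m ≤ T * (c₂ / 2) := by
      calc 2 * (C * q) ^ m ≤ c₂ / 2 := h3
        _ = 1 * (c₂ / 2) := by ring
        _ ≤ _ := by gcongr
    have e3 : S * (T * R ^ 2) * w * (C * q) ^ m ≤ S * (T * 3) * w * (C * q) ^ m := by gcongr
    nlinarith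
  have h7 : c₂ ≤ 3 * S * w * (C * q) ^ m + c₂ / 2 := by
    have : T * c₂ ≤ T * (3 * S * w * (C * q) ^ m + c₂ / 2) := by linarith
    exact le_of_mul_le_mul_left this (by linarith)
  have h8 : c₃ * q ≤ S * w * (C * q) ^ m := by linarith
  -- divide by `w`
  have h9 : c₃ * w ≤ S * (C * q) ^ m := by
    have e1 : w * (c₃ * w) ≤ w * (S * (C * q) ^ m) := by
      calc w * (c₃ * w) = c₃ * w ^ 2 := by ring
        _ = c₃ * q := by rw [hsq]
        _ ≤ S * w * (C * q) ^ m := h8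
        _ = _ := by ring
    exact le_of_mul_le_mul_left e1 hs0
  have h10 : 3 / (N : ℝ) ≤ w := by
    rw [hw]
    apply Real.le_sqrt_of_sq_le
    refine le_trans ?_ hq1
    rw [div_pow]
    gcongr
    norm_num
  have h11 : (C * q) ^ m ≤ (600 * C) ^ m / ((N : ℝ) ^ 2) ^ m := by
    rw [← div_pow]
    gcongr
    calc C * q ≤ C * (600 / (N : ℝ) ^ 2) := by gcongr
      _ = _ := by ring
  have h12 : c₃ * (3 / (N : ℝ)) ≤ S * ((600 * C) ^ m / ((N : ℝ) ^ 2) ^ m) := by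
    calc c₃ * (3 / (N : ℝ)) ≤ c₃ * w := by gcongr
      _ ≤ S * (C * q) ^ m := h9
      _ ≤ _ := by gcongr
  have h13 : 0 < ((N : ℝ) ^ 2) ^ m := by positivity
  calc 3 * c₃ * ((N : ℝ) ^ 2) ^ m = (c₃ * (3 / (N : ℝ))) * (N * ((N : ℝ) ^ 2) ^ m) := by
        field_simp
    _ ≤ (S * ((600 * C) ^ m / ((N : ℝ) ^ 2) ^ m)) * (N * ((N : ℝ) ^ 2) ^ m) := by gcongr
    _ = _ := by field_simp

/-! ### signs -/

theorem isTurn_sc {ε : ℤ} (h : ε = 1 ∨ ε = -1) (s t : ℤ × ℤ × ℤ) :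
    IsTurn (sc ε s) (sc ε t) ↔ IsTurn s t := by
  unfold IsTurn sc
  rcases h with rfl | rfl <;> simp

theorem TB_sc {ε : ℤ} (h : ε = 1 ∨ ε = -1) (β : List (ℤ × ℤ × ℤ)) :
    TB (β.map (sc ε)) = (TB β).map fun b => ε * b := by
  unfold TB pairs
  rw [← List.map_rotate, List.zip_map]
  generalize β.zip (β.rotate 1) = P
  induction P with
  | nil => rfl
  | cons q P ih =>
    rw [List.map_cons, List.filter_cons, List.filter_cons]
    by_cases h1 : IsTurn q.1 q.2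
    · have h2 : IsTurn (Prod.map (sc ε) (sc ε) q).1 (Prod.map (sc ε) (sc ε) q).2 :=
        (isTurn_sc h q.1 q.2).2 h1
      rw [if_pos (decide_eq_true h2), if_pos (decide_eq_true h1), List.map_cons, List.map_cons,
        List.map_cons, ih]
      rfl
    · have h2 : ¬ IsTurn (Prod.map (sc ε) (sc ε) q).1 (Prod.map (sc ε) (sc ε) q).2 :=
        fun h2 => h1 ((isTurn_sc h q.1 q.2).1 h2)
      rw [if_neg (fun h3 => h2 (of_decide_eq_true h3)),
        if_neg (fun h3 => h1 (of_decide_eq_true h3)), ih]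

theorem count_sc {ε : ℤ} (h : ε = 1 ∨ ε = -1) (l : List ℤ) (hl : ∀ b ∈ l, b ≠ 0) :
    (l.map fun b => ε * b).countP (· < 0) + (l.map fun b => ε * b).countP (0 < ·) = l.length ∧
    (ε = 1 → (l.map fun b => ε * b).countP (· < 0) = l.countP (· < 0)) ∧
    (ε = -1 → (l.map fun b => ε * b).countP (· < 0) = l.countP (0 < ·)) := by
  induction l with
  | nil => simp
  | cons b l ih =>
    obtain ⟨i1, i2, i3⟩ := ih fun x hx => hl x (List.mem_cons_of_mem _ hx)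
    have hb := hl b List.mem_cons_self
    simp only [List.map_cons, List.countP_cons, List.length_cons]
    rcases h with rfl | rfl
    · have j2 := i2 rfl
      rcases lt_or_gt_of_ne hb with h1 | h1
      · have h2 : ¬ (0 < b) := by omega
        simp [h1, h2] at i1 j2 ⊢
        omega
      · have h2 : ¬ (b < 0) := by omega
        simp [h1, h2] at i1 j2 ⊢
        omega
    · have j3 := i3 rfl
      rcases lt_or_gt_of_ne hb with h1 | h1
      · have h2 : ¬ (0 < b) := by omega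
        simp [h1, h2] at i1 j3 ⊢
        omega
      · have h2 : ¬ (b < 0) := by omega
        simp [h1, h2] at i1 j3 ⊢
        omega

end Pool.Agent.FB.U5
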