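import Pool.Agent.FB.U5.FIN

/-!
# FB/U5/FIN2: closed 4-braids, an absolute constant, the theorem
-/

set_option autoImplicit false

open Matrix Pool.RU

namespace Pool.Agent.FB.U5

theorem TB_mem {β : List (ℤ × ℤ × ℤ)} {b : ℤ} (h : b ∈ TB β) : ∃ t ∈ β, t.2.2 = b := by
  unfold TB at h
  obtain ⟨q, hq, rfl⟩ := List.mem_map.1 h
  have h1 := (List.mem_filter.1 hq).1
  unfold pairs at h1
  have h2 := (List.of_mem_zip (show (q.1, q.2) ∈ β.zip (β.rotate 1) from h1)).2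
  exact ⟨q.2, List.mem_rotate.1 h2, rfl⟩

/-- the choice of the side for a word without double blocks -/
theorem side {N : ℤ} (hN : 0 < N) {β : List (ℤ × ℤ × ℤ)} (hβ : LongWord3 N β)
    (hd : ∀ t ∈ β, t.1 = 0 ∨ t.2.1 = 0) : ∃ ε : ℤ, (ε = 1 ∨ ε = -1) ∧
      2 ≤ (TB (β.map (sc ε))).countP (· < 0) ∧
      (TB (β.map (sc ε))).countP (0 < ·) ≤ (TB (β.map (sc ε))).countP (· < 0) := by
  obtain ⟨h1, h2, h3, h4, h5⟩ := hβ
  have hne : ∀ b ∈ TB β, b ≠ 0 := by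
    intro b hb h0
    obtain ⟨t, ht, e⟩ := TB_mem hb
    have := (h1 t ht).1
    rw [e, h0, abs_zero] at this
    omega
  obtain ⟨c1, c2, -⟩ := count_sc (Or.inl rfl : (1 : ℤ) = 1 ∨ (1 : ℤ) = -1) (TB β) hne
  obtain ⟨d1, -, d3⟩ := count_sc (Or.inr rfl : (-1 : ℤ) = 1 ∨ (-1 : ℤ) = -1) (TB β) hne
  have c2' := c2 rfl
  have d3' := d3 rfl
  have e0 : (TB β).countP (· < 0) + (TB β).countP (0 < ·) = (TB β).length := by
    have := (count_sc (Or.inl rfl : (1 : ℤ) = 1 ∨ (1 : ℤ) = -1) (TB β) hne).1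
    simpa using this
  -- the larger count is at least two
  have hmax : 2 ≤ (TB β).countP (· < 0) ∨ 2 ≤ (TB β).countP (0 < ·) := by
    rcases thm_Turns β (fun t ht => (h1 t ht).2.2.2) hd h2 h3 with h6 | ⟨s, t, P, R, h6, h7, h8, h9⟩
    · omega
    · have h10 := h5 s t P R h6 h7 h8
      have e1 := h9.countP_eq (fun b : ℤ => decide (b < 0))
      have e2 := h9.countP_eq (fun b : ℤ => decide (0 < b))
      rcases lt_trichotomy s.2.2 0 with a | a | a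
      · have b : t.2.2 < 0 := by
          by_contra hcon
          push Not at hcon
          nlinarith
        left
        rw [e1]
        simp [a, b]
      · rw [a, zero_mul] at h10
        exact absurd h10 (lt_irrefl _)
      · have b : 0 < t.2.2 := by
          by_contra hcon
          push Not at hcon
          nlinarith
        right
        rw [e2]
        simp [a, b]
  rcases le_total ((TB β).countP (0 < ·)) ((TB β).countP (· < 0)) with h6 | h6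
  · refine ⟨1, Or.inl rfl, ?_, ?_⟩
    · rw [TB_sc (Or.inl rfl), c2']
      omega
    · rw [TB_sc (Or.inl rfl)]
      omega
  · refine ⟨-1, Or.inr rfl, ?_, ?_⟩
    · rw [TB_sc (Or.inr rfl), d3']
      omega
    · rw [TB_sc (Or.inr rfl)]
      omega

/-- a double block: the choice of the side -/
theorem ok_sc {N : ℤ} {β : List (ℤ × ℤ × ℤ)} (hβ : LongWord3 N β) {ε : ℤ} (hε : ε = 1 ∨ ε = -1)
    (h : ∀ t ∈ β, ¬ (0 < ε * t.1 ∧ 0 < ε * t.2.1)) : Ok N (β.map (sc ε)) := by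
  intro t ht
  obtain ⟨s, hs, rfl⟩ := List.mem_map.1 ht
  obtain ⟨h1, h2, h3, h4⟩ := hβ.1 s hs
  have ab : ∀ a : ℤ, |ε * a| = |a| := by
    intro a
    rcases hε with rfl | rfl <;> simp
  have z : ∀ a : ℤ, ε * a = 0 ↔ a = 0 := by
    intro a
    rcases hε with rfl | rfl <;> simp
  show N ≤ |ε * s.2.2| ∧ (ε * s.1 = 0 ∨ N ≤ |ε * s.1|) ∧ (ε * s.2.1 = 0 ∨ N ≤ |ε * s.2.1|) ∧
    ¬ (ε * s.1 = 0 ∧ ε * s.2.1 = 0) ∧ ¬ (0 < ε * s.1 ∧ 0 < ε * s.2.1)
  rw [ab, ab, ab, z, z]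
  exact ⟨h1, h2, h3, h4, h s hs⟩

theorem coeffSum_nonneg (f : LaurentPolynomial ℤ) : 0 ≤ SPT.coeffSum f := by
  unfold SPT.coeffSum
  positivity

theorem exp5 : (100 : ℝ) ≤ Real.exp 5 := by
  have h1 := Real.exp_one_gt_d9
  have h2 : Real.exp 5 = Real.exp 1 ^ 5 := by
    rw [← Real.exp_nat_mul]
    norm_num
  rw [h2]
  have h3 : (27 / 10 : ℝ) ^ 5 ≤ Real.exp 1 ^ 5 := by
    gcongr
    linarith
  have h4 : (100 : ℝ) ≤ (27 / 10 : ℝ) ^ 5 := by norm_num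
  linarith

theorem aux_cx {C x : ℝ} (hC : 1 ≤ C) (hx : 0 < x) (h : 1600 * C ^ 2 * x ≤ 1) : C * x ≤ 1 := by
  nlinarith

theorem aux_six {c₁ c₃ x : ℝ} (h0 : 0 < c₃) (h1 : c₃ ≤ c₁ / 6) (hx : x ≤ 1) :
    6 * c₃ * x ≤ c₁ := by
  have : 6 * c₃ * x ≤ 6 * c₃ * 1 := by gcongr
  linarith

theorem aux_N {K N : ℝ} (hK : 0 < K) (h : 600 * K + 200 ≤ N) : 600 * K < N ^ 2 := by
  nlinarith

/-- **closed 4-braids, an absolute constant** -/
theorem thm_FourBraids3 : St_FourBraids3 := by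
  obtain ⟨κ, C, Q₀, hQ₀, hG⟩ := thm_Loc (2 / 5) (by norm_num) (by norm_num)
  obtain ⟨C', c, Q₁, hQ₁, hC', hc, hCost⟩ := thm_Cost (2 / 5) κ C (by norm_num)
  have hC : 1 ≤ C := by
    have h1 : ‖((Q₀ / 2 : ℝ) : ℂ)‖ = Q₀ / 2 := by
      rw [Complex.norm_real, Real.norm_of_nonneg (by linarith)]
    exact (hG ((Q₀ / 2 : ℝ) : ℂ) (by rw [h1]; linarith) (by rw [h1]; linarith)).one_le
  have hC0 : 0 < C := by linarith
  have hC'0 : 0 < C' := by linarith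
  obtain ⟨c₁, hc₁⟩ : ∃ c₁ : ℝ, c₁ = (1 - Real.exp (-c)) / 2 := ⟨_, rfl⟩
  have hc₁p : 0 < c₁ := by
    have : Real.exp (-c) < 1 := by
      rw [Real.exp_lt_one_iff]
      linarith
    rw [hc₁]
    linarith
  obtain ⟨c₃, hc₃⟩ : ∃ c₃ : ℝ, c₃ = min (c₁ / 6) (1 / 20) := ⟨_, rfl⟩
  have hc₃p : 0 < c₃ := by
    rw [hc₃]
    exact lt_min (by linarith) (by norm_num)
  have hc₃1 : c₃ ≤ c₁ / 6 := by
    rw [hc₃]
    exact min_le_left _ _
  have hc₃2 : c₃ ≤ 1 / 20 := by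
    rw [hc₃]
    exact min_le_right _ _
  obtain ⟨K, hK⟩ : ∃ K : ℝ, K = 1 / Q₀ + 1 / Q₁ + 200 * C' + (1 + C' + 8 * C) / c₁ +
    100 * (2 + C') + 1600 * C ^ 2 + 4 * C / c₁ + 1 := ⟨_, rfl⟩
  -- what a small `q` gives
  have small : ∀ q : ℝ, 0 < q → q * K < 1 → q < Q₀ ∧ q < Q₁ ∧ C' * q ≤ 1 / 200 ∧
      (1 + C' + 8 * C) * q ≤ c₁ ∧ (2 + C') * q ≤ 1 / 100 ∧ 1600 * C ^ 2 * q ≤ 1 ∧
      4 * C * q ≤ c₁ ∧ q ≤ 1 := by
    intro q hq h
    have p1 : 0 < 1 / Q₀ := by positivity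
    have p2 : 0 < 1 / Q₁ := by positivity
    have p3 : 0 < (1 + C' + 8 * C) / c₁ := by positivity
    have p4 : 0 < 4 * C / c₁ := by positivity
    have p5 : 0 < 1600 * C ^ 2 := by positivity
    have s1 : ∀ x : ℝ, x ≤ K → q * x < 1 := fun x hx =>
      lt_of_le_of_lt (mul_le_mul_of_nonneg_left hx hq.le) h
    have r1 := s1 (1 / Q₀) (by rw [hK]; linarith)
    have r2 := s1 (1 / Q₁) (by rw [hK]; linarith)
    have r3 := s1 (200 * C') (by rw [hK]; linarith)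
    have r4 := s1 ((1 + C' + 8 * C) / c₁) (by rw [hK]; linarith)
    have r5 := s1 (100 * (2 + C')) (by rw [hK]; linarith)
    have r6 := s1 (1600 * C ^ 2) (by rw [hK]; linarith)
    have r7 := s1 (4 * C / c₁) (by rw [hK]; linarith)
    have r8 := s1 1 (by rw [hK]; linarith)
    refine ⟨?_, ?_, by linarith, ?_, by linarith, by linarith, ?_, by linarith⟩
    · rw [mul_one_div, div_lt_one hQ₀] at r1
      exact r1
    · rw [mul_one_div, div_lt_one hQ₁] at r2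
      exact r2
    · rw [← mul_div_assoc, div_lt_one hc₁p] at r4
      linarith
    · rw [← mul_div_assoc, div_lt_one hc₁p] at r7
      linarith
  obtain ⟨N₀, hN₀⟩ := exists_nat_ge (600 * K + 200 + 600 * C / (3 * c₃))
  have hKp : 0 < K := by
    rw [hK]
    positivity
  have hN₀1 : 200 ≤ (N₀ : ℝ) := by
    have : 0 < 600 * C / (3 * c₃) := by positivity
    linarith
  have hN₀2 : 600 * K + 200 ≤ (N₀ : ℝ) := by
    have : 0 < 600 * C / (3 * c₃) := by positivity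
    linarith
  have hN₀3 : 600 * C / (3 * c₃) ≤ (N₀ : ℝ) := by linarith
  refine ⟨N₀, by
    have : (0 : ℝ) < N₀ := by linarith
    exact_mod_cast this, ?_⟩
  intro N hN β hβ o ho
  have hNN : (N₀ : ℝ) ≤ N := by exact_mod_cast hN
  have hN200 : (200 : ℝ) ≤ N := by linarith
  have hNp : (0 : ℝ) < N := by linarith
  have hNp' : 0 < N := by exact_mod_cast hNp
  have hNZ : (0 : ℤ) < N := by exact_mod_cast hNp'
  obtain ⟨S, hS⟩ : ∃ S : ℤ, S = SPT.coeffSum ((closure β).normalized o) := ⟨_, rfl⟩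
  have hS0 : (0 : ℝ) ≤ S := by
    rw [hS]
    exact_mod_cast coeffSum_nonneg _
  obtain ⟨m, hm⟩ : ∃ m : ℕ, m = β.length := ⟨_, rfl⟩
  have hm1 : 1 ≤ m := by
    obtain ⟨t, ht, -⟩ := hβ.2.1
    rw [hm]
    exact List.length_pos_iff.2 (List.ne_nil_of_mem ht)
  -- small `q`
  have hq600 : ∀ q : ℝ, 0 < q → q ≤ 600 / (N : ℝ) ^ 2 → q * K < 1 := by
    intro q hq h
    have h1 : 600 / (N : ℝ) ^ 2 * K < 1 := by
      rw [div_mul_eq_mul_div, div_lt_one (by positivity)]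
      exact aux_N hKp (by linarith)
    have h2 : q * K ≤ 600 / (N : ℝ) ^ 2 * K := by gcongr
    linarith
  -- from the bracket to the claim
  have fin : ∀ (ε : ℤ), (ε = 1 ∨ ε = -1) → (∀ t ∈ β, ¬ (0 < ε * t.1 ∧ 0 < ε * t.2.1)) →
      ∀ (u Q : ℂ) (c₂ : ℝ), 2 - u - u⁻¹ = Q → 1 ≤ ‖u‖ → ‖u‖ ^ 2 ≤ 3 → 0 < ‖Q‖ →
      12 / (N : ℝ) ^ 2 ≤ ‖Q‖ → ‖Q‖ ≤ 600 / (N : ℝ) ^ 2 → 0 ≤ c₂ →
      c₂ * gg ((β.map (sc ε)).map (wts u)) ≤
        (‖EE Q ((β.map (sc ε)).map (wts u))‖ + 2) * (C * ‖Q‖) ^ m →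
      2 * (C * ‖Q‖) ^ m ≤ c₂ / 2 → 6 * c₃ * ‖Q‖ ≤ c₂ →
      (N : ℤ) ^ (2 * β.length - 1) ≤ (N₀ : ℤ) ^ (2 * β.length - 1) * S := by
    intro ε hε hcls u Q c₂ hQ hu1 hu3 hQp hQ12 hQ600 hc₂ h1 h2 h3
    have hsum := thm_Sum β o ho ε hε hcls u hu1 (by
      rw [hQ]
      exact norm_pos_iff.1 hQp)
    rw [hQ, ← hS] at hsum
    obtain ⟨g1, g2⟩ := gg_ge hu1 (β.map (sc ε))
    have hpow : ‖u‖ ^ (top (β.map (sc ε)) + 2) = ‖u‖ ^ top (β.map (sc ε)) * ‖u‖ ^ 2 := by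
      rw [zpow_add₀ (by linarith)]
      norm_cast
    rw [hpow] at hsum
    have key := coeff_lower (T := ‖u‖ ^ top (β.map (sc ε))) (c₃ := c₃) hNp' hC0 hQp hu3 g2 g1 hS0
      hc₂ h1 hsum h2 h3 hc₃p hQ12 hQ600
    -- conclusion
    have k1 : ((N : ℝ) ^ 2) ^ m = N * (N : ℝ) ^ (2 * m - 1) := by
      rw [← pow_mul, ← pow_succ']
      congr 1
      omega
    rw [k1] at key
    have k2 : 3 * c₃ * (N : ℝ) ^ (2 * m - 1) ≤ S * (600 * C) ^ m := by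
      have : N * (3 * c₃ * (N : ℝ) ^ (2 * m - 1)) ≤ N * (S * (600 * C) ^ m) := by linarith
      exact le_of_mul_le_mul_left this hNp
    have k3 : (600 * C) ^ m ≤ 3 * c₃ * (N₀ : ℝ) ^ (2 * m - 1) := by
      have l1 : (600 * C / (3 * c₃)) ^ m ≤ (N₀ : ℝ) ^ m := by gcongr
      have l2 : (N₀ : ℝ) ^ m ≤ (N₀ : ℝ) ^ (2 * m - 1) :=
        pow_le_pow_right₀ (by linarith) (by omega)
      have l3 : (3 * c₃) ^ m ≤ 3 * c₃ := by
        have := pow_le_pow_of_le_one (show (0 : ℝ) ≤ 3 * c₃ by linarith) (by linarith) hm1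
        rw [pow_one] at this
        exact this
      have l4 : 0 < (3 * c₃) ^ m := by positivity
      rw [div_pow, div_le_iff₀ l4] at l1
      calc (600 * C) ^ m ≤ (N₀ : ℝ) ^ m * (3 * c₃) ^ m := l1
        _ ≤ (N₀ : ℝ) ^ (2 * m - 1) * (3 * c₃) := by gcongr
        _ = _ := by ring
    have k4 : (N : ℝ) ^ (2 * m - 1) ≤ (N₀ : ℝ) ^ (2 * m - 1) * S := by
      have : 3 * c₃ * (N : ℝ) ^ (2 * m - 1) ≤ 3 * c₃ * ((N₀ : ℝ) ^ (2 * m - 1) * S) := by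
        calc 3 * c₃ * (N : ℝ) ^ (2 * m - 1) ≤ S * (600 * C) ^ m := k2
          _ ≤ S * (3 * c₃ * (N₀ : ℝ) ^ (2 * m - 1)) := by gcongr
          _ = _ := by ring
      exact le_of_mul_le_mul_left this (by linarith)
    rw [← hm]
    exact_mod_cast k4
  rw [← hS]
  -- the two points
  have hρ1 : 0 < 10 / (N : ℝ) := by positivity
  have hρ1' : 10 / (N : ℝ) ≤ 1 / 20 := by
    rw [div_le_div_iff₀ hNp (by norm_num)]
    linarith
  have hρ2 : 0 < 5 / (N : ℝ) := by positivity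
  have hρ2' : 5 / (N : ℝ) ≤ 1 / 20 := by
    rw [div_le_div_iff₀ hNp (by norm_num)]
    linarith
  obtain ⟨u, hu, q1, q2, q3, q4⟩ := point1 (10 / (N : ℝ)) hρ1 hρ1'
  obtain ⟨R, q, hR, hRq, q5, q6⟩ := point2 (5 / (N : ℝ)) hρ2 hρ2'
  obtain ⟨Q, hQ⟩ : ∃ Q : ℂ, Q = 2 - u - u⁻¹ := ⟨_, rfl⟩
  rw [← hQ] at q1 q2 q3 q4
  have hR1 : 1 < R := by
    rw [hR]
    exact Real.one_lt_exp_iff.2 hρ2
  have huR : ‖u‖ = R ^ 2 := by
    rw [hu, hR, ← Real.exp_nat_mul]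
    congr 1
    push_cast
    ring
  have hRN : (100 : ℝ) ≤ R ^ (N : ℤ) := by
    have : R ^ (N : ℤ) = Real.exp 5 := by
      rw [hR, zpow_natCast, ← Real.exp_nat_mul]
      congr 1
      field_simp
    rw [this]
    exact exp5
  have hu1 : 1 < ‖u‖ := by
    rw [huR]
    exact one_lt_pow₀ hR1 (by norm_num)
  have huN : (100 : ℝ) ≤ ‖u‖ ^ (N : ℤ) := by
    rw [huR]
    refine hRN.trans ?_
    apply zpow_le_zpow_left₀ hNZ.le (by linarith)
    exact le_self_pow₀ hR1.le (by norm_num)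
  have hu3 : ‖u‖ ^ 2 ≤ 3 := by
    rw [hu, ← Real.exp_nat_mul]
    have h1 : ((2 : ℕ) : ℝ) * (10 / (N : ℝ)) ≤ 1 := by
      push_cast
      have : 10 / (N : ℝ) ≤ 1 / 2 := by linarith
      linarith
    have h2 := Real.exp_le_exp.2 h1
    have h3 := Real.exp_one_lt_d9
    linarith
  have hR3 : R ^ 2 ≤ 3 := by
    rw [← huR]
    exact (le_self_pow₀ hu1.le (by norm_num)).trans hu3
  have hQ12 : 12 / (N : ℝ) ^ 2 ≤ ‖Q‖ := by
    refine le_trans ?_ q1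
    rw [div_pow]
    have : 4 * ((10 : ℝ) ^ 2 / (N : ℝ) ^ 2) = 400 / (N : ℝ) ^ 2 := by ring
    rw [this]
    gcongr
    norm_num
  have hQ600 : ‖Q‖ ≤ 600 / (N : ℝ) ^ 2 := by
    refine q2.trans (le_of_eq ?_)
    rw [div_pow]
    ring
  have hQp : 0 < ‖Q‖ := lt_of_lt_of_le (by positivity) hQ12
  have hq12 : 12 / (N : ℝ) ^ 2 ≤ q := by
    refine le_trans ?_ q5
    rw [div_pow]
    have : 1 / 2 * ((5 : ℝ) ^ 2 / (N : ℝ) ^ 2) = (25 / 2) / (N : ℝ) ^ 2 := by ring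
    rw [this]
    gcongr
    norm_num
  have hq600' : q ≤ 600 / (N : ℝ) ^ 2 := by
    refine q6.trans ?_
    rw [div_pow]
    have : 2 * ((5 : ℝ) ^ 2 / (N : ℝ) ^ 2) = 50 / (N : ℝ) ^ 2 := by ring
    rw [this]
    gcongr
    norm_num
  have hqp : 0 < q := lt_of_lt_of_le (by positivity) hq12
  obtain ⟨s1, s2, s3, s4, s5, s6, s7, s8⟩ := small ‖Q‖ hQp (hq600 _ hQp hQ600)
  obtain ⟨t1, t2, t3, t4, t5, t6, t7, t8⟩ := small q hqp (hq600 _ hqp hq600')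
  have G1 := hG Q hQp s1
  have nq : ‖(-(q : ℂ))‖ = q := by
    rw [norm_neg, Complex.norm_real, Real.norm_of_nonneg hqp.le]
  have G2 := hG (-(q : ℂ)) (by rw [nq]; exact hqp) (by rw [nq]; exact t1)
  have nR : ‖(R : ℂ)‖ = R := by
    rw [Complex.norm_real, Real.norm_of_nonneg (by linarith)]
  by_cases hd : ∃ t ∈ β, t.1 ≠ 0 ∧ t.2.1 ≠ 0
  · -- a double block
    obtain ⟨ε, hε, hcls⟩ : ∃ ε : ℤ, (ε = 1 ∨ ε = -1) ∧ ∀ t ∈ β, ¬ (0 < ε * t.1 ∧ 0 < ε * t.2.1) := by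
      rcases hβ.2.2.2.1 with h | h
      · exact ⟨1, Or.inl rfl, fun t ht => by simpa using h t ht⟩
      · refine ⟨-1, Or.inr rfl, fun t ht h1 => h t ht ?_⟩
        constructor <;> omega
    have hok := ok_sc hβ hε hcls
    have hd' : ∃ s ∈ β.map (sc ε), s.1 ≠ 0 ∧ s.2.1 ≠ 0 := by
      obtain ⟨t, ht, h1, h2⟩ := hd
      refine ⟨sc ε t, List.mem_map_of_mem ht, ?_, ?_⟩
      · show ε * t.1 ≠ 0
        rcases hε with rfl | rfl <;> simpa using h1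
      · show ε * t.2.1 ≠ 0
        rcases hε with rfl | rfl <;> simpa using h2
    have hTB : ∀ b ∈ TB (β.map (sc ε)), (N : ℤ) ≤ |b| := by
      intro b hb
      obtain ⟨t, ht, rfl⟩ := TB_mem hb
      exact (hok t ht).1
    have two : ∀ x : ℝ, 0 < x → 4 * C * x ≤ c₁ → C * x ≤ 1 → 2 * (C * x) ^ m ≤ c₁ / 2 := by
      intro x hx h1 h2
      have h3 : (C * x) ^ m ≤ (C * x) ^ 1 := pow_le_pow_of_le_one (by positivity) h2 hm1
      rw [pow_one] at h3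
      linarith
    rcases turns_two (C₁ := C') (C₂ := C') (Q := Q) (u := u) (q := q) (R := R) (N := (N : ℤ)) hNZ hqp
      s3 t3 q3 hR1.le huR hRN (TB (β.map (sc ε))) hTB with h | h
    · -- the complex point
      have h1 := main1 hC' hc hCost G1 s2 (by rw [← hc₁]; exact s4) hNZ hu1 huN hok hd' h
      rw [← hc₁, List.length_map, ← hm] at h1
      exact fin ε hε hcls u Q c₁ hQ.symm hu1.le hu3 hQp hQ12 hQ600 hc₁p.le h1
        (two _ hQp s7 (aux_cx hC hQp s6)) (aux_six hc₃p hc₃1 s8)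
    · -- the real point
      have h1 := main1 (Q := -(q : ℂ)) (u := (R : ℂ)) hC' hc hCost G2 (by rw [nq]; exact t2)
        (by rw [nq, ← hc₁]; exact t4) hNZ (by rw [nR]; exact hR1) (by rw [nR]; exact hRN) hok hd' h
      rw [← hc₁, List.length_map, ← hm] at h1
      exact fin ε hε hcls (R : ℂ) (-(q : ℂ)) c₁ hRq (by rw [nR]; exact hR1.le)
        (by rw [nR]; exact hR3) (by rw [nq]; exact hqp) (by rw [nq]; exact hq12)
        (by rw [nq]; exact hq600') hc₁p.le h1 (by rw [nq]; exact two _ hqp t7 (aux_cx hC hqp t6))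
        (by rw [nq]; exact aux_six hc₃p hc₃1 t8)
  · -- no double block
    push Not at hd
    have hd' : ∀ t ∈ β, t.1 = 0 ∨ t.2.1 = 0 := fun t ht => by
      by_cases h : t.1 = 0
      · exact Or.inl h
      · exact Or.inr (hd t ht h)
    obtain ⟨ε, hε, h2, h3⟩ := side hNZ hβ hd'
    have hcls : ∀ t ∈ β, ¬ (0 < ε * t.1 ∧ 0 < ε * t.2.1) := by
      intro t ht h
      rcases hd' t ht with h4 | h4
      · rw [h4, mul_zero] at h
        exact absurd h.1 (lt_irrefl _)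
      · rw [h4, mul_zero] at h
        exact absurd h.2 (lt_irrefl _)
    have hok := ok_sc hβ hε hcls
    have hTB : ∀ b ∈ TB (β.map (sc ε)), (N : ℤ) ≤ |b| := by
      intro b hb
      obtain ⟨t, ht, rfl⟩ := TB_mem hb
      exact (hok t ht).1
    have hm2 : 2 ≤ m := by
      obtain ⟨s, hs, hs1⟩ := hβ.2.1
      obtain ⟨t, ht, ht1⟩ := hβ.2.2.1
      rw [hm]
      by_contra hcon
      have h4 : β.length = 1 := by omega
      obtain ⟨x, rfl⟩ := List.length_eq_one_iff.1 h4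
      rw [List.mem_singleton] at hs ht
      rcases hd' x (List.mem_singleton.2 rfl) with h5 | h5
      · exact hs1 (by rw [hs]; exact h5)
      · exact ht1 (by rw [ht]; exact h5)
    have h1 := turns_one (C₁ := C') (Q := Q) (u := u) (R := ‖u‖) (N := (N : ℤ)) hNZ s3 q3 hu1.le rfl huN
      (TB (β.map (sc ε))) hTB h2 h3
    have h4 := main2 hC' hc hCost G1 s2 s5 s6 q4 hNZ hu1 huN hok
      (by rw [List.length_map, ← hm]; exact hm2) h1
    rw [List.length_map, ← hm] at h4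
    refine fin ε hε hcls u Q (3 / 10 * ‖Q‖) hQ.symm hu1.le hu3 hQp hQ12 hQ600 (by positivity) h4 ?_ ?_
    · have h5 : (C * ‖Q‖) ^ m ≤ (C * ‖Q‖) ^ 2 :=
        pow_le_pow_of_le_one (by positivity) (aux_cx hC hQp s6) hm2
      have h6 : (C * ‖Q‖) ^ 2 = (C ^ 2 * ‖Q‖) * ‖Q‖ := by ring
      have h7 : (C ^ 2 * ‖Q‖) * ‖Q‖ ≤ (1 / 1600) * ‖Q‖ := by
        gcongr
        linarith
      rw [h6] at h5
      linarith
    · gcongr
      linarith

end Pool.Agent.FB.U5
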